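import Mathlib

/-!
# Injective holomorphic functions: nonvanishing derivative, holomorphic inverse, area
-/

namespace Pool.Agent.Helper45.Slit

open Set Metric Filter Topology MeasureTheory

/-- An injective analytic function has nonvanishing derivative. -/
theorem deriv_ne_zero_of_injOn {f : ℂ → ℂ} {z₀ : ℂ} {U : Set ℂ} (hU : U ∈ 𝓝 z₀)
    (hf : AnalyticAt ℂ f z₀) (hinj : InjOn f U) : deriv f z₀ ≠ 0 := by
  intro hd
  -- the order of vanishing
  generalize hr : analyticOrderAt (f · - f z₀) z₀ = r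
  cases r with
  | top =>
    rw [analyticOrderAt_eq_top] at hr
    have h1 : ∀ᶠ z in 𝓝 z₀, z ∈ U ∧ f z - f z₀ = 0 := (Filter.eventually_of_mem hU fun _ h => h).and hr
    obtain ⟨ε, hε, hb⟩ := Metric.eventually_nhds_iff_ball.1 h1
    have hz : z₀ + (ε / 2 : ℝ) ∈ ball z₀ ε := by
      rw [mem_ball, dist_eq_norm]
      simp only [add_sub_cancel_left, Complex.norm_real, Real.norm_eq_abs]
      rw [abs_of_pos (by positivity)]; linarith
    have h2 := hb _ hz
    have h3 := hb _ (mem_ball_self hε)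
    have h4 := hinj h2.1 h3.1 (sub_eq_zero.1 h2.2)
    have : ((ε / 2 : ℝ) : ℂ) = 0 := by simpa using h4
    have : ε / 2 = 0 := by exact_mod_cast this
    linarith
  | coe n =>
    have hfa : AnalyticAt ℂ (f · - f z₀) z₀ := hf.sub analyticAt_const
    obtain ⟨u, hu, hu0, hfu⟩ := hfa.analyticOrderAt_eq_natCast.mp hr
    have hn2 : 2 ≤ n := by
      rcases Nat.lt_or_ge n 2 with h | h
      · exfalso
        interval_cases n
        · have := hfu.self_of_nhds
          simp at this
          exact hu0 this.symm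
        · have h5 : deriv (fun z => f z - f z₀) z₀ = u z₀ := by
            rw [EventuallyEq.deriv_eq hfu]
            have h6 : HasDerivAt (fun z => (z - z₀) ^ 1 • u z) (1 * u z₀ + (z₀ - z₀) * deriv u z₀) z₀ := by
              have := ((hasDerivAt_id z₀).sub_const z₀).fun_mul hu.differentiableAt.hasDerivAt
              simpa using this
            rw [h6.deriv]; simp
          rw [deriv_sub_const, hd] at h5
          exact hu0 h5.symm
      · exact h
    -- n-th root
    have hn0 : (n : ℂ) ≠ 0 := by exact_mod_cast (by omega : n ≠ 0)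
    set v : ℂ → ℂ := fun z => (z - z₀) * (u z / u z₀) ^ (1 / (n : ℂ)) with hv
    have hq : AnalyticAt ℂ (fun z => (u z / u z₀) ^ (1 / (n : ℂ))) z₀ := by
      apply AnalyticAt.cpow
      · exact hu.div analyticAt_const hu0
      · exact analyticAt_const
      · rw [div_self hu0]; exact Complex.one_mem_slitPlane
    have hva : AnalyticAt ℂ v z₀ := (analyticAt_id.sub analyticAt_const).mul hq
    have hvd : HasStrictDerivAt v 1 z₀ := by
      have h1 := hva.hasStrictDerivAt
      have h2 : deriv v z₀ = 1 := by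
        have h3 := ((hasDerivAt_id z₀).sub_const z₀).mul hq.differentiableAt.hasDerivAt
        have h4 : deriv v z₀ = _ := h3.deriv
        rw [h4]; simp [div_self hu0]
      rwa [h2] at h1
    have hv0 : v z₀ = 0 := by simp [hv]
    have hopen : map v (𝓝 z₀) = 𝓝 0 := by
      have := hvd.map_nhds_eq one_ne_zero
      rwa [hv0] at this
    have hvn : ∀ᶠ z in 𝓝 z₀, f z - f z₀ = u z₀ * v z ^ n := by
      have hune : ∀ᶠ z in 𝓝 z₀, u z ≠ 0 := hu.continuousAt.eventually_ne hu0
      filter_upwards [hfu, hune] with z hz hz2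
      rw [hz, hv]
      simp only [smul_eq_mul, mul_pow]
      rw [← Complex.cpow_nat_mul]
      rw [mul_one_div_cancel hn0, Complex.cpow_one]
      field_simp
    have hroot : ∃ ω : ℂ, ω ^ n = 1 ∧ ω ≠ 1 ∧ ‖ω‖ = 1 := by
      refine ⟨Complex.exp (2 * Real.pi * Complex.I / n), ?_, ?_, ?_⟩
      · exact (Complex.isPrimitiveRoot_exp n (by omega)).pow_eq_one
      · exact (Complex.isPrimitiveRoot_exp n (by omega)).ne_one (by omega)
      · rw [Complex.norm_exp]
        have : (2 * Real.pi * Complex.I / n : ℂ) = ((2 * Real.pi / n : ℝ) : ℂ) * Complex.I := by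
          push_cast; ring
        rw [this]; simp
    obtain ⟨ω, hω1, hω2, hω3⟩ := hroot
    have hgood : {z | z ∈ U ∧ f z - f z₀ = u z₀ * v z ^ n} ∈ 𝓝 z₀ :=
      (Filter.eventually_of_mem hU fun _ h => h).and hvn
    have himg : v '' {z | z ∈ U ∧ f z - f z₀ = u z₀ * v z ^ n} ∈ 𝓝 (0 : ℂ) := by
      rw [← hopen]; exact image_mem_map hgood
    obtain ⟨ε, hε, hb⟩ := Metric.mem_nhds_iff.1 himg
    have hw1 : ((ε / 2 : ℝ) : ℂ) ∈ ball (0 : ℂ) ε := by
      rw [mem_ball_zero_iff, Complex.norm_real, Real.norm_eq_abs, abs_of_pos (by positivity)]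
      linarith
    have hw2 : ω * ((ε / 2 : ℝ) : ℂ) ∈ ball (0 : ℂ) ε := by
      rw [mem_ball_zero_iff, norm_mul, hω3, Complex.norm_real, Real.norm_eq_abs,
        abs_of_pos (by positivity)]
      linarith
    obtain ⟨z1, ⟨hz1U, hz1⟩, hz1v⟩ := hb hw1
    obtain ⟨z2, ⟨hz2U, hz2⟩, hz2v⟩ := hb hw2
    have hfe : f z1 = f z2 := by
      have : f z1 - f z₀ = f z2 - f z₀ := by
        rw [hz1, hz2, hz1v, hz2v, mul_pow, hω1, one_mul]
      exact sub_left_inj.1 this
    have hze : z1 = z2 := hinj hz1U hz2U hfe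
    rw [hze, hz2v] at hz1v
    have hne : ((ε / 2 : ℝ) : ℂ) ≠ 0 := by
      exact_mod_cast (by positivity : (ε / 2 : ℝ) ≠ 0)
    have : ω = 1 := by
      have h7 : (ω - 1) * ((ε / 2 : ℝ) : ℂ) = 0 := by rw [sub_mul, one_mul, hz1v, sub_self]
      rcases mul_eq_zero.1 h7 with h | h
      · exact sub_eq_zero.1 h
      · exact absurd h hne
    exact hω2 this

/-- Openness of an injective holomorphic map. -/
theorem isOpen_image_of_injOn {f : ℂ → ℂ} {D : Set ℂ} (hD : IsOpen D)
    (hf : DifferentiableOn ℂ f D) (hinj : InjOn f D) {V : Set ℂ} (hV : IsOpen V) (hVD : V ⊆ D) :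
    IsOpen (f '' V) := by
  rw [isOpen_iff_mem_nhds]
  rintro _ ⟨z, hz, rfl⟩
  have hA : AnalyticAt ℂ f z := (hf.analyticAt (hD.mem_nhds (hVD hz)))
  have hd : deriv f z ≠ 0 := deriv_ne_zero_of_injOn (hD.mem_nhds (hVD hz)) hA hinj
  have h1 : map f (𝓝 z) = 𝓝 (f z) := hA.hasStrictDerivAt.map_nhds_eq hd
  rw [← h1]
  exact image_mem_map (hV.mem_nhds hz)

section Inverse

variable {f : ℂ → ℂ} {D : Set ℂ}

theorem invFunOn_mem {w : ℂ} (hw : w ∈ f '' D) : Function.invFunOn f D w ∈ D :=
  Function.invFunOn_mem hw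

theorem f_invFunOn {w : ℂ} (hw : w ∈ f '' D) : f (Function.invFunOn f D w) = w :=
  Function.invFunOn_eq hw

theorem invFunOn_f (hinj : InjOn f D) {z : ℂ} (hz : z ∈ D) : Function.invFunOn f D (f z) = z :=
  hinj.leftInvOn_invFunOn hz

theorem hasDerivAt_invFunOn (hD : IsOpen D) (hf : DifferentiableOn ℂ f D) (hinj : InjOn f D)
    {w : ℂ} (hw : w ∈ f '' D) :
    HasDerivAt (Function.invFunOn f D) (deriv f (Function.invFunOn f D w))⁻¹ w := by
  set z := Function.invFunOn f D w with hz
  have hzD : z ∈ D := invFunOn_mem hw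
  have hfz : f z = w := f_invFunOn hw
  have hA : AnalyticAt ℂ f z := (hf.analyticAt (hD.mem_nhds hzD))
  have hd : deriv f z ≠ 0 := deriv_ne_zero_of_injOn (hD.mem_nhds hzD) hA hinj
  have hopen : IsOpen (f '' D) := isOpen_image_of_injOn hD hf hinj hD subset_rfl
  apply HasDerivAt.of_local_left_inverse (f := f) _ _ hd
  · filter_upwards [hopen.mem_nhds hw] with y hy
    exact f_invFunOn hy
  · -- continuity
    rw [ContinuousAt, ← hz, tendsto_def]
    intro s hs
    obtain ⟨V, hVs, hVo, hzV⟩ := _root_.mem_nhds_iff.1 (Filter.inter_mem hs (hD.mem_nhds hzD))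
    have h1 : IsOpen (f '' V) := isOpen_image_of_injOn hD hf hinj hVo (fun x hx => (hVs hx).2)
    have h2 : w ∈ f '' V := ⟨z, hzV, hfz⟩
    filter_upwards [h1.mem_nhds h2] with y hy
    obtain ⟨x, hx, rfl⟩ := hy
    rw [mem_preimage, invFunOn_f hinj (hVs hx).2]
    exact (hVs hx).1
  · rw [← hz]
    exact hA.differentiableAt.hasDerivAt

end Inverse

/-- Area formula for an injective holomorphic map (on a measurable subset). -/
theorem lintegral_deriv_sq {A : ℂ → ℂ} {A' : ℂ → ℂ} {S : Set ℂ} (hS : MeasurableSet S)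
    (hA : ∀ z ∈ S, HasDerivAt A (A' z) z) (hinj : InjOn A S) :
    ∫⁻ z in S, ‖A' z‖ₑ ^ 2 = volume (A '' S) := by
  rw [← lintegral_abs_det_fderiv_eq_addHaar_image (μ := volume) (f := A)
    (f' := fun z => (ContinuousLinearMap.toSpanSingleton ℂ (A' z)).restrictScalars ℝ) hS _ hinj]
  · refine lintegral_congr fun z => ?_
    have h1 : (((ContinuousLinearMap.toSpanSingleton ℂ (A' z)).restrictScalars ℝ :
        ℂ →L[ℝ] ℂ)).det = ‖A' z‖ ^ 2 := by
      simp [ContinuousLinearMap.det, LinearMap.det_restrictScalars,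
        Algebra.norm_complex_eq, Complex.normSq_eq_norm_sq]
    rw [h1, abs_of_nonneg (by positivity), ENNReal.ofReal_pow (norm_nonneg _), ofReal_norm]
  · intro z hz
    exact ((hA z hz).hasFDerivAt.restrictScalars ℝ).hasFDerivWithinAt

end Pool.Agent.Helper45.Slit
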