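import Pool.Agent.Helper45.Slit.LengthArea

/-!
# Slit maps whose slit is a Lipschitz graph in logarithmic coordinates
-/

namespace Pool.Agent.Helper45.Slit

open Set Metric Filter Topology MeasureTheory Complex

open scoped ENNReal Real

/-- Existence of an analytic logarithm of `f z / z`. -/
theorem exists_log_of_injOn {f : ℂ → ℂ} (hf : DifferentiableOn ℂ f (ball 0 1))
    (hinj : InjOn f (ball 0 1)) (h0 : f 0 = 0) :
    ∃ L : ℂ → ℂ, DifferentiableOn ℂ L (ball 0 1) ∧ ∀ z ∈ ball (0 : ℂ) 1, f z = z * exp (L z) := by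
  have hmem0 : (0 : ℂ) ∈ ball (0 : ℂ) 1 := mem_ball_self one_pos
  have hnhds : ball (0 : ℂ) 1 ∈ 𝓝 (0 : ℂ) := isOpen_ball.mem_nhds hmem0
  set q : ℂ → ℂ := dslope f 0 with hq
  have hqd : DifferentiableOn ℂ q (ball 0 1) := (Complex.differentiableOn_dslope hnhds).2 hf
  have hqf : ∀ z, f z = z * q z := by
    intro z
    have := sub_smul_dslope f 0 z
    simp only [sub_zero, smul_eq_mul, h0] at this
    exact this.symm
  have hd0 : deriv f 0 ≠ 0 := deriv_ne_zero_of_injOn hnhds (hf.analyticAt hnhds) hinj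
  have hq0 : ∀ z ∈ ball (0 : ℂ) 1, q z ≠ 0 := by
    intro z hz hqz
    by_cases h : z = 0
    · subst h; rw [hq, dslope_same] at hqz; exact hd0 hqz
    · have : f z = f 0 := by rw [hqf z, hqz, mul_zero, h0]
      exact h (hinj hz hmem0 this)
  have hqq : DifferentiableOn ℂ (fun z => deriv q z / q z) (ball 0 1) :=
    (hqd.deriv isOpen_ball).div hqd hq0
  obtain ⟨P, hP⟩ := hqq.isExactOn_ball
  set c : ℂ := log (q 0) - P 0 with hc
  refine ⟨fun z => P z + c, ?_, ?_⟩
  · intro z hz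
    exact ((hP z hz).differentiableAt.add_const c).differentiableWithinAt
  · intro z hz
    have hconst : ∀ z ∈ ball (0 : ℂ) 1, q z * exp (-(P z + c)) = q 0 * exp (-(P 0 + c)) := by
      intro z hz
      apply (convex_ball (0 : ℂ) 1).is_const_of_fderivWithin_eq_zero (𝕜 := ℂ)
        (f := fun z => q z * exp (-(P z + c))) _ _ hz hmem0
      · intro w hw
        have h1 := (hqd.differentiableAt (isOpen_ball.mem_nhds hw))
        exact (h1.mul ((hP w hw).differentiableAt.add_const c).neg.cexp).differentiableWithinAt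
      · intro w hw
        have h1 := (hqd.differentiableAt (isOpen_ball.mem_nhds hw)).hasDerivAt
        have h2 := ((hP w hw).add_const c).neg.cexp
        have h3 := h1.mul h2
        have h4 : deriv q w * exp (-(P w + c)) +
            q w * (exp (-(P w + c)) * -(deriv q w / q w)) = 0 := by
          field_simp [hq0 w hw]; ring
        have h5 : HasDerivAt (fun z => q z * exp (-(P z + c))) 0 w := by
          rw [← h4]; exact h3
        have h6 : HasFDerivAt (fun z => q z * exp (-(P z + c))) (0 : ℂ →L[ℂ] ℂ) w := by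
          have := h5.hasFDerivAt
          simpa using this
        exact h6.hasFDerivWithinAt.fderivWithin (isOpen_ball.uniqueDiffWithinAt hw)
    have h1 := hconst z hz
    have h2 : q 0 * exp (-(P 0 + c)) = 1 := by
      rw [hc, add_sub_cancel, exp_neg, exp_log (hq0 0 hmem0), mul_inv_cancel₀ (hq0 0 hmem0)]
    rw [h2] at h1
    rw [hqf z]
    congr 1
    have h3 : exp (-(P z + c)) * exp (P z + c) = 1 := by rw [← exp_add]; simp
    calc q z = q z * (exp (-(P z + c)) * exp (P z + c)) := by rw [h3, mul_one]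
      _ = (q z * exp (-(P z + c))) * exp (P z + c) := by ring
      _ = exp (P z + c) := by rw [h1, one_mul]

/-- The slit with logarithmic graph `θ` over `[ρ₀, ∞)`. -/
def slitSet (θ : ℝ → ℝ) (ρ₀ : ℝ) : Set ℂ := (fun x : ℝ => exp (x + θ x * I)) '' Ici ρ₀

theorem exp_mem_slitSet_iff {θ : ℝ → ℝ} {ρ₀ : ℝ} {ζ : ℂ} :
    exp ζ ∈ slitSet θ ρ₀ ↔ ρ₀ ≤ ζ.re ∧ ∃ k : ℤ, ζ.im = θ ζ.re + 2 * π * k := by
  constructor
  · rintro ⟨x, hx, hxe⟩
    rw [exp_eq_exp_iff_exists_int] at hxe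
    obtain ⟨n, hn⟩ := hxe
    have hre : x = ζ.re := by
      have := congrArg Complex.re hn; simpa using this
    have him : θ x = ζ.im + n * (2 * π) := by
      have := congrArg Complex.im hn; simpa using this
    refine ⟨by rw [← hre]; exact hx, -n, ?_⟩
    rw [← hre, him]; push_cast; ring
  · rintro ⟨hx, k, hk⟩
    refine ⟨ζ.re, hx, ?_⟩
    show exp _ = exp ζ
    rw [exp_eq_exp_iff_exists_int]
    refine ⟨-k, ?_⟩
    apply Complex.ext
    · simp
    · simp [hk]; ring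

/-- The standing assumptions for the upper bound. -/
structure Setup (θ : ℝ → ℝ) (K ρ₀ φ : ℝ) (f L : ℂ → ℂ) : Prop where
  hK : 0 ≤ K
  lip : ∀ x y, |θ x - θ y| ≤ K * |x - y|
  diff : DifferentiableOn ℂ f (ball 0 1)
  inj : InjOn f (ball 0 1)
  img : f '' ball 0 1 = (slitSet θ ρ₀)ᶜ
  zero : f 0 = 0
  logd : DifferentiableOn ℂ L (ball 0 1)
  log : ∀ z ∈ ball (0 : ℂ) 1, f z = z * exp (L z)
  infty : Tendsto f (𝓝[ball 0 1] (-1)) (cocompact ℂ)
  tip : Tendsto f (𝓝[ball 0 1] (exp (φ * I))) (𝓝 (exp (ρ₀ + θ ρ₀ * I)))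
  hφ : φ ∈ Ioo (-π) π

namespace Setup

variable {θ : ℝ → ℝ} {K ρ₀ φ : ℝ} {f L : ℂ → ℂ} (S : Setup θ K ρ₀ φ f L)

include S

theorem cont_θ : Continuous θ := by
  have : LipschitzWith (Real.toNNReal K) θ := by
    apply LipschitzWith.of_dist_le_mul
    intro x y
    rw [Real.dist_eq, Real.dist_eq, Real.coe_toNNReal K S.hK]
    exact S.lip x y
  exact this.continuous

theorem mem_image {w : ℂ} : w ∈ f '' ball 0 1 ↔ w ∉ slitSet θ ρ₀ := by
  rw [S.img]; rfl

omit S in
/-- Points of one log-strip. -/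
theorem strip_notMem {ζ : ℂ} (h1 : θ ζ.re < ζ.im) (h2 : ζ.im < θ ζ.re + 2 * π) :
    exp ζ ∉ slitSet θ ρ₀ := by
  rw [exp_mem_slitSet_iff]
  rintro ⟨-, k, hk⟩
  have hpi := Real.pi_pos
  have h3 : (0 : ℝ) < k := by
    by_contra h; push Not at h
    nlinarith
  have h4 : (k : ℝ) < 1 := by
    by_contra h; push Not at h
    nlinarith
  have h5 : (0 : ℤ) < k := by exact_mod_cast h3
  have h6 : k < 1 := by exact_mod_cast h4
  omega

theorem differentiableOn_A {U : Set ℂ} (hU : ∀ ζ ∈ U, exp ζ ∉ slitSet θ ρ₀) :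
    DifferentiableOn ℂ (fun ζ => Function.invFunOn f (ball 0 1) (exp ζ)) U := by
  intro ζ hζ
  have h1 := hasDerivAt_invFunOn isOpen_ball S.diff S.inj (S.mem_image.2 (hU ζ hζ))
  exact (h1.comp ζ (Complex.hasDerivAt_exp ζ)).differentiableAt.differentiableWithinAt

/-- Short level circles. -/
theorem exists_short_circle {ε : ℝ} (hε : 0 < ε) (X : ℝ) :
    ∃ x > X, ∀ z₁ ∈ ball (0 : ℂ) 1, ∀ z₂ ∈ ball (0 : ℂ) 1, ‖f z₁‖ = Real.exp x →
      ‖f z₂‖ = Real.exp x → ‖z₁ - z₂‖ < ε := by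
  have hpi := Real.pi_pos
  set U : Set ℂ := {ζ | θ ζ.re < ζ.im ∧ ζ.im < θ ζ.re + 2 * π} with hU
  have hθ := S.cont_θ
  have hUo : IsOpen U := by
    apply IsOpen.inter
    · exact isOpen_lt (hθ.comp continuous_re) continuous_im
    · exact isOpen_lt continuous_im ((hθ.comp continuous_re).add continuous_const)
  set A : ℂ → ℂ := fun ζ => Function.invFunOn f (ball 0 1) (exp ζ) with hA
  have hnot : ∀ ζ ∈ U, exp ζ ∉ slitSet θ ρ₀ := fun ζ hζ => strip_notMem hζ.1 hζ.2
  have hAd : DifferentiableOn ℂ A U := S.differentiableOn_A hnot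
  have hAinj : InjOn A U := by
    intro ζ₁ h1 ζ₂ h2 h12
    have h3 : exp ζ₁ = exp ζ₂ := by
      rw [← f_invFunOn (S.mem_image.2 (hnot ζ₁ h1)), ← f_invFunOn (S.mem_image.2 (hnot ζ₂ h2))]
      exact congrArg f h12
    obtain ⟨n, hn⟩ := exp_eq_exp_iff_exists_int.1 h3
    have hre : ζ₁.re = ζ₂.re := by
      have := congrArg Complex.re hn; simpa using this
    have him : ζ₁.im = ζ₂.im + n * (2 * π) := by
      have := congrArg Complex.im hn; simpa using this
    have h4 := h1.1; have h5 := h1.2; have h6 := h2.1; have h7 := h2.2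
    rw [hre] at h4 h5
    have h8 : (n : ℝ) < 1 := by
      by_contra h; push Not at h; nlinarith
    have h9 : (-1 : ℝ) < n := by
      by_contra h; push Not at h; nlinarith
    have h10 : n < 1 := by exact_mod_cast h8
    have h11 : -1 < n := by exact_mod_cast h9
    have h12 : n = 0 := by omega
    rw [hn, h12]; simp
  have harea : volume (A '' U) ≤ ENNReal.ofReal π := by
    calc volume (A '' U) ≤ volume (ball (0 : ℂ) 1) := by
          apply measure_mono
          rintro _ ⟨ζ, hζ, rfl⟩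
          exact invFunOn_mem (S.mem_image.2 (hnot ζ hζ))
      _ = ENNReal.ofReal π := by
          rw [Complex.volume_ball]
          simp [ENNReal.ofReal, Real.toNNReal_of_nonneg hpi.le]
          rfl
  obtain ⟨N, hN⟩ : ∃ N : ℝ, 2 * π * π < ε ^ 2 * N := by
    refine ⟨(2 * π * π + 1) / ε ^ 2, ?_⟩
    rw [mul_div_cancel₀ _ (by positivity)]
    linarith
  have hN0 : 0 < N := by
    by_contra h; push Not at h
    have : 0 < 2 * π * π := by positivity
    nlinarith [sq_nonneg ε]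
  obtain ⟨x, hx, hshort⟩ := exists_short_vertical hUo hAd hAinj (x₁ := max X ρ₀) (x₂ := max X ρ₀ + N)
    (c := 2 * π) (E := π) (by linarith) (by positivity) (by
      intro x _
      calc volume {y : ℝ | (x + y * I : ℂ) ∈ U} = volume (Ioo (θ x) (θ x + 2 * π)) := by
            congr 1; ext y; simp [hU]
        _ ≤ ENNReal.ofReal (2 * π) := by rw [Real.volume_Ioo]; simp) harea hε (by
      rw [add_sub_cancel_left]; exact hN)
  refine ⟨x, (le_max_left _ _).trans_lt hx.1, ?_⟩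
  have hxρ : ρ₀ ≤ x := ((le_max_right _ _).trans_lt hx.1).le
  -- every point of the circle
  have hkey : ∀ z ∈ ball (0 : ℂ) 1, ‖f z‖ = Real.exp x →
      ∃ y : ℝ, θ x < y ∧ y < θ x + 2 * π ∧ A (x + y * I) = z := by
    intro z hz hfz
    have hfn : f z ∉ slitSet θ ρ₀ := S.mem_image.1 ⟨z, hz, rfl⟩
    have hf0 : f z ≠ 0 := by
      intro h; rw [h, norm_zero] at hfz; exact (Real.exp_pos x).ne hfz
    -- representative of the argument
    set y := toIcoMod Real.two_pi_pos (θ x) (arg (f z)) with hy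
    have hy1 : y ∈ Ico (θ x) (θ x + 2 * π) := toIcoMod_mem_Ico _ _ _
    have hexp : exp (x + y * I) = f z := by
      obtain ⟨n, hn⟩ : ∃ n : ℤ, y = arg (f z) - n * (2 * π) :=
        ⟨toIcoDiv Real.two_pi_pos (θ x) (arg (f z)), by rw [hy, toIcoMod]; simp⟩
      have h2 : (x + y * I : ℂ) = Complex.log (f z) + ((-n : ℤ) : ℂ) * (2 * π * I) := by
        apply Complex.ext
        · simp [Complex.log_re, hfz]
        · simp [Complex.log_im, hn]
          ring
      rw [h2, exp_add, exp_log hf0, exp_int_mul_two_pi_mul_I, mul_one]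
    have hAz : A (x + y * I) = z := by
      show Function.invFunOn f (ball 0 1) (exp (x + y * I)) = z
      rw [hexp]; exact invFunOn_f S.inj hz
    refine ⟨y, lt_of_le_of_ne hy1.1 ?_, hy1.2, hAz⟩
    intro h
    apply hfn
    rw [← hexp, ← h]
    exact ⟨x, hxρ, rfl⟩
  intro z₁ hz₁ z₂ hz₂ h1 h2
  obtain ⟨y₁, ha₁, hb₁, hc₁⟩ := hkey z₁ hz₁ h1
  obtain ⟨y₂, ha₂, hb₂, hc₂⟩ := hkey z₂ hz₂ h2
  rcases le_total y₁ y₂ with h | h
  · have := hshort y₁ y₂ h (fun y hy => by
      simp only [hU, mem_ofPred_eq, add_re, ofReal_re, mul_re, I_re, mul_zero, ofReal_im, I_im,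
        mul_one, sub_self, add_zero, add_im, mul_im, zero_add]
      exact ⟨by linarith [hy.1], by linarith [hy.2]⟩)
    rwa [hc₁, hc₂, norm_sub_rev] at this
  · have := hshort y₂ y₁ h (fun y hy => by
      simp only [hU, mem_ofPred_eq, add_re, ofReal_re, mul_re, I_re, mul_zero, ofReal_im, I_im,
        mul_one, sub_self, add_zero, add_im, mul_im, zero_add]
      exact ⟨by linarith [hy.1], by linarith [hy.2]⟩)
    rwa [hc₁, hc₂] at this

/-- `f` is bounded away from `-1`. -/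
theorem bounded_away {δ : ℝ} (hδ : 0 < δ) :
    ∃ M : ℝ, ∀ z ∈ ball (0 : ℂ) 1, -1 + δ < z.re → ‖f z‖ ≤ M := by
  wlog hδ1 : δ < 1 generalizing δ
  · obtain ⟨M, hM⟩ := this (δ := 1 / 2) (by norm_num) (by norm_num)
    push Not at hδ1
    exact ⟨M, fun z hz h => hM z hz (by linarith)⟩
  have hfc : ContinuousOn f (ball 0 1) := S.diff.continuousOn
  -- a bound on the smaller disc
  obtain ⟨X, hX⟩ : ∃ X : ℝ, ∀ z ∈ closedBall (0 : ℂ) (1 - δ / 2), ‖f z‖ ≤ Real.exp X := by
    have hsub : closedBall (0 : ℂ) (1 - δ / 2) ⊆ ball 0 1 :=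
      closedBall_subset_ball (by linarith)
    obtain ⟨C, hC⟩ := (isCompact_closedBall (0 : ℂ) (1 - δ / 2)).exists_bound_of_continuousOn
      (hfc.mono hsub)
    refine ⟨Real.log (max C 1), fun z hz => ?_⟩
    rw [Real.exp_log (by positivity)]
    exact (hC z hz).trans (le_max_left _ _)
  obtain ⟨x, hxX, hx⟩ := S.exists_short_circle (half_pos hδ) X
  -- a point of the radius to `-1` on the level circle
  have hrad : Tendsto (fun r : ℝ => ‖f (-r)‖) (𝓝[<] 1) atTop := by
    have h1 : Tendsto (fun r : ℝ => (-r : ℂ)) (𝓝[<] 1) (𝓝[ball 0 1] (-1)) := by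
      apply tendsto_nhdsWithin_of_tendsto_nhds_of_eventually_within
      · have : ContinuousAt (fun r : ℝ => (-r : ℂ)) 1 := by fun_prop
        have h2 := this.tendsto
        simp only [ofReal_one] at h2
        exact h2.mono_left nhdsWithin_le_nhds
      · have : ∀ᶠ r : ℝ in 𝓝[<] 1, r ∈ Ioo (0 : ℝ) 1 := Ioo_mem_nhdsLT one_pos
        filter_upwards [this] with r hr
        rw [mem_ball_zero_iff, norm_neg, norm_real, Real.norm_eq_abs, abs_of_pos hr.1]
        exact hr.2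
    exact tendsto_norm_cocompact_atTop.comp (S.infty.comp h1)
  obtain ⟨r₁, hr₁, hr₁f⟩ : ∃ r₁ ∈ Ioo (0 : ℝ) 1, Real.exp x ≤ ‖f (-r₁)‖ := by
    have h1 : ∀ᶠ r : ℝ in 𝓝[<] 1, r ∈ Ioo (0 : ℝ) 1 := Ioo_mem_nhdsLT one_pos
    exact (h1.and (hrad.eventually_ge_atTop _)).exists
  obtain ⟨r, hr, hrf⟩ : ∃ r ∈ Ico (0 : ℝ) 1, ‖f (-r)‖ = Real.exp x := by
    have hcont : ContinuousOn (fun r : ℝ => ‖f (-r)‖) (Ico 0 1) := by
      refine (hfc.comp (f := fun r : ℝ => (-r : ℂ)) (by fun_prop) ?_).norm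
      intro r hr
      rw [mem_ball_zero_iff, norm_neg, norm_real, Real.norm_eq_abs, abs_of_nonneg hr.1]
      exact hr.2
    have h1 := isPreconnected_Ico.intermediate_value (left_mem_Ico.2 (zero_lt_one' ℝ))
      (⟨hr₁.1.le, hr₁.2⟩ : r₁ ∈ Ico (0 : ℝ) 1) hcont
    have h2 : Real.exp x ∈ Icc ‖f (-(0 : ℝ))‖ ‖f (-r₁)‖ := by
      refine ⟨?_, hr₁f⟩
      simp [S.zero, (Real.exp_pos x).le]
    obtain ⟨r, hr, h⟩ := h1 h2
    exact ⟨r, hr, h⟩
  have hrmem : (-r : ℂ) ∈ ball (0 : ℂ) 1 := by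
    rw [mem_ball_zero_iff, norm_neg, norm_real, Real.norm_eq_abs, abs_of_nonneg hr.1]
    exact hr.2
  have hrbig : 1 - δ / 2 < r := by
    by_contra h; push Not at h
    have := hX (-r) (by
      rw [mem_closedBall_zero_iff, norm_neg, norm_real, Real.norm_eq_abs, abs_of_nonneg hr.1]
      exact h)
    rw [hrf, Real.exp_le_exp] at this
    linarith
  -- the convex region
  have hconv : Convex ℝ (ball (0 : ℂ) 1 ∩ {z | -1 + δ < z.re}) :=
    (convex_ball _ _).inter (convex_halfSpace_re_gt _)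
  refine ⟨Real.exp x, fun z hz hzre => ?_⟩
  by_contra hcon
  push Not at hcon
  have h1 := hconv.isPreconnected.intermediate_value (a := (0 : ℂ)) (b := z)
    (f := fun z => ‖f z‖) ⟨mem_ball_self one_pos, by simp; linarith⟩ ⟨hz, hzre⟩
    (hfc.mono inter_subset_left).norm
  obtain ⟨z', ⟨hz'1, hz'2⟩, hz'3⟩ := h1 (show Real.exp x ∈ Icc ‖f 0‖ ‖f z‖ from
    ⟨by simp [S.zero, (Real.exp_pos x).le], hcon.le⟩)
  have h2 := hx (-r) hrmem z' hz'1 hrf hz'3
  have h3 : |((-r : ℂ) - z').re| < δ / 2 := (abs_re_le_norm _).trans_lt h2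
  rw [abs_lt] at h3
  simp at h3
  have h4 : -1 + δ < z'.re := hz'2
  linarith [h3.1]

end Setup

end Pool.Agent.Helper45.Slit
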