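import Pool.Agent.Helper45.Slit.Index

/-!
# Boundary behaviour of slit maps in logarithmic coordinates
-/

namespace Pool.Agent.Helper45.Slit

open Set Metric Filter Topology MeasureTheory Complex

open scoped ENNReal Real

theorem exp_mem_ball {ζ : ℂ} (hζ : ζ ∈ LH) : exp ζ ∈ ball (0 : ℂ) 1 := by
  rw [mem_ball_zero_iff, norm_exp, Real.exp_lt_one_iff]
  exact hζ

theorem tendsto_exp_LH (y : ℝ) :
    Tendsto exp (𝓝[LH] (y * I : ℂ)) (𝓝[ball 0 1] (exp (y * I))) := by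
  apply tendsto_nhdsWithin_of_tendsto_nhds_of_eventually_within
  · exact (continuous_exp.continuousAt.tendsto).mono_left nhdsWithin_le_nhds
  · filter_upwards [self_mem_nhdsWithin] with ζ hζ using exp_mem_ball hζ

namespace Setup

variable {θ : ℝ → ℝ} {K ρ₀ φ : ℝ} {f L : ℂ → ℂ} (S : Setup θ K ρ₀ φ f L)

include S

/-- Cluster values of `f` at the unit circle lie on the slit. -/
theorem clusterPt_mem {ζ₀ : ℂ} (hζ : ‖ζ₀‖ = 1) {w : ℂ}
    (hw : MapClusterPt w (𝓝[ball 0 1] ζ₀) f) : w ∈ slitSet θ ρ₀ := by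
  by_contra hcon
  obtain ⟨z₀, hz₀, rfl⟩ := S.mem_image.2 hcon
  rw [mem_ball_zero_iff] at hz₀
  set r := (1 - ‖z₀‖) / 2 with hr
  have hr0 : 0 < r := by rw [hr]; linarith
  have hV : ball z₀ r ⊆ ball (0 : ℂ) 1 := by
    apply ball_subset_ball'
    rw [dist_zero_right]; linarith
  have hopen : IsOpen (f '' ball z₀ r) :=
    isOpen_image_of_injOn isOpen_ball S.diff S.inj isOpen_ball hV
  have h1 := mapClusterPt_iff_frequently.1 hw _
    (hopen.mem_nhds ⟨z₀, mem_ball_self hr0, rfl⟩)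
  have h2 : ∀ᶠ z in 𝓝[ball 0 1] ζ₀, f z ∉ f '' ball z₀ r := by
    have h3 : ball ζ₀ r ∈ 𝓝[ball (0 : ℂ) 1] ζ₀ :=
      mem_nhdsWithin_of_mem_nhds (ball_mem_nhds _ hr0)
    filter_upwards [self_mem_nhdsWithin, h3] with z hz hz2
    rintro ⟨z', hz', hfz⟩
    have h4 : z' = z := S.inj (hV hz') hz hfz
    rw [h4] at hz'
    rw [mem_ball] at hz' hz2
    have h5 : dist ζ₀ z₀ < r + r := by
      calc dist ζ₀ z₀ ≤ dist ζ₀ z + dist z z₀ := dist_triangle _ _ _
        _ < r + r := by rw [dist_comm ζ₀ z]; linarith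
    have h6 : ‖ζ₀‖ - ‖z₀‖ ≤ dist ζ₀ z₀ := by rw [dist_eq_norm]; exact norm_sub_norm_le _ _
    linarith
  obtain ⟨z, hz1, hz2⟩ := (h1.and_eventually h2).exists
  exact hz2 hz1

/-- A function that is continuous and constant on the slit composed with `f` tends to that
constant at all boundary points other than `-1`. -/
theorem tendsto_comp {E : Type*} [TopologicalSpace E] {ψ : ℂ → E} {c : E}
    (hψ : ∀ w ∈ slitSet θ ρ₀, ContinuousAt ψ w ∧ ψ w = c) {ζ₀ : ℂ} (hζ : ‖ζ₀‖ = 1)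
    (hre : -1 < ζ₀.re) : Tendsto (fun z => ψ (f z)) (𝓝[ball 0 1] ζ₀) (𝓝 c) := by
  obtain ⟨M, hM⟩ := S.bounded_away (δ := (ζ₀.re + 1) / 2) (by linarith)
  intro N hN
  by_contra hcon
  have hcon' : ∃ᶠ z in 𝓝[ball 0 1] ζ₀, ψ (f z) ∉ N := by
    intro h
    apply hcon
    rw [mem_map]
    filter_upwards [h] with z hz
    simpa using hz
  set G : Filter ℂ := 𝓝[ball 0 1] ζ₀ ⊓ 𝓟 {z | ψ (f z) ∉ N} with hG
  have hGne : G.NeBot := frequently_mem_iff_neBot.1 hcon'
  have hle : map f G ≤ 𝓟 (closedBall (0 : ℂ) M) := by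
    rw [le_principal_iff, mem_map]
    have h1 : ∀ᶠ z in 𝓝[ball 0 1] ζ₀, -1 + (ζ₀.re + 1) / 2 < z.re := by
      apply nhdsWithin_le_nhds
      apply continuous_re.continuousAt.eventually (lt_mem_nhds _)
      linarith
    have h2 : ∀ᶠ z in 𝓝[ball 0 1] ζ₀, f z ∈ closedBall (0 : ℂ) M := by
      filter_upwards [self_mem_nhdsWithin, h1] with z hz hz2
      rw [mem_closedBall_zero_iff]
      exact hM z hz hz2
    exact (inf_le_left : G ≤ 𝓝[ball 0 1] ζ₀) h2
  obtain ⟨w, -, hw⟩ := (isCompact_closedBall (0 : ℂ) M).exists_clusterPt (f := map f G) hle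
  have hw' : w ∈ slitSet θ ρ₀ := by
    apply S.clusterPt_mem hζ
    exact ClusterPt.mono hw (map_mono inf_le_left)
  obtain ⟨hc1, hc2⟩ := hψ w hw'
  have h3 : ψ ⁻¹' N ∈ 𝓝 w := hc1.preimage_mem_nhds (by rw [hc2]; exact hN)
  have h4 : ∃ᶠ z in G, f z ∈ ψ ⁻¹' N := mapClusterPt_iff_frequently.1 hw _ h3
  have h5 : ∀ᶠ z in G, ψ (f z) ∉ N := (inf_le_right : G ≤ _) (mem_principal_self _)
  obtain ⟨z, hz1, hz2⟩ := (h4.and_eventually h5).exists
  exact hz2 hz1

end Setup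

/-- The logarithmic map `F(ζ) = L(e^ζ) + ζ`. -/
noncomputable def Flog (L : ℂ → ℂ) (ζ : ℂ) : ℂ := L (exp ζ) + ζ

/-- The height of `F` above the graph. -/
noncomputable def hgt (θ : ℝ → ℝ) (L : ℂ → ℂ) (ζ : ℂ) : ℝ := (Flog L ζ).im - θ (Flog L ζ).re

namespace Setup

variable {θ : ℝ → ℝ} {K ρ₀ φ : ℝ} {f L : ℂ → ℂ} (S : Setup θ K ρ₀ φ f L)

include S

theorem exp_F {ζ : ℂ} (hζ : ζ ∈ LH) : exp (Flog L ζ) = f (exp ζ) := by
  rw [Flog, exp_add, S.log _ (exp_mem_ball hζ), mul_comm]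

theorem cont_F : ContinuousOn (Flog L) LH := by
  refine ContinuousOn.add ?_ continuousOn_id
  exact S.logd.continuousOn.comp continuous_exp.continuousOn (fun ζ hζ => exp_mem_ball hζ)

theorem cont_hgt : ContinuousOn (hgt θ L) LH :=
  (continuous_im.comp_continuousOn S.cont_F).sub
    (S.cont_θ.comp_continuousOn (continuous_re.comp_continuousOn S.cont_F))

theorem re_F {ζ : ℂ} (hζ : ζ ∈ LH) : (Flog L ζ).re = Real.log ‖f (exp ζ)‖ := by
  rw [← S.exp_F hζ, norm_exp, Real.log_exp]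

omit S in
theorem slit_ne_zero {w : ℂ} (hw : w ∈ slitSet θ ρ₀) : w ≠ 0 := by
  obtain ⟨x, -, rfl⟩ := hw
  exact exp_ne_zero _

/-- height is not a multiple of `2π` beyond the tip. -/
theorem hgt_avoid {ζ : ℂ} (hζ : ζ ∈ LH) (hre : ρ₀ ≤ (Flog L ζ).re) (k : ℤ) :
    hgt θ L ζ ≠ 2 * π * k := by
  intro h
  have h1 : exp (Flog L ζ) ∈ slitSet θ ρ₀ :=
    exp_mem_slitSet_iff.2 ⟨hre, k, by rw [hgt] at h; linarith⟩
  rw [S.exp_F hζ] at h1
  exact S.mem_image.1 ⟨_, exp_mem_ball hζ, rfl⟩ h1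

omit S in
theorem cos_gt {y : ℝ} (hy : y ∈ Ioo (-π) π) : -1 < (exp (y * I)).re := by
  rw [exp_ofReal_mul_I_re]
  have h1 : Real.cos y ≠ -1 := by
    intro h
    rw [Real.cos_eq_neg_one_iff] at h
    obtain ⟨n, hn⟩ := h
    have hpi := Real.pi_pos
    have h2 : (-1 : ℝ) < n := by
      by_contra h; push Not at h; nlinarith [hy.1]
    have h3 : (n : ℝ) < 0 := by
      by_contra h; push Not at h; nlinarith [hy.2]
    have h4 : (-1 : ℤ) < n := by exact_mod_cast h2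
    have h5 : n < 0 := by exact_mod_cast h3
    omega
  exact lt_of_le_of_ne (Real.neg_one_le_cos y) h1.symm

theorem tendsto_exp_hgt {y : ℝ} (hy : y ∈ Ioo (-π) π) :
    Tendsto (fun ζ => exp (hgt θ L ζ * I)) (𝓝[LH] (y * I)) (𝓝 1) := by
  set ψ : ℂ → ℂ := fun w => (w / ‖w‖) * exp (-(θ (Real.log ‖w‖) : ℂ) * I) with hψ
  have h1 : Tendsto (fun z => ψ (f z)) (𝓝[ball 0 1] (exp (y * I))) (𝓝 1) := by
    apply S.tendsto_comp _ (by rw [norm_exp_ofReal_mul_I]) (cos_gt hy)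
    intro w hw
    have hw0 := slit_ne_zero hw
    constructor
    · have hn0 : ((‖w‖ : ℝ) : ℂ) ≠ 0 := by simpa using hw0
      have hθc := S.cont_θ
      have h2 : ContinuousAt (fun w : ℂ => Real.log ‖w‖) w :=
        continuous_norm.continuousAt.log (by simpa using hw0)
      have h3 : ContinuousAt (fun w : ℂ => (θ (Real.log ‖w‖) : ℂ)) w :=
        (continuous_ofReal.comp hθc).continuousAt.comp h2
      have h4 : ContinuousAt (fun w : ℂ => w / (‖w‖ : ℂ)) w :=
        continuousAt_id.div (by fun_prop) hn0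
      exact h4.mul ((h3.neg.mul continuousAt_const).cexp)
    · obtain ⟨x, -, rfl⟩ := hw
      simp only [hψ, norm_exp, add_re, ofReal_re, mul_re, I_re, mul_zero, ofReal_im, I_im, mul_one,
        sub_self, add_zero, Real.log_exp]
      rw [exp_add, ofReal_exp, mul_div_right_comm, div_self (exp_ne_zero _), one_mul, ← exp_add]
      simp
  have h2 := h1.comp (tendsto_exp_LH y)
  refine h2.congr' ?_
  filter_upwards [self_mem_nhdsWithin] with ζ hζ
  simp only [Function.comp, hψ]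
  rw [← S.exp_F hζ, norm_exp, Real.log_exp, ofReal_exp, ← exp_sub, ← exp_add]
  congr 1
  rw [hgt]
  apply Complex.ext <;> simp <;> ring

theorem re_F_ge {y : ℝ} (hy : y ∈ Ioo (-π) π) {δ : ℝ} (hδ : 0 < δ) :
    ∀ᶠ ζ in 𝓝[LH] (y * I : ℂ), ρ₀ - δ < (Flog L ζ).re := by
  set ψ : ℂ → ℝ := fun w => max (ρ₀ - Real.log ‖w‖) 0 with hψ
  have h1 : Tendsto (fun z => ψ (f z)) (𝓝[ball 0 1] (exp (y * I))) (𝓝 0) := by
    apply S.tendsto_comp _ (by rw [norm_exp_ofReal_mul_I]) (cos_gt hy)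
    intro w hw
    have hw0 := slit_ne_zero hw
    constructor
    · have h2 : ContinuousAt (fun w : ℂ => Real.log ‖w‖) w :=
        continuous_norm.continuousAt.log (by simpa using hw0)
      exact (continuousAt_const.sub h2).max continuousAt_const
    · obtain ⟨x, hx, rfl⟩ := hw
      simp only [hψ, norm_exp, add_re, ofReal_re, mul_re, I_re, mul_zero, ofReal_im, I_im, mul_one,
        sub_self, add_zero, Real.log_exp]
      exact max_eq_right (sub_nonpos.2 hx)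
  have h2 := (h1.comp (tendsto_exp_LH y)).eventually (gt_mem_nhds hδ)
  filter_upwards [h2, self_mem_nhdsWithin] with ζ h3 hζ
  rw [S.re_F hζ]
  have h4 : ρ₀ - Real.log ‖f (exp ζ)‖ ≤ ψ (f (exp ζ)) := le_max_left _ _
  have h5 : ψ (f (exp ζ)) < δ := h3
  linarith

/-- The index at the tip. -/
theorem exists_index : ∃ k : ℤ, Tendsto (hgt θ L) (𝓝[LH] (φ * I)) (𝓝 (2 * π * k)) :=
  exists_tendsto_int S.cont_hgt (S.tendsto_exp_hgt S.hφ)

/-- One can normalise the graph so that the index at the tip is zero. -/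
theorem exists_normalised : ∃ θ' : ℝ → ℝ, Setup θ' K ρ₀ φ f L ∧
    Tendsto (hgt θ' L) (𝓝[LH] (φ * I)) (𝓝 0) := by
  obtain ⟨k, hk⟩ := S.exists_index
  set θ' : ℝ → ℝ := fun x => θ x + 2 * π * k with hθ'
  have hpt : ∀ x : ℝ, exp (x + θ' x * I) = exp (x + θ x * I) := by
    intro x
    rw [exp_eq_exp_iff_exists_int]
    exact ⟨k, by rw [hθ']; push_cast; ring⟩
  have hslit : slitSet θ' ρ₀ = slitSet θ ρ₀ := by
    unfold slitSet
    apply image_congr
    intro x _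
    exact hpt x
  refine ⟨θ', ?_, ?_⟩
  · exact
      { hK := S.hK
        lip := fun x y => by
          have h1 : θ' x - θ' y = θ x - θ y := by rw [hθ']; ring
          rw [h1]; exact S.lip x y
        diff := S.diff
        inj := S.inj
        img := by rw [hslit]; exact S.img
        zero := S.zero
        logd := S.logd
        log := S.log
        infty := S.infty
        tip := by rw [hpt]; exact S.tip
        hφ := S.hφ }
  · have h1 : hgt θ' L = fun ζ => hgt θ L ζ - 2 * π * k := by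
      ext ζ; simp only [hgt, hθ']; ring
    rw [h1]
    have h2 := hk.sub_const (2 * π * k)
    rwa [sub_self] at h2

end Setup

end Pool.Agent.Helper45.Slit
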