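import Mathlib

/-!
# A covering argument for maps of the disc onto slit domains
-/

namespace Pool.Agent.Helper45.Slit

open Set Metric Filter Topology MeasureTheory Complex

section Cover

variable {f : ℂ → ℂ} {Γ : Set ℂ}

theorem fiber_near (hd : DifferentiableOn ℂ f (ball 0 1))
    (hbd : ∀ ζ : ℂ, ‖ζ‖ = 1 → ζ ≠ -1 → ∃ w ∈ Γ, Tendsto f (𝓝[ball 0 1] ζ) (𝓝 w))
    (hinf : Tendsto f (𝓝[ball 0 1] (-1)) (cocompact ℂ)) {w₀ : ℂ} (hw₀ : w₀ ∉ Γ) {V : Set ℂ}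
    (hV : IsOpen V) (hfib : ∀ z ∈ ball (0 : ℂ) 1, f z = w₀ → z ∈ V) :
    ∀ᶠ w in 𝓝 w₀, ∀ z ∈ ball (0 : ℂ) 1, f z = w → z ∈ V := by
  by_contra hcon
  have hfreq : ∃ᶠ w in 𝓝 w₀, ∃ z ∈ ball (0 : ℂ) 1, f z = w ∧ z ∉ V := by
    intro h
    apply hcon
    filter_upwards [h] with w hw z hz hzw
    by_contra hzV
    exact hw ⟨z, hz, hzw, hzV⟩
  set G : Filter ℂ := comap f (𝓝 w₀) ⊓ 𝓟 (ball 0 1 ∩ Vᶜ) with hG
  have hGne : G.NeBot := by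
    rw [hG, inf_principal_neBot_iff]
    intro U hU
    obtain ⟨t, ht, htU⟩ := mem_comap.1 hU
    obtain ⟨w, ⟨z, hz, hzw, hzV⟩, hwt⟩ := (hfreq.and_eventually ht).exists
    exact ⟨z, htU (by rw [mem_preimage, hzw]; exact hwt), hz, hzV⟩
  have hGle : G ≤ 𝓟 (closedBall (0 : ℂ) 1) :=
    inf_le_right.trans (principal_mono.2 (inter_subset_left.trans ball_subset_closedBall))
  obtain ⟨ζ, hζ, hcl⟩ := (isCompact_closedBall (0 : ℂ) 1).exists_clusterPt hGle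
  set M : Filter ℂ := 𝓝 ζ ⊓ G with hM
  have hMne : M.NeBot := hcl
  have hMw : Tendsto f M (𝓝 w₀) :=
    tendsto_comap.mono_left (inf_le_right.trans inf_le_left)
  have hMb : M ≤ 𝓝[ball 0 1] ζ := by
    apply le_inf inf_le_left
    exact (inf_le_right.trans inf_le_right).trans (principal_mono.2 inter_subset_left)
  have hMV : ∀ᶠ z in M, z ∉ V := by
    have : M ≤ 𝓟 Vᶜ := (inf_le_right.trans inf_le_right).trans (principal_mono.2 inter_subset_right)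
    exact this (mem_principal_self _)
  rw [mem_closedBall_zero_iff] at hζ
  rcases hζ.lt_or_eq with h | h
  · have h1 : Tendsto f M (𝓝 (f ζ)) :=
      ((hd.continuousOn.continuousAt (isOpen_ball.mem_nhds (mem_ball_zero_iff.2 h))).tendsto).mono_left
        inf_le_left
    have h2 := tendsto_nhds_unique h1 hMw
    have h3 : ζ ∈ V := hfib ζ (mem_ball_zero_iff.2 h) h2
    have h4 : ∀ᶠ z in M, z ∈ V := (inf_le_left : M ≤ 𝓝 ζ) (hV.mem_nhds h3)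
    obtain ⟨z, h5, h6⟩ := (h4.and hMV).exists
    exact h6 h5
  · by_cases h' : ζ = -1
    · rw [h'] at hMb
      have h1 : Tendsto f M (cocompact ℂ) := hinf.mono_left hMb
      have h2 : Disjoint (𝓝 w₀) (cocompact ℂ) := disjoint_nhds_cocompact w₀
      exact (hMw.not_tendsto h2) h1
    · obtain ⟨w, hw, hlim⟩ := hbd ζ h h'
      have h2 := tendsto_nhds_unique (hlim.mono_left hMb) hMw
      exact hw₀ (h2 ▸ hw)

theorem image_mem_nhds (hd : DifferentiableOn ℂ f (ball 0 1))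
    (hder : ∀ z ∈ ball (0 : ℂ) 1, deriv f z ≠ 0) {V : Set ℂ} {z : ℂ} (hz : z ∈ ball (0 : ℂ) 1)
    (hV : V ∈ 𝓝 z) : f '' V ∈ 𝓝 (f z) := by
  have hA : AnalyticAt ℂ f z := hd.analyticAt (isOpen_ball.mem_nhds hz)
  have h1 : map f (𝓝 z) = 𝓝 (f z) := hA.hasStrictDerivAt.map_nhds_eq (hder z hz)
  rw [← h1]
  exact image_mem_map hV

theorem exists_injOn_nhds (hd : DifferentiableOn ℂ f (ball 0 1))
    (hder : ∀ z ∈ ball (0 : ℂ) 1, deriv f z ≠ 0) {z : ℂ} (hz : z ∈ ball (0 : ℂ) 1) :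
    ∃ V, IsOpen V ∧ z ∈ V ∧ V ⊆ ball 0 1 ∧ InjOn f V := by
  have hA : AnalyticAt ℂ f z := hd.analyticAt (isOpen_ball.mem_nhds hz)
  have h1 := hA.hasStrictDerivAt.hasStrictFDerivAt_equiv (hder z hz)
  set e := h1.toOpenPartialHomeomorph f with he
  refine ⟨e.source ∩ ball 0 1, e.open_source.inter isOpen_ball,
    ⟨h1.mem_toOpenPartialHomeomorph_source, hz⟩, inter_subset_right, ?_⟩
  exact (e.injOn).mono inter_subset_left

/-- **Covering lemma.** -/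
theorem cover (hd : DifferentiableOn ℂ f (ball 0 1))
    (hder : ∀ z ∈ ball (0 : ℂ) 1, deriv f z ≠ 0)
    (h0 : ∀ z ∈ ball (0 : ℂ) 1, f z = 0 ↔ z = 0) (hΓ0 : 0 ∉ Γ)
    (hbd : ∀ ζ : ℂ, ‖ζ‖ = 1 → ζ ≠ -1 → ∃ w ∈ Γ, Tendsto f (𝓝[ball 0 1] ζ) (𝓝 w))
    (hinf : Tendsto f (𝓝[ball 0 1] (-1)) (cocompact ℂ))
    (hsurj : ∀ w ∈ Γ, ∃ ζ : ℂ, ‖ζ‖ = 1 ∧ Tendsto f (𝓝[ball 0 1] ζ) (𝓝 w))
    (hconn : IsPreconnected Γᶜ) (hint : interior Γ = ∅) :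
    InjOn f (ball 0 1) ∧ f '' ball 0 1 = Γᶜ := by
  set Q : ℂ → Prop := fun w => ∃! z, z ∈ ball (0 : ℂ) 1 ∧ f z = w with hQ
  have hloc : ∀ w₀ ∈ Γᶜ, ∀ᶠ w in 𝓝[Γᶜ] w₀, (Q w₀ ↔ Q w) := by
    intro w₀ hw₀
    apply nhdsWithin_le_nhds
    by_cases hex : ∃ z₀ ∈ ball (0 : ℂ) 1, f z₀ = w₀
    · obtain ⟨z₀, hz₀, hfz₀⟩ := hex
      by_cases huniq : ∀ z ∈ ball (0 : ℂ) 1, f z = w₀ → z = z₀
      · -- unique preimage
        obtain ⟨V, hVo, hzV, hVb, hVi⟩ := exists_injOn_nhds hd hder hz₀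
        have h1 := fiber_near hd hbd hinf hw₀ hVo (fun z hz hzw => by
          rw [huniq z hz hzw]; exact hzV)
        have h2 : f '' V ∈ 𝓝 w₀ := by
          rw [← hfz₀]; exact image_mem_nhds hd hder hz₀ (hVo.mem_nhds hzV)
        filter_upwards [h1, h2] with w hw1 hw2
        obtain ⟨z, hz, hzw⟩ := hw2
        have hQ0 : Q w₀ := ⟨z₀, ⟨hz₀, hfz₀⟩, fun z hz => huniq z hz.1 hz.2⟩
        have hQw : Q w := ⟨z, ⟨hVb hz, hzw⟩, fun z' hz' =>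
          hVi (hw1 z' hz'.1 hz'.2) hz (hz'.2.trans hzw.symm)⟩
        exact ⟨fun _ => hQw, fun _ => hQ0⟩
      · push Not at huniq
        obtain ⟨z₁, hz₁, hfz₁, hne⟩ := huniq
        obtain ⟨V₀, V₁, hV₀, hV₁, h0V, h1V, hdisj⟩ := t2_separation hne
        have h2 : f '' (V₀ ∩ ball 0 1) ∈ 𝓝 w₀ := by
          rw [← hfz₁]
          exact image_mem_nhds hd hder hz₁ ((hV₀.inter isOpen_ball).mem_nhds ⟨h0V, hz₁⟩)
        have h3 : f '' (V₁ ∩ ball 0 1) ∈ 𝓝 w₀ := by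
          rw [← hfz₀]
          exact image_mem_nhds hd hder hz₀ ((hV₁.inter isOpen_ball).mem_nhds ⟨h1V, hz₀⟩)
        filter_upwards [h2, h3] with w hw2 hw3
        have hnQ0 : ¬ Q w₀ := by
          rintro ⟨z, -, hz⟩
          exact hne ((hz z₁ ⟨hz₁, hfz₁⟩).trans (hz z₀ ⟨hz₀, hfz₀⟩).symm)
        have hnQw : ¬ Q w := by
          rintro ⟨z, -, hz⟩
          obtain ⟨a, ha, haw⟩ := hw2
          obtain ⟨b, hb, hbw⟩ := hw3
          have hab : a = b := (hz a ⟨ha.2, haw⟩).trans (hz b ⟨hb.2, hbw⟩).symm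
          exact hdisj.le_bot ⟨ha.1, hab ▸ hb.1⟩
        exact ⟨fun h => absurd h hnQ0, fun h => absurd h hnQw⟩
    · push Not at hex
      have h1 := fiber_near hd hbd hinf hw₀ isOpen_empty (fun z hz hzw => absurd hzw (hex z hz))
      filter_upwards [h1] with w hw
      have hnQ0 : ¬ Q w₀ := by
        rintro ⟨z, hz, -⟩
        exact hex z hz.1 hz.2
      have hnQw : ¬ Q w := by
        rintro ⟨z, hz, -⟩
        exact hw z hz.1 hz.2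
      exact ⟨fun h => absurd h hnQ0, fun h => absurd h hnQw⟩
  have hQ0 : Q 0 := by
    refine ⟨0, ⟨mem_ball_self one_pos, (h0 0 (mem_ball_self one_pos)).2 rfl⟩, ?_⟩
    intro z hz
    exact (h0 z hz.1).1 hz.2
  have hall : ∀ w ∈ Γᶜ, Q w := by
    intro w hw
    have := hconn.induction₂ (fun a b : ℂ => (Q a ↔ Q b)) hloc
      (fun _ _ _ _ _ _ h1 h2 => h1.trans h2) (fun _ _ _ _ h1 => h1.symm) hΓ0 hw
    exact this.1 hQ0
  -- no value on the slit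
  have hno : ∀ z ∈ ball (0 : ℂ) 1, f z ∉ Γ := by
    intro z₁ hz₁ hfz₁
    obtain ⟨ζ, hζ, hlim⟩ := hsurj _ hfz₁
    have hne : ζ ≠ z₁ := by
      intro h
      rw [mem_ball_zero_iff, ← h, hζ] at hz₁
      exact lt_irrefl _ hz₁
    obtain ⟨V₀, V₁, hV₀, hV₁, h0V, h1V, hdisj⟩ := t2_separation hne
    have h3 : f '' (V₁ ∩ ball 0 1) ∈ 𝓝 (f z₁) :=
      image_mem_nhds hd hder hz₁ ((hV₁.inter isOpen_ball).mem_nhds ⟨h1V, hz₁⟩)
    have h4 : ∀ᶠ z in 𝓝[ball 0 1] ζ, z ∈ V₀ ∧ z ∈ ball (0 : ℂ) 1 ∧ f z ∈ f '' (V₁ ∩ ball 0 1) := by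
      filter_upwards [nhdsWithin_le_nhds (hV₀.mem_nhds h0V), self_mem_nhdsWithin,
        hlim.eventually h3] with z h5 h6 h7
      exact ⟨h5, h6, h7⟩
    have hneB : (𝓝[ball (0 : ℂ) 1] ζ).NeBot := by
      rw [← mem_closure_iff_nhdsWithin_neBot, closure_ball _ one_ne_zero]
      rw [mem_closedBall_zero_iff, hζ]
    -- an open set of such points
    obtain ⟨z₂, hz₂⟩ : ∃ z₂ ∈ ball (0 : ℂ) 1, z₂ ∈ V₀ ∧ f z₂ ∈ f '' (V₁ ∩ ball 0 1) ∧ f z₂ ∉ Γ := by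
      rw [eventually_nhdsWithin_iff] at h4
      obtain ⟨W, hW, hWo, hζW⟩ := _root_.mem_nhds_iff.1 h4
      obtain ⟨z₃, hz₃W, hz₃b⟩ : (W ∩ ball (0 : ℂ) 1).Nonempty := by
        rw [← mem_closure_iff_nhdsWithin_neBot, _root_.mem_closure_iff] at hneB
        exact hneB W hWo hζW
      have h5 : f '' (W ∩ ball 0 1) ∈ 𝓝 (f z₃) :=
        image_mem_nhds hd hder hz₃b ((hWo.inter isOpen_ball).mem_nhds ⟨hz₃W, hz₃b⟩)
      have h6 : ¬ (f '' (W ∩ ball 0 1) ⊆ Γ) := by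
        intro hsub
        have h7 : f z₃ ∈ interior Γ := mem_interior_iff_mem_nhds.2 (mem_of_superset h5 hsub)
        rw [hint] at h7
        exact h7
      rw [not_subset] at h6
      obtain ⟨_, ⟨z, hz, rfl⟩, hzΓ⟩ := h6
      have h8 := hW hz.1 hz.2
      exact ⟨z, hz.2, h8.1, h8.2.2, hzΓ⟩
    obtain ⟨hz₂b, hz₂V, ⟨a, ha, haz⟩, hz₂Γ⟩ := hz₂
    obtain ⟨z, -, hz⟩ := hall _ hz₂Γ
    have hab : z₂ = a := (hz z₂ ⟨hz₂b, rfl⟩).trans (hz a ⟨ha.2, haz⟩).symm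
    exact hdisj.le_bot ⟨hz₂V, hab ▸ ha.1⟩
  constructor
  · intro a ha b hb hab
    obtain ⟨z, -, hz⟩ := hall (f a) (hno a ha)
    exact (hz a ⟨ha, rfl⟩).trans (hz b ⟨hb, hab.symm⟩).symm
  · ext w
    constructor
    · rintro ⟨z, hz, rfl⟩
      exact hno z hz
    · intro hw
      obtain ⟨z, hz, -⟩ := hall w hw
      exact ⟨z, hz.1, hz.2⟩

end Cover

end Pool.Agent.Helper45.Slit
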