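import Mathlib

/-!
# Slit maps with bounded slit angle: definitions

The class `S_α` of univalent functions whose omitted set is a single piecewise analytic slit
to infinity making an angle of at most `απ/2` with the radial direction, and the set of possible
tip positions.
-/

namespace Pool.Agent.Helper45.Slit

open Set Metric Filter Topology

/-- `γ`, restricted to `[0, ∞)`, parametrises a Jordan arc that runs from the finite point `γ 0`
to `∞`: it is continuous, injective, and tends to `∞`. -/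
structure IsArcToInfinity (γ : ℝ → ℂ) : Prop where
  continuousOn : ContinuousOn γ (Ici 0)
  injOn : InjOn γ (Ici 0)
  tendsto : Tendsto γ atTop (cocompact ℂ)

/-- `γ`, restricted to `s`, is a regular analytic arc: on `s` it agrees with a function which is
real-analytic at every point of `s` and has nonvanishing derivative on `s`. -/
def IsAnalyticArcOn (γ : ℝ → ℂ) (s : Set ℝ) : Prop :=
  ∃ c : ℝ → ℂ, AnalyticOnNhd ℝ c s ∧ (∀ t ∈ s, deriv c t ≠ 0) ∧ EqOn γ c s

/-- The part `γ [a, ∞)` of the curve, together with `∞`, is an analytic arc of the Riemann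
sphere: in the coordinate `1/w` it is a regular analytic arc `c [0, 1]` with `c 0 = 0`. -/
def IsAnalyticAtInfinity (γ : ℝ → ℂ) (a : ℝ) : Prop :=
  ∃ c : ℝ → ℂ, AnalyticOnNhd ℝ c (Icc 0 1) ∧ (∀ u ∈ Icc (0 : ℝ) 1, deriv c u ≠ 0) ∧
    InjOn c (Icc 0 1) ∧ c 0 = 0 ∧ γ '' Ici a = (fun u => (c u)⁻¹) '' Ioc 0 1

/-- The curve `γ [0, ∞)` is made up of finitely many analytic arcs: there are break points
`0 = τ 0 < τ 1 < ... < τ n` such that `γ` is a regular analytic arc on each `[τ i, τ (i+1)]`,
`i < n`, and on `[τ n, ∞)`. If the flag `closed` is true, the last arc is required to be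
analytic also at its end point `∞`. -/
def IsPiecewiseAnalytic (closed : Prop) (γ : ℝ → ℂ) : Prop :=
  ∃ (n : ℕ) (τ : ℕ → ℝ), τ 0 = 0 ∧ StrictMono τ ∧
    (∀ i < n, IsAnalyticArcOn γ (Icc (τ i) (τ (i + 1)))) ∧ IsAnalyticArcOn γ (Ici (τ n)) ∧
    (closed → IsAnalyticAtInfinity γ (τ n))

/-- The curve `γ [0, ∞)` has at `γ t` the tangent direction `e` (a unit vector, oriented in the
direction of increasing parameter): the directions of the secants through `γ t` tend to `e` from
both sides (from the right only if `t = 0`). -/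
def HasTangentDir (γ : ℝ → ℂ) (t : ℝ) (e : ℂ) : Prop :=
  Tendsto (fun s => (γ s - γ t) / (‖γ s - γ t‖ : ℂ)) (𝓝[>] t) (𝓝 e) ∧
    Tendsto (fun s => (γ t - γ s) / (‖γ t - γ s‖ : ℂ)) (𝓝[Ico 0 t] t) (𝓝 e)

/-- `f` belongs to `S_α` and `γ` parametrises the slit `ℂ ∖ f(𝔻)`, from its finite end point
`γ 0` to `∞`. -/
structure IsSlitMap (closed : Prop) (α : ℝ) (f : ℂ → ℂ) (γ : ℝ → ℂ) : Prop where
  differentiableOn : DifferentiableOn ℂ f (ball 0 1)
  injOn : InjOn f (ball 0 1)
  map_zero : f 0 = 0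
  deriv_zero : deriv f 0 = 1
  arc : IsArcToInfinity γ
  analytic : IsPiecewiseAnalytic closed γ
  compl_image : (f '' ball 0 1)ᶜ = γ '' Ici 0
  angle_le : ∀ t, 0 ≤ t → ∀ e, HasTangentDir γ t e →
    InnerProductGeometry.angle e (γ t) ≤ α * Real.pi / 2

/-- The set of the numbers `|φ_f|` for `f ∈ S_α` with `f(-1) = ∞`: here `F` is the continuous
extension of `f` to the closed disc, with values in the Riemann sphere, and `F(e^{iφ})` is the
finite end point of the slit. -/
def tipAngles (closed : Prop) (α : ℝ) : Set ℝ :=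
  {x | ∃ (f : ℂ → ℂ) (γ : ℝ → ℂ) (F : ℂ → OnePoint ℂ) (φ : ℝ), IsSlitMap closed α f γ ∧
    ContinuousOn F (closedBall 0 1) ∧ (∀ z ∈ ball (0 : ℂ) 1, F z = (f z : OnePoint ℂ)) ∧
    F (-1) = OnePoint.infty ∧ φ ∈ Ioo (-Real.pi) Real.pi ∧
    F (Complex.exp (φ * Complex.I)) = (γ 0 : OnePoint ℂ) ∧ x = |φ|}

end Pool.Agent.Helper45.Slit
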