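import Mathlib

/-!
# The example: parameters and the function `P`
-/

namespace Pool.Agent.Helper45.Slit

open Set Metric Filter Topology MeasureTheory Complex

open scoped ENNReal Real

/-- Parameters of the spiral-ray slit map. -/
structure Params (κ τ a₁ a₂ : ℝ) : Prop where
  κ0 : 0 < κ
  κ1 : κ < 1 / 2
  h1 : -π < a₁
  h2 : a₁ < τ
  h3 : τ < a₂
  h4 : a₂ < π
  hτ0 : 0 < τ
  hτ : τ = κ * (a₂ - a₁)
  hmod : Real.cos (τ / 2) * (Real.cos (a₁ / 2) / Real.cos (a₂ / 2)) ^ κ = 1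

theorem exists_params {κ η : ℝ} (hκ0 : 0 < κ) (hκ1 : κ < 1 / 2) (hη : 0 < η) :
    ∃ τ a₁ a₂, Params κ τ a₁ a₂ ∧ 2 * κ * π - η < τ := by
  have hpi := Real.pi_pos
  set m := min (π / 8) (η / 4) with hm
  have hm0 : 0 < m := by positivity
  have hm1 : m ≤ π / 8 := min_le_left _ _
  have hm2 : m ≤ η / 4 := min_le_right _ _
  set τ := 2 * κ * (π - 2 * m) with hτ
  have hτ0 : 0 < τ := by
    have : 0 < π - 2 * m := by linarith
    positivity
  have hτ1 : τ < π - 2 * m := by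
    have : 0 < π - 2 * m := by linarith
    rw [hτ]; nlinarith
  have hcosτ : 0 < Real.cos (τ / 2) := Real.cos_pos_of_mem_Ioo ⟨by linarith, by linarith⟩
  have hcosτ1 : Real.cos (τ / 2) < 1 := by
    have h1 : Real.cos (τ / 2) < Real.cos 0 :=
      Real.cos_lt_cos_of_nonneg_of_le_pi le_rfl (by linarith) (by linarith)
    rwa [Real.cos_zero] at h1
  set q := Real.cos (τ / 2) ^ (1 / κ) with hq
  have hq0 : 0 < q := Real.rpow_pos_of_pos hcosτ _
  have hq1 : q < 1 := Real.rpow_lt_one hcosτ.le hcosτ1 (by positivity)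
  have htm : 0 < Real.tan m := Real.tan_pos_of_pos_of_lt_pi_div_two hm0 (by linarith)
  set d := Real.arctan (Real.tan m * ((1 - q) / (1 + q))) with hd
  have hr0 : 0 < (1 - q) / (1 + q) := div_pos (by linarith) (by linarith)
  have hr1 : (1 - q) / (1 + q) < 1 := by rw [div_lt_one (by linarith)]; linarith
  have htd : Real.tan d = Real.tan m * ((1 - q) / (1 + q)) := Real.tan_arctan _
  have hd0 : 0 < d := Real.arctan_pos.2 (by positivity)
  have hdm : d < m := by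
    have h1 : Real.tan m * ((1 - q) / (1 + q)) < Real.tan m := by nlinarith
    have h2 := Real.arctan_strictMono h1
    rwa [Real.arctan_tan (by linarith) (by linarith)] at h2
  have hcm : 0 < Real.cos m := Real.cos_pos_of_mem_Ioo ⟨by linarith, by linarith⟩
  have hcd : 0 < Real.cos d := Real.cos_pos_of_mem_Ioo ⟨by linarith, by linarith⟩
  have hsm : Real.sin m = Real.tan m * Real.cos m := (Real.tan_mul_cos hcm.ne').symm
  have hsd : Real.sin d = Real.tan d * Real.cos d := (Real.tan_mul_cos hcd.ne').symm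
  have hs1 : Real.sin (m - d) = q * Real.sin (m + d) := by
    rw [Real.sin_sub, Real.sin_add, hsm, hsd, htd]
    have : (1 : ℝ) + q ≠ 0 := by linarith
    field_simp
    ring
  have hc1 : Real.cos ((-π + 2 * (m + d)) / 2) = Real.sin (m + d) := by
    have : (-π + 2 * (m + d)) / 2 = -(π / 2 - (m + d)) := by ring
    rw [this, Real.cos_neg, Real.cos_pi_div_two_sub]
  have hc2 : Real.cos ((π - 2 * (m - d)) / 2) = Real.sin (m - d) := by
    have : (π - 2 * (m - d)) / 2 = π / 2 - (m - d) := by ring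
    rw [this, Real.cos_pi_div_two_sub]
  have hspos : 0 < Real.sin (m + d) := Real.sin_pos_of_pos_of_lt_pi (by linarith) (by linarith)
  refine ⟨τ, -π + 2 * (m + d), π - 2 * (m - d), ?_, ?_⟩
  · exact
      { κ0 := hκ0
        κ1 := hκ1
        h1 := by linarith
        h2 := by linarith
        h3 := by linarith
        h4 := by linarith
        hτ0 := hτ0
        hτ := by rw [hτ]; ring
        hmod := by
          rw [hc1, hc2, hs1]
          have h1 : Real.sin (m + d) / (q * Real.sin (m + d)) = q⁻¹ := by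
            field_simp
          rw [h1, Real.inv_rpow hq0.le, hq, ← Real.rpow_mul hcosτ.le,
            one_div_mul_cancel hκ0.ne', Real.rpow_one, mul_inv_cancel₀ hcosτ.ne'] }
  · rw [hτ]
    nlinarith

/-- `1 - e^{-ia} z` has positive real part. -/
theorem re_one_sub_pos {a : ℝ} {z : ℂ} (hz : ‖z‖ ≤ 1) (hne : z ≠ exp (a * I)) :
    0 < (1 - exp (-(a * I)) * z).re := by
  set u := exp (-(a * I)) * z with hu
  have hnu : ‖u‖ = ‖z‖ := by
    rw [hu, norm_mul]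
    have : ‖exp (-(a * I))‖ = 1 := by rw [norm_exp]; simp
    rw [this, one_mul]
  have h1 : u.re ≤ ‖u‖ := re_le_norm u
  rw [sub_re, one_re]
  by_contra hcon
  push Not at hcon
  have h2 : u.re = 1 := le_antisymm (by linarith) (by linarith)
  have h3 : ‖u‖ = 1 := le_antisymm (by linarith) (by linarith)
  have h4 : u.im = 0 := by
    have h5 := sq_norm_sub_sq_re u
    rw [h3, h2] at h5
    have : u.im ^ 2 = 0 := by linarith
    exact pow_eq_zero_iff (two_ne_zero) |>.1 this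
  have h5 : u = 1 := Complex.ext h2 h4
  apply hne
  calc z = exp (a * I) * (exp (-(a * I)) * z) := by
        rw [← mul_assoc, ← exp_add]; simp
    _ = exp (a * I) := by rw [← hu, h5, mul_one]

theorem one_sub_mem_slitPlane {a : ℝ} {z : ℂ} (hz : ‖z‖ ≤ 1) (hne : z ≠ exp (a * I)) :
    1 - exp (-(a * I)) * z ∈ slitPlane := mem_slitPlane_iff.2 (Or.inl (re_one_sub_pos hz hne))

theorem norm_one_sub_ge {a : ℝ} {z : ℂ} : 1 - ‖z‖ ≤ ‖1 - exp (-(a * I)) * z‖ := by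
  have h1 : ‖exp (-(a * I)) * z‖ = ‖z‖ := by
    rw [norm_mul]
    have : ‖exp (-(a * I))‖ = 1 := by rw [norm_exp]; simp
    rw [this, one_mul]
  have h2 := norm_sub_norm_le (1 : ℂ) (exp (-(a * I)) * z)
  rw [norm_one, h1] at h2
  exact h2

theorem norm_one_sub_le {a : ℝ} {z : ℂ} (hz : ‖z‖ ≤ 1) : ‖1 - exp (-(a * I)) * z‖ ≤ 2 := by
  have h1 : ‖exp (-(a * I)) * z‖ = ‖z‖ := by
    rw [norm_mul]
    have : ‖exp (-(a * I))‖ = 1 := by rw [norm_exp]; simp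
    rw [this, one_mul]
  have h2 := norm_sub_le (1 : ℂ) (exp (-(a * I)) * z)
  rw [norm_one, h1] at h2
  linarith

theorem ne_exp_of_norm_lt {a : ℝ} {z : ℂ} (hz : ‖z‖ < 1) : z ≠ exp (a * I) := by
  intro h
  rw [h, norm_exp_ofReal_mul_I] at hz
  exact lt_irrefl _ hz

/-- The function `P(z) = (1 - e^{-iτ}z) ((1 - e^{-ia₁}z)/(1 - e^{-ia₂}z))^κ`. -/
noncomputable def Pf (κ τ a₁ a₂ : ℝ) (z : ℂ) : ℂ :=
  (1 - exp (-(τ * I)) * z) *
    ((1 - exp (-(a₁ * I)) * z) ^ (κ : ℂ) * ((1 - exp (-(a₂ * I)) * z) ^ (κ : ℂ))⁻¹)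

theorem Pf_zero {κ τ a₁ a₂ : ℝ} : Pf κ τ a₁ a₂ 0 = 1 := by simp [Pf]

theorem cpow_ne_zero' {κ : ℝ} {w : ℂ} (hw : w ≠ 0) : w ^ (κ : ℂ) ≠ 0 := by
  rw [Complex.cpow_ne_zero_iff]; exact Or.inl hw

theorem differentiableAt_Pf {κ τ a₁ a₂ : ℝ} {z : ℂ} (hz : ‖z‖ ≤ 1) (h1 : z ≠ exp (a₁ * I))
    (h2 : z ≠ exp (a₂ * I)) : DifferentiableAt ℂ (Pf κ τ a₁ a₂) z := by
  have hs1 := one_sub_mem_slitPlane hz h1
  have hs2 := one_sub_mem_slitPlane hz h2
  have d1 : DifferentiableAt ℂ (fun z => (1 - exp (-(a₁ * I)) * z) ^ (κ : ℂ)) z :=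
    DifferentiableAt.cpow (by fun_prop) (by fun_prop) hs1
  have d2 : DifferentiableAt ℂ (fun z => (1 - exp (-(a₂ * I)) * z) ^ (κ : ℂ)) z :=
    DifferentiableAt.cpow (by fun_prop) (by fun_prop) hs2
  have d3 := d2.fun_inv (cpow_ne_zero' (slitPlane_ne_zero hs2))
  have d0 : DifferentiableAt ℂ (fun z => 1 - exp (-(τ * I)) * z) z := by fun_prop
  exact d0.mul (d1.mul d3)

theorem Pf_ne_zero {κ τ a₁ a₂ : ℝ} {z : ℂ} (hz : ‖z‖ < 1) : Pf κ τ a₁ a₂ z ≠ 0 := by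
  have hs0 := slitPlane_ne_zero (one_sub_mem_slitPlane hz.le (ne_exp_of_norm_lt (a := τ) hz))
  have hs1 := slitPlane_ne_zero (one_sub_mem_slitPlane hz.le (ne_exp_of_norm_lt (a := a₁) hz))
  have hs2 := slitPlane_ne_zero (one_sub_mem_slitPlane hz.le (ne_exp_of_norm_lt (a := a₂) hz))
  exact mul_ne_zero hs0 (mul_ne_zero (cpow_ne_zero' hs1) (inv_ne_zero (cpow_ne_zero' hs2)))

theorem norm_cpow_real' {w : ℂ} {κ : ℝ} (hκ : 0 < κ) : ‖w ^ (κ : ℂ)‖ = ‖w‖ ^ κ := by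
  by_cases hw : w = 0
  · subst hw
    rw [Complex.zero_cpow (by exact_mod_cast hκ.ne'), norm_zero, Real.zero_rpow hκ.ne']
  · rw [Complex.norm_cpow_of_ne_zero hw]
    simp

theorem norm_Pf_le {κ τ a₁ a₂ : ℝ} (hκ0 : 0 < κ) (hκ1 : κ < 1 / 2) {z : ℂ} (hz : ‖z‖ < 1) :
    ‖Pf κ τ a₁ a₂ z‖ ≤ 4 * (1 - ‖z‖) ^ (-κ) := by
  have hs2 := slitPlane_ne_zero (one_sub_mem_slitPlane hz.le (ne_exp_of_norm_lt (a := a₂) hz))
  have h1z : 0 < 1 - ‖z‖ := by linarith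
  rw [Pf, norm_mul, norm_mul, norm_inv, norm_cpow_real' hκ0, norm_cpow_real' hκ0]
  have e1 : ‖1 - exp (-(τ * I)) * z‖ ≤ 2 := norm_one_sub_le hz.le
  have e2 : ‖1 - exp (-(a₁ * I)) * z‖ ^ κ ≤ 2 := by
    calc ‖1 - exp (-(a₁ * I)) * z‖ ^ κ ≤ 2 ^ κ := by
          apply Real.rpow_le_rpow (norm_nonneg _) (norm_one_sub_le hz.le) hκ0.le
      _ ≤ 2 ^ (1 : ℝ) := Real.rpow_le_rpow_of_exponent_le (by norm_num) (by linarith)
      _ = 2 := Real.rpow_one 2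
  have e3 : (‖1 - exp (-(a₂ * I)) * z‖ ^ κ)⁻¹ ≤ (1 - ‖z‖) ^ (-κ) := by
    rw [Real.rpow_neg h1z.le]
    apply inv_anti₀ (Real.rpow_pos_of_pos h1z _)
    exact Real.rpow_le_rpow h1z.le norm_one_sub_ge hκ0.le
  have e4 : 0 ≤ (‖1 - exp (-(a₂ * I)) * z‖ ^ κ)⁻¹ := by positivity
  have e5 : 0 ≤ ‖1 - exp (-(a₁ * I)) * z‖ ^ κ := by positivity
  calc ‖1 - exp (-(τ * I)) * z‖ *
        (‖1 - exp (-(a₁ * I)) * z‖ ^ κ * (‖1 - exp (-(a₂ * I)) * z‖ ^ κ)⁻¹)
      ≤ 2 * (2 * (1 - ‖z‖) ^ (-κ)) := by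
        apply mul_le_mul e1 _ (mul_nonneg e5 e4) (by norm_num)
        exact mul_le_mul e2 e3 e4 (by norm_num)
    _ = 4 * (1 - ‖z‖) ^ (-κ) := by ring

/-- Polar form of `1 - e^{it}`. -/
theorem one_sub_exp_pos {t : ℝ} :
    1 - exp (t * I) = ((2 * Real.sin (t / 2) : ℝ) : ℂ) * exp (((t - π) / 2 : ℝ) * I) := by
  have h1 : (((t - π) / 2 : ℝ) : ℂ) * I = ((t / 2 : ℝ) : ℂ) * I - (π / 2 : ℂ) * I := by
    push_cast; ring
  have h2 : exp ((π / 2 : ℂ) * I) = I := by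
    have := exp_pi_div_two_mul_I
    convert this using 2
  rw [h1, exp_sub, h2]
  have h3 : exp (t * I) = exp (((t / 2 : ℝ) : ℂ) * I) * exp (((t / 2 : ℝ) : ℂ) * I) := by
    rw [← exp_add]; congr 1; push_cast; ring
  have h4 : (((2 * Real.sin (t / 2) : ℝ)) : ℂ) =
      (exp (-(((t / 2 : ℝ) : ℂ)) * I) - exp (((t / 2 : ℝ) : ℂ) * I)) * I := by
    rw [ofReal_mul, ofReal_sin, Complex.sin]
    push_cast; ring
  have h5 : exp (-(((t / 2 : ℝ) : ℂ)) * I) * exp (((t / 2 : ℝ) : ℂ) * I) = 1 := by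
    rw [← exp_add]; simp
  have h5' : exp (((t / 2 : ℝ) : ℂ) * I) * exp (-((((t / 2 : ℝ) : ℂ)) * I)) = 1 := by
    rw [← exp_add]; simp
  rw [h4, h3]
  field_simp
  rw [mul_sub, h5']
  ring

theorem one_sub_exp_neg {t : ℝ} :
    1 - exp (t * I) = ((-(2 * Real.sin (t / 2)) : ℝ) : ℂ) * exp (((t + π) / 2 : ℝ) * I) := by
  rw [one_sub_exp_pos]
  have h1 : (((t + π) / 2 : ℝ) : ℂ) * I = (((t - π) / 2 : ℝ) : ℂ) * I + π * I := by
    push_cast; ring
  rw [h1, exp_add, exp_pi_mul_I]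
  push_cast; ring

theorem cpow_polar {r ψ κ : ℝ} (hr : 0 < r) (h1 : -π < ψ) (h2 : ψ ≤ π) :
    ((r : ℂ) * exp (ψ * I)) ^ (κ : ℂ) = ((r ^ κ : ℝ) : ℂ) * exp (((κ * ψ : ℝ) : ℂ) * I) := by
  have hne : (r : ℂ) * exp (ψ * I) ≠ 0 :=
    mul_ne_zero (by exact_mod_cast hr.ne') (exp_ne_zero _)
  rw [Complex.cpow_def_of_ne_zero hne, Complex.log_ofReal_mul hr (exp_ne_zero _),
    log_exp (by simpa using h1) (by simpa using h2), add_mul, exp_add,
    Complex.ofReal_cpow hr.le, Complex.cpow_def_of_ne_zero (by exact_mod_cast hr.ne'),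
    ← ofReal_log hr.le]
  congr 2
  push_cast; ring

end Pool.Agent.Helper45.Slit
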