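import Pool.Agent.Helper45.Slit.Ex1

/-!
# The example: boundary arguments of `P` and the function `q`
-/

namespace Pool.Agent.Helper45.Slit

open Set Metric Filter Topology MeasureTheory Complex

open scoped ENNReal Real

theorem one_add_exp (y : ℝ) :
    1 + exp (y * I) = ((2 * Real.cos (y / 2) : ℝ) : ℂ) * exp (((y / 2 : ℝ) : ℂ) * I) := by
  have h2 : exp (y * I) = exp (((y / 2 : ℝ) : ℂ) * I) * exp (((y / 2 : ℝ) : ℂ) * I) := by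
    rw [← exp_add]; congr 1; push_cast; ring
  have h3 : (1 : ℂ) = exp (-(((y / 2 : ℝ) : ℂ) * I)) * exp (((y / 2 : ℝ) : ℂ) * I) := by
    rw [← exp_add]; simp
  have h4 : (((2 * Real.cos (y / 2) : ℝ)) : ℂ) =
      exp (-(((y / 2 : ℝ) : ℂ) * I)) + exp (((y / 2 : ℝ) : ℂ) * I) := by
    rw [ofReal_mul, ofReal_cos, Complex.cos]
    push_cast; ring_nf
  rw [h4, h2]
  nth_rewrite 1 [h3]
  ring

/-- Polar form of `1 - e^{-ia} e^{iy}` with sign `ε`. -/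
theorem polar_of_sign {a y ε : ℝ} (h : (ε = 1 ∧ 0 < y - a ∧ y - a < 2 * π) ∨
    (ε = -1 ∧ -(2 * π) < y - a ∧ y - a < 0)) :
    ∃ r : ℝ, 0 < r ∧ 1 - exp (-(a * I)) * exp (y * I) = (r : ℂ) * exp (((y - a - ε * π) / 2 : ℝ) * I) ∧
      -π < (y - a - ε * π) / 2 ∧ (y - a - ε * π) / 2 ≤ π := by
  have hpi := Real.pi_pos
  have h0 : exp (-(a * I)) * exp (y * I) = exp (((y - a : ℝ) : ℂ) * I) := by
    rw [← exp_add]; congr 1; push_cast; ring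
  rcases h with ⟨rfl, h1, h2⟩ | ⟨rfl, h1, h2⟩
  · refine ⟨2 * Real.sin ((y - a) / 2), ?_, ?_, by linarith, by linarith⟩
    · have := Real.sin_pos_of_pos_of_lt_pi (x := (y - a) / 2) (by linarith) (by linarith)
      linarith
    · rw [h0, one_sub_exp_pos, one_mul]
  · refine ⟨-(2 * Real.sin ((y - a) / 2)), ?_, ?_, by linarith, by linarith⟩
    · have := Real.sin_neg_of_neg_of_neg_pi_lt (x := (y - a) / 2) (by linarith) (by linarith)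
      linarith
    · have h3 : (y - a - -1 * π) / 2 = (y - a + π) / 2 := by ring
      rw [h3, h0, one_sub_exp_neg]

/-- Polar form of `P(e^{iy})`. -/
theorem Pf_polar {κ τ a₁ a₂ y ετ ε₁ ε₂ : ℝ} (hτ : τ = κ * (a₂ - a₁))
    (hsτ : (ετ = 1 ∧ 0 < y - τ ∧ y - τ < 2 * π) ∨ (ετ = -1 ∧ -(2 * π) < y - τ ∧ y - τ < 0))
    (hs1 : (ε₁ = 1 ∧ 0 < y - a₁ ∧ y - a₁ < 2 * π) ∨ (ε₁ = -1 ∧ -(2 * π) < y - a₁ ∧ y - a₁ < 0))
    (hs2 : (ε₂ = 1 ∧ 0 < y - a₂ ∧ y - a₂ < 2 * π) ∨ (ε₂ = -1 ∧ -(2 * π) < y - a₂ ∧ y - a₂ < 0)) :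
    ∃ r : ℝ, 0 < r ∧ Pf κ τ a₁ a₂ (exp (y * I)) =
      (r : ℂ) * exp (((y / 2 - ετ * π / 2 - κ * π * (ε₁ - ε₂) / 2 : ℝ) : ℂ) * I) := by
  obtain ⟨rτ, hrτ, e0, -, -⟩ := polar_of_sign hsτ
  obtain ⟨r₁, hr₁, e1, b1, c1⟩ := polar_of_sign hs1
  obtain ⟨r₂, hr₂, e2, b2, c2⟩ := polar_of_sign hs2
  refine ⟨rτ * (r₁ ^ κ * (r₂ ^ κ)⁻¹), ?_, ?_⟩
  · have := Real.rpow_pos_of_pos hr₁ κ
    have := Real.rpow_pos_of_pos hr₂ κ
    positivity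
  · rw [Pf, e0, e1, e2, cpow_polar hr₁ b1 c1, cpow_polar hr₂ b2 c2, mul_inv, ← exp_neg]
    have h1 : ((y / 2 - ετ * π / 2 - κ * π * (ε₁ - ε₂) / 2 : ℝ) : ℂ) * I =
        (((y - τ - ετ * π) / 2 : ℝ) : ℂ) * I + (((κ * ((y - a₁ - ε₁ * π) / 2) : ℝ) : ℂ) * I +
          -(((κ * ((y - a₂ - ε₂ * π) / 2) : ℝ) : ℂ) * I)) := by
      rw [hτ]; push_cast; ring
    rw [h1, exp_add, exp_add]
    push_cast
    ring

/-- The function `i P(z)/(1+z)` on the boundary, which is the derivative of `log f(e^{iy})`. -/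
noncomputable def ip (κ τ a₁ a₂ : ℝ) (y : ℝ) : ℂ :=
  I * (Pf κ τ a₁ a₂ (exp (y * I)) / (1 + exp (y * I)))

section

variable {κ τ a₁ a₂ : ℝ} (H : Params κ τ a₁ a₂)

include H

theorem ip_polar {y ετ ε₁ ε₂ : ℝ} (hy : y ∈ Ioo (-π) π)
    (hsτ : (ετ = 1 ∧ 0 < y - τ ∧ y - τ < 2 * π) ∨ (ετ = -1 ∧ -(2 * π) < y - τ ∧ y - τ < 0))
    (hs1 : (ε₁ = 1 ∧ 0 < y - a₁ ∧ y - a₁ < 2 * π) ∨ (ε₁ = -1 ∧ -(2 * π) < y - a₁ ∧ y - a₁ < 0))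
    (hs2 : (ε₂ = 1 ∧ 0 < y - a₂ ∧ y - a₂ < 2 * π) ∨ (ε₂ = -1 ∧ -(2 * π) < y - a₂ ∧ y - a₂ < 0)) :
    0 < ‖ip κ τ a₁ a₂ y‖ ∧ ip κ τ a₁ a₂ y = (‖ip κ τ a₁ a₂ y‖ : ℂ) *
      exp (((π / 2 - ετ * π / 2 - κ * π * (ε₁ - ε₂) / 2 : ℝ) : ℂ) * I) := by
  obtain ⟨r, hr, e⟩ := Pf_polar H.hτ hsτ hs1 hs2
  have hc : 0 < 2 * Real.cos (y / 2) := by
    have := Real.cos_pos_of_mem_Ioo (x := y / 2) ⟨by linarith [hy.1], by linarith [hy.2]⟩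
    linarith
  have hkey : ip κ τ a₁ a₂ y = ((r / (2 * Real.cos (y / 2)) : ℝ) : ℂ) *
      exp (((π / 2 - ετ * π / 2 - κ * π * (ε₁ - ε₂) / 2 : ℝ) : ℂ) * I) := by
    rw [ip, e, one_add_exp]
    have hI : I = exp ((π / 2 : ℝ) * I) := by
      have := exp_pi_div_two_mul_I
      push_cast
      exact this.symm
    have h1 : ((π / 2 - ετ * π / 2 - κ * π * (ε₁ - ε₂) / 2 : ℝ) : ℂ) * I =
        ((π / 2 : ℝ) : ℂ) * I + ((((y / 2 - ετ * π / 2 - κ * π * (ε₁ - ε₂) / 2 : ℝ) : ℂ) * I) -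
        ((y / 2 : ℝ) : ℂ) * I) := by
      push_cast; ring
    have hc' : ((2 * Real.cos (y / 2) : ℝ) : ℂ) ≠ 0 := by exact_mod_cast hc.ne'
    rw [h1, exp_add, exp_sub, ← hI, ofReal_div r]
    field_simp
  have hpos : 0 < r / (2 * Real.cos (y / 2)) := div_pos hr hc
  have hnorm : ‖ip κ τ a₁ a₂ y‖ = r / (2 * Real.cos (y / 2)) := by
    rw [hkey, norm_mul, norm_exp_ofReal_mul_I, mul_one, norm_real, Real.norm_eq_abs,
      abs_of_pos hpos]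
  rw [hnorm]
  exact ⟨hpos, hkey⟩

theorem ip_arc1 {y : ℝ} (h1 : -π < y) (h2 : y < a₁) :
    0 < ‖ip κ τ a₁ a₂ y‖ ∧ ip κ τ a₁ a₂ y = (-1 : ℂ) * (‖ip κ τ a₁ a₂ y‖ : ℂ) := by
  have := H.h1; have := H.h2; have := H.h3; have := H.h4; have hpi := Real.pi_pos
  obtain ⟨p1, p2⟩ := ip_polar H (y := y) (ετ := -1) (ε₁ := -1) (ε₂ := -1) ⟨h1, by linarith⟩
    (Or.inr ⟨rfl, by linarith, by linarith⟩) (Or.inr ⟨rfl, by linarith, by linarith⟩)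
    (Or.inr ⟨rfl, by linarith, by linarith⟩)
  refine ⟨p1, ?_⟩
  rw [p2]
  have h3 : (π / 2 - -1 * π / 2 - κ * π * (-1 - -1) / 2 : ℝ) = π := by ring
  rw [h3, exp_pi_mul_I]
  rw [norm_mul, norm_real, norm_norm, norm_neg, norm_one, mul_one]
  ring

theorem ip_arc2 {y : ℝ} (h1 : a₁ < y) (h2 : y < τ) :
    0 < ‖ip κ τ a₁ a₂ y‖ ∧
      ip κ τ a₁ a₂ y = -exp (-((κ * π : ℝ) * I)) * (‖ip κ τ a₁ a₂ y‖ : ℂ) := by
  have := H.h1; have := H.h2; have := H.h3; have := H.h4; have hpi := Real.pi_pos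
  obtain ⟨p1, p2⟩ := ip_polar H (y := y) (ετ := -1) (ε₁ := 1) (ε₂ := -1)
    ⟨by linarith, by linarith⟩
    (Or.inr ⟨rfl, by linarith, by linarith⟩) (Or.inl ⟨rfl, by linarith, by linarith⟩)
    (Or.inr ⟨rfl, by linarith, by linarith⟩)
  refine ⟨p1, ?_⟩
  have h3 : (((π / 2 - -1 * π / 2 - κ * π * (1 - -1) / 2 : ℝ) : ℂ)) * I =
      π * I + -((κ * π : ℝ) * I) := by push_cast; ring
  rw [h3, exp_add, exp_pi_mul_I] at p2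
  conv_lhs => rw [p2]
  ring

theorem ip_arc3 {y : ℝ} (h1 : τ < y) (h2 : y < a₂) :
    0 < ‖ip κ τ a₁ a₂ y‖ ∧
      ip κ τ a₁ a₂ y = exp (-((κ * π : ℝ) * I)) * (‖ip κ τ a₁ a₂ y‖ : ℂ) := by
  have := H.h1; have := H.h2; have := H.h3; have := H.h4; have hpi := Real.pi_pos
  obtain ⟨p1, p2⟩ := ip_polar H (y := y) (ετ := 1) (ε₁ := 1) (ε₂ := -1)
    ⟨by linarith, by linarith⟩
    (Or.inl ⟨rfl, by linarith, by linarith⟩) (Or.inl ⟨rfl, by linarith, by linarith⟩)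
    (Or.inr ⟨rfl, by linarith, by linarith⟩)
  refine ⟨p1, ?_⟩
  have h3 : (((π / 2 - 1 * π / 2 - κ * π * (1 - -1) / 2 : ℝ) : ℂ)) * I =
      -((κ * π : ℝ) * I) := by push_cast; ring
  rw [h3] at p2
  conv_lhs => rw [p2]
  ring

theorem ip_arc4 {y : ℝ} (h1 : a₂ < y) (h2 : y < π) :
    0 < ‖ip κ τ a₁ a₂ y‖ ∧ ip κ τ a₁ a₂ y = (1 : ℂ) * (‖ip κ τ a₁ a₂ y‖ : ℂ) := by
  have := H.h1; have := H.h2; have := H.h3; have := H.h4; have hpi := Real.pi_pos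
  obtain ⟨p1, p2⟩ := ip_polar H (y := y) (ετ := 1) (ε₁ := 1) (ε₂ := 1)
    ⟨by linarith, by linarith⟩
    (Or.inl ⟨rfl, by linarith, by linarith⟩) (Or.inl ⟨rfl, by linarith, by linarith⟩)
    (Or.inl ⟨rfl, by linarith, by linarith⟩)
  refine ⟨p1, ?_⟩
  have h3 : (((π / 2 - 1 * π / 2 - κ * π * (1 - 1) / 2 : ℝ) : ℂ)) * I = 0 := by
    push_cast; ring
  rw [h3, exp_zero] at p2
  conv_lhs => rw [p2]
  ring

theorem Pf_neg_one : Pf κ τ a₁ a₂ (-1) = 2 := by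
  have := H.h1; have := H.h2; have := H.h3; have := H.h4; have hpi := Real.pi_pos
  have hτ0 := H.hτ0
  have key : ∀ a : ℝ, 1 - exp (-(a * I)) * (-1) =
      ((2 * Real.cos (a / 2) : ℝ) : ℂ) * exp (((-(a / 2) : ℝ) : ℂ) * I) := by
    intro a
    have h1 : exp (-(a * I)) = exp (((-a : ℝ) : ℂ) * I) := by push_cast; ring_nf
    have h2 := one_add_exp (-a)
    rw [mul_neg, mul_one, sub_neg_eq_add, h1, h2, neg_div, Real.cos_neg]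
  have hcos : ∀ a : ℝ, -π < a → a < π → 0 < 2 * Real.cos (a / 2) := by
    intro a h1 h2
    have := Real.cos_pos_of_mem_Ioo (x := a / 2) ⟨by linarith, by linarith⟩
    linarith
  have hc1 := hcos a₁ H.h1 (by linarith)
  have hc2 := hcos a₂ (by linarith) H.h4
  have hcτ := hcos τ (by linarith) (by linarith)
  rw [Pf, key, key, key, cpow_polar hc1 (by linarith) (by linarith),
    cpow_polar hc2 (by linarith) (by linarith), mul_inv, ← exp_neg]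
  have h5 : ((2 * Real.cos (τ / 2) : ℝ) : ℂ) * exp (((-(τ / 2) : ℝ) : ℂ) * I) *
      ((((2 * Real.cos (a₁ / 2)) ^ κ : ℝ) : ℂ) * exp (((κ * -(a₁ / 2) : ℝ) : ℂ) * I) *
      (((((2 * Real.cos (a₂ / 2)) ^ κ : ℝ) : ℂ))⁻¹ * exp (-(((κ * -(a₂ / 2) : ℝ) : ℂ) * I)))) =
      ((2 * Real.cos (τ / 2) * ((2 * Real.cos (a₁ / 2)) ^ κ * ((2 * Real.cos (a₂ / 2)) ^ κ)⁻¹) : ℝ)
        : ℂ) * (exp (((-(τ / 2) : ℝ) : ℂ) * I) * (exp (((κ * -(a₁ / 2) : ℝ) : ℂ) * I) *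
        exp (-(((κ * -(a₂ / 2) : ℝ) : ℂ) * I)))) := by
    push_cast; ring
  rw [h5, ← exp_add, ← exp_add]
  have h6 : ((-(τ / 2) : ℝ) : ℂ) * I + (((κ * -(a₁ / 2) : ℝ) : ℂ) * I +
      -(((κ * -(a₂ / 2) : ℝ) : ℂ) * I)) = 0 := by
    rw [H.hτ]; push_cast; ring
  rw [h6, exp_zero, mul_one]
  have h7 : (2 * Real.cos (a₁ / 2)) ^ κ * ((2 * Real.cos (a₂ / 2)) ^ κ)⁻¹ =
      (Real.cos (a₁ / 2) / Real.cos (a₂ / 2)) ^ κ := by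
    rw [← Real.inv_rpow hc2.le, ← Real.mul_rpow hc1.le (inv_nonneg.2 hc2.le)]
    congr 1
    have h8 : Real.cos (a₂ / 2) ≠ 0 := by
      intro h; rw [h] at hc2; linarith
    field_simp
  rw [h7, mul_assoc, H.hmod]
  norm_num

omit H in
theorem neg_one_ne {a : ℝ} (h1 : -π < a) (h2 : a < π) : (-1 : ℂ) ≠ exp (a * I) := by
  intro h
  have h3 := congrArg arg h
  rw [arg_neg_one, arg_exp_mul_I, (toIocMod_eq_self Real.two_pi_pos).2 ⟨h1, by linarith⟩] at h3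
  linarith

end

end Pool.Agent.Helper45.Slit
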