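import Pool.Agent.Helper45.Slit.Ex2

/-!
# The example: the map `f` and its continuity up to the boundary
-/

namespace Pool.Agent.Helper45.Slit

open Set Metric Filter Topology MeasureTheory Complex

open scoped ENNReal Real

/-- `N(z) = P(z) - 1 + z`, which vanishes at `0` and at `-1`. -/
noncomputable def Nf (κ τ a₁ a₂ : ℝ) (z : ℂ) : ℂ := Pf κ τ a₁ a₂ z - 1 + z

/-- `q(z) = N(z) / (z (1 + z))`. -/
noncomputable def qf (κ τ a₁ a₂ : ℝ) (z : ℂ) : ℂ := dslope (Nf κ τ a₁ a₂) 0 z / (1 + z)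

/-- `B(z) = ∫_0^1 z q(tz) dt`. -/
noncomputable def Bf (κ τ a₁ a₂ : ℝ) (z : ℂ) : ℂ :=
  ∫ t in (0 : ℝ)..1, z * qf κ τ a₁ a₂ (t * z)

/-- The map `f(z) = z (1 + z)^{-2} exp (B(z))`. -/
noncomputable def fe (κ τ a₁ a₂ : ℝ) (z : ℂ) : ℂ := z / (1 + z) ^ 2 * exp (Bf κ τ a₁ a₂ z)

section

variable {κ τ a₁ a₂ : ℝ}

theorem Nf_zero : Nf κ τ a₁ a₂ 0 = 0 := by simp [Nf, Pf_zero]

theorem one_add_ne_zero {z : ℂ} (h : z ≠ -1) : 1 + z ≠ 0 := by
  intro h'
  exact h (by linear_combination h')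

theorem one_add_ne_zero' {z : ℂ} (hz : ‖z‖ < 1) : 1 + z ≠ 0 := by
  apply one_add_ne_zero
  intro h
  rw [h, norm_neg, norm_one] at hz
  exact lt_irrefl _ hz

theorem differentiableOn_Nf : DifferentiableOn ℂ (Nf κ τ a₁ a₂) (ball 0 1) := by
  intro z hz
  rw [mem_ball_zero_iff] at hz
  have h1 := differentiableAt_Pf (κ := κ) (τ := τ) hz.le (ne_exp_of_norm_lt (a := a₁) hz)
    (ne_exp_of_norm_lt (a := a₂) hz)
  exact ((h1.sub_const 1).add differentiableAt_id).differentiableWithinAt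

theorem differentiableOn_qf : DifferentiableOn ℂ (qf κ τ a₁ a₂) (ball 0 1) := by
  have h1 : DifferentiableOn ℂ (dslope (Nf κ τ a₁ a₂) 0) (ball 0 1) :=
    (Complex.differentiableOn_dslope (isOpen_ball.mem_nhds (mem_ball_self one_pos))).2
      differentiableOn_Nf
  refine h1.div (by fun_prop) fun z hz => ?_
  exact one_add_ne_zero' (mem_ball_zero_iff.1 hz)

theorem qf_eq {z : ℂ} (hz : z ≠ 0) : qf κ τ a₁ a₂ z = Nf κ τ a₁ a₂ z / (z * (1 + z)) := by
  rw [qf, dslope_of_ne _ hz, slope_def_field, Nf_zero, sub_zero, sub_zero, div_div]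

theorem z_mul_dslope {z : ℂ} : z * dslope (Nf κ τ a₁ a₂) 0 z = Nf κ τ a₁ a₂ z := by
  have := sub_smul_dslope (Nf κ τ a₁ a₂) 0 z
  simpa [Nf_zero] using this

theorem z_mul_qf {z : ℂ} : z * qf κ τ a₁ a₂ z = Nf κ τ a₁ a₂ z / (1 + z) := by
  rw [qf, ← z_mul_dslope]; ring

variable (H : Params κ τ a₁ a₂)

include H

theorem Nf_neg_one : Nf κ τ a₁ a₂ (-1) = 0 := by
  rw [Nf, Pf_neg_one H]; ring

theorem qf_bound : ∃ C > 0, ∀ z ∈ ball (0 : ℂ) 1,
    ‖qf κ τ a₁ a₂ z‖ ≤ C * (1 - ‖z‖) ^ (-κ) := by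
  have hpi := Real.pi_pos
  have hh1 := H.h1; have hh2 := H.h2; have hh3 := H.h3; have hh4 := H.h4
  -- near `-1`
  have hd : DifferentiableAt ℂ (Nf κ τ a₁ a₂) (-1) := by
    have h1 := differentiableAt_Pf (κ := κ) (τ := τ) (a₁ := a₁) (a₂ := a₂) (z := -1) (by simp)
      (neg_one_ne hh1 (by linarith)) (neg_one_ne (by linarith) hh4)
    exact (h1.sub_const 1).add differentiableAt_id
  obtain ⟨C₁, hC₁⟩ := hd.isBigO_sub.bound
  rw [Nf_neg_one H] at hC₁
  obtain ⟨r, hr, hb⟩ := Metric.eventually_nhds_iff_ball.1 hC₁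
  -- on the half disc
  have hdsl : ContinuousOn (qf κ τ a₁ a₂) (closedBall 0 (1 / 2)) :=
    differentiableOn_qf.continuousOn.mono (closedBall_subset_ball (by norm_num))
  obtain ⟨C₂, hC₂⟩ := (isCompact_closedBall (0 : ℂ) (1 / 2)).exists_bound_of_continuousOn hdsl
  have hC₂0 : 0 ≤ C₂ := (norm_nonneg _).trans (hC₂ 0 (mem_closedBall_self (by norm_num)))
  set C := |C₂| + 2 * |C₁| + 12 / r + 1 with hC
  have hC0 : 0 < C := by positivity
  refine ⟨C, hC0, fun z hz => ?_⟩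
  rw [mem_ball_zero_iff] at hz
  have h1z : 0 < 1 - ‖z‖ := by linarith
  have hpow : 1 ≤ (1 - ‖z‖) ^ (-κ) := by
    rw [Real.rpow_neg h1z.le, one_le_inv₀ (Real.rpow_pos_of_pos h1z _)]
    exact Real.rpow_le_one h1z.le (by linarith [norm_nonneg z]) H.κ0.le
  have hge : ∀ D : ℝ, D ≤ C → ‖qf κ τ a₁ a₂ z‖ ≤ D → ‖qf κ τ a₁ a₂ z‖ ≤ C * (1 - ‖z‖) ^ (-κ) := by
    intro D hD hq
    calc ‖qf κ τ a₁ a₂ z‖ ≤ C * 1 := by linarith
      _ ≤ C * (1 - ‖z‖) ^ (-κ) := by gcongr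
  have h12r : 0 < 12 / r := by positivity
  by_cases hhalf : ‖z‖ ≤ 1 / 2
  · apply hge |C₂| (by rw [hC]; linarith [abs_nonneg C₁])
    exact (hC₂ z (mem_closedBall_zero_iff.2 hhalf)).trans (le_abs_self _)
  · push Not at hhalf
    have hz0 : z ≠ 0 := by
      intro h; rw [h, norm_zero] at hhalf; linarith
    have hz1 := one_add_ne_zero' hz
    have hz1n : 0 < ‖1 + z‖ := norm_pos_iff.2 hz1
    rw [qf_eq hz0, norm_div, norm_mul]
    rw [qf_eq hz0, norm_div, norm_mul] at hge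
    by_cases hnear : z ∈ ball (-1 : ℂ) r
    · apply hge (2 * |C₁|) (by rw [hC]; linarith [abs_nonneg C₂])
      have h2 := hb z hnear
      rw [sub_zero, sub_neg_eq_add, add_comm z 1] at h2
      rw [div_le_iff₀ (by positivity)]
      calc ‖Nf κ τ a₁ a₂ z‖ ≤ C₁ * ‖1 + z‖ := h2
        _ ≤ |C₁| * ‖1 + z‖ := by gcongr; exact le_abs_self _
        _ ≤ 2 * |C₁| * (‖z‖ * ‖1 + z‖) := by
          have : 0 ≤ |C₁| * ‖1 + z‖ := by positivity
          nlinarith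
    · rw [mem_ball, dist_eq_norm, sub_neg_eq_add, add_comm z 1] at hnear
      push Not at hnear
      have hN : ‖Nf κ τ a₁ a₂ z‖ ≤ 6 * (1 - ‖z‖) ^ (-κ) := by
        calc ‖Nf κ τ a₁ a₂ z‖ ≤ ‖Pf κ τ a₁ a₂ z - 1‖ + ‖z‖ := norm_add_le _ _
          _ ≤ ‖Pf κ τ a₁ a₂ z‖ + ‖(1 : ℂ)‖ + ‖z‖ := by gcongr; exact norm_sub_le _ _
          _ ≤ 4 * (1 - ‖z‖) ^ (-κ) + 1 + 1 := by
            rw [norm_one]
            gcongr
            exact norm_Pf_le H.κ0 H.κ1 hz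
          _ ≤ 6 * (1 - ‖z‖) ^ (-κ) := by linarith
      rw [div_le_iff₀ (by positivity)]
      calc ‖Nf κ τ a₁ a₂ z‖ ≤ 6 * (1 - ‖z‖) ^ (-κ) := hN
        _ = 12 / r * (1 - ‖z‖) ^ (-κ) * (1 / 2 * r) := by field_simp; ring
        _ ≤ C * (1 - ‖z‖) ^ (-κ) * (‖z‖ * ‖1 + z‖) := by
          have hCr : 12 / r ≤ C := by rw [hC]; linarith [abs_nonneg C₁, abs_nonneg C₂]
          gcongr

omit H in
/-- The value of `B` as a primitive of `q`. -/
theorem hasDerivAt_Bf {z : ℂ} (hz : z ∈ ball (0 : ℂ) 1) :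
    HasDerivAt (Bf κ τ a₁ a₂) (qf κ τ a₁ a₂ z) z := by
  obtain ⟨B, hB⟩ := (differentiableOn_qf (κ := κ) (τ := τ) (a₁ := a₁) (a₂ := a₂)).isExactOn_ball
  have heq : ∀ z ∈ ball (0 : ℂ) 1, Bf κ τ a₁ a₂ z = B z - B 0 := by
    intro z hz
    rw [mem_ball_zero_iff] at hz
    have hmem : ∀ t ∈ uIcc (0 : ℝ) 1, (t * z : ℂ) ∈ ball (0 : ℂ) 1 := by
      intro t ht
      rw [uIcc_of_le zero_le_one] at ht
      rw [mem_ball_zero_iff, norm_mul, norm_real, Real.norm_eq_abs, abs_of_nonneg ht.1]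
      calc t * ‖z‖ ≤ 1 * ‖z‖ := by gcongr; exact ht.2
        _ < 1 := by rwa [one_mul]
    have h1 : ∀ t ∈ uIcc (0 : ℝ) 1, HasDerivAt (fun t : ℝ => B (t * z))
        (z * qf κ τ a₁ a₂ (t * z)) t := by
      intro t ht
      have h2 : HasDerivAt (fun t : ℝ => (t * z : ℂ)) z t := by
        simpa using (Complex.ofRealCLM.hasDerivAt (x := t)).mul_const z
      have h3 := (hB _ (hmem t ht)).comp t h2
      rwa [mul_comm] at h3
    have hcont : ContinuousOn (fun t : ℝ => z * qf κ τ a₁ a₂ (t * z)) (uIcc 0 1) := by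
      refine continuousOn_const.mul ?_
      exact differentiableOn_qf.continuousOn.comp (by fun_prop) hmem
    have h4 := intervalIntegral.integral_eq_sub_of_hasDerivAt h1 hcont.intervalIntegrable
    rw [Bf, h4]
    simp
  have h5 : HasDerivAt (fun z => B z - B 0) (qf κ τ a₁ a₂ z) z := (hB z hz).sub_const _
  refine h5.congr_of_eventuallyEq ?_
  filter_upwards [isOpen_ball.mem_nhds hz] with w hw using heq w hw

omit H in
theorem Bf_zero : Bf κ τ a₁ a₂ 0 = 0 := by simp [Bf]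

theorem continuousOn_Bf : ContinuousOn (Bf κ τ a₁ a₂) (closedBall 0 1) := by
  obtain ⟨C, hC, hb⟩ := qf_bound H
  intro z₀ _
  apply intervalIntegral.continuousWithinAt_of_dominated_interval
    (bound := fun t => C * (1 - t) ^ (-κ))
  · filter_upwards [self_mem_nhdsWithin] with z hz
    rw [mem_closedBall_zero_iff] at hz
    rw [uIoc_of_le zero_le_one, ← restrict_Ioo_eq_restrict_Ioc]
    apply ContinuousOn.aestronglyMeasurable _ measurableSet_Ioo
    refine continuousOn_const.mul ?_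
    refine differentiableOn_qf.continuousOn.comp (by fun_prop) ?_
    intro t ht
    rw [mem_ball_zero_iff, norm_mul, norm_real, Real.norm_eq_abs, abs_of_pos ht.1]
    calc t * ‖z‖ ≤ t * 1 := by gcongr; exact ht.1.le
      _ < 1 := by rw [mul_one]; exact ht.2
  · filter_upwards [self_mem_nhdsWithin] with z hz
    rw [mem_closedBall_zero_iff] at hz
    have : ∀ᵐ t : ℝ, t ≠ 1 := by
      simp [ae_iff]
    filter_upwards [this] with t ht1 ht
    rw [uIoc_of_le zero_le_one] at ht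
    have ht2 : t < 1 := lt_of_le_of_ne ht.2 ht1
    have hn : ‖(t * z : ℂ)‖ ≤ t := by
      rw [norm_mul, norm_real, Real.norm_eq_abs, abs_of_pos ht.1]
      calc t * ‖z‖ ≤ t * 1 := by gcongr; exact ht.1.le
        _ = t := mul_one t
    have hq := hb (t * z) (mem_ball_zero_iff.2 (hn.trans_lt ht2))
    rw [norm_mul]
    calc ‖z‖ * ‖qf κ τ a₁ a₂ (t * z)‖ ≤ 1 * (C * (1 - ‖(t * z : ℂ)‖) ^ (-κ)) := by
          gcongr
      _ ≤ C * (1 - t) ^ (-κ) := by
          rw [one_mul]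
          have h1 : 0 < 1 - t := by linarith
          have h2 : 1 - t ≤ 1 - ‖(t * z : ℂ)‖ := by linarith
          have h3 := Real.rpow_le_rpow_of_nonpos h1 h2 (by linarith [H.κ0] : -κ ≤ 0)
          gcongr
  · have h1 : IntervalIntegrable (fun x : ℝ => x ^ (-κ)) volume 0 1 :=
      intervalIntegral.intervalIntegrable_rpow' (by linarith [H.κ1])
    have h2 := (h1.comp_sub_left 1).symm
    rw [sub_zero, sub_self] at h2
    exact h2.const_mul C
  · have : ∀ᵐ t : ℝ, t ≠ 1 := by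
      simp [ae_iff]
    filter_upwards [this] with t ht1 ht
    rw [uIoc_of_le zero_le_one] at ht
    have ht2 : t < 1 := lt_of_le_of_ne ht.2 ht1
    have hcont : ContinuousOn (fun z : ℂ => z * qf κ τ a₁ a₂ (t * z)) (closedBall 0 1) := by
      refine continuousOn_id.mul ?_
      refine differentiableOn_qf.continuousOn.comp (by fun_prop) ?_
      intro z hz
      rw [mem_closedBall_zero_iff] at hz
      rw [mem_ball_zero_iff, norm_mul, norm_real, Real.norm_eq_abs, abs_of_pos ht.1]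
      calc t * ‖z‖ ≤ t * 1 := by gcongr; exact ht.1.le
        _ < 1 := by rw [mul_one]; exact ht2
    apply hcont
    assumption

omit H in
/-- The derivative of `f`. -/
theorem hasDerivAt_fe {z : ℂ} (hz : z ∈ ball (0 : ℂ) 1) :
    HasDerivAt (fe κ τ a₁ a₂) (exp (Bf κ τ a₁ a₂ z) * Pf κ τ a₁ a₂ z / (1 + z) ^ 3) z := by
  have hz' := mem_ball_zero_iff.1 hz
  have h1 := one_add_ne_zero' hz'
  have h2 : HasDerivAt (fun z : ℂ => z / (1 + z) ^ 2)
      ((1 * (1 + z) ^ 2 - z * (2 * (1 + z) ^ (2 - 1) * 1)) / ((1 + z) ^ 2) ^ 2) z := by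
    have h3 : HasDerivAt (fun z : ℂ => 1 + z) 1 z := by
      simpa using (hasDerivAt_id z).const_add (1 : ℂ)
    have h4 := h3.fun_pow 2
    have h5 := (hasDerivAt_id z).fun_div h4 (pow_ne_zero 2 h1)
    simpa using h5
  have h3 := h2.fun_mul (hasDerivAt_Bf (κ := κ) (τ := τ) (a₁ := a₁) (a₂ := a₂) hz).cexp
  refine h3.congr_deriv ?_
  have h4 : z * qf κ τ a₁ a₂ z = Nf κ τ a₁ a₂ z / (1 + z) := z_mul_qf
  have h5 : z / (1 + z) ^ 2 * (exp (Bf κ τ a₁ a₂ z) * qf κ τ a₁ a₂ z) =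
      exp (Bf κ τ a₁ a₂ z) * (z * qf κ τ a₁ a₂ z) / (1 + z) ^ 2 := by ring
  rw [h5, h4, Nf]
  field_simp
  ring

end

end Pool.Agent.Helper45.Slit
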