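import Pool.Agent.Helper45.Slit.Ex3

/-!
# The example: boundary values of `f`
-/

namespace Pool.Agent.Helper45.Slit

open Set Metric Filter Topology MeasureTheory Complex

open scoped ENNReal Real

section

variable {κ τ a₁ a₂ : ℝ}

theorem fe_zero : fe κ τ a₁ a₂ 0 = 0 := by simp [fe]

theorem fe_eq_zero_iff {z : ℂ} (hz : z ∈ ball (0 : ℂ) 1) : fe κ τ a₁ a₂ z = 0 ↔ z = 0 := by
  have h1 := one_add_ne_zero' (mem_ball_zero_iff.1 hz)
  rw [fe, mul_eq_zero, div_eq_zero_iff]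
  constructor
  · rintro ((h | h) | h)
    · exact h
    · exact absurd h (pow_ne_zero 2 h1)
    · exact absurd h (exp_ne_zero _)
  · intro h
    exact Or.inl (Or.inl h)

theorem deriv_fe_zero : deriv (fe κ τ a₁ a₂) 0 = 1 := by
  rw [(hasDerivAt_fe (mem_ball_self one_pos)).deriv, Bf_zero, Pf_zero]
  simp

theorem deriv_fe_ne_zero {z : ℂ} (hz : z ∈ ball (0 : ℂ) 1) : deriv (fe κ τ a₁ a₂) z ≠ 0 := by
  rw [(hasDerivAt_fe hz).deriv]
  have h1 := one_add_ne_zero' (mem_ball_zero_iff.1 hz)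
  exact div_ne_zero (mul_ne_zero (exp_ne_zero _) (Pf_ne_zero (mem_ball_zero_iff.1 hz)))
    (pow_ne_zero 3 h1)

theorem differentiableOn_fe : DifferentiableOn ℂ (fe κ τ a₁ a₂) (ball 0 1) := fun _ hz =>
  (hasDerivAt_fe hz).differentiableAt.differentiableWithinAt

variable (H : Params κ τ a₁ a₂)

include H

theorem continuousOn_fe : ContinuousOn (fe κ τ a₁ a₂) (closedBall 0 1 \ {-1}) := by
  refine ContinuousOn.mul ?_ ((continuousOn_Bf H).mono sdiff_subset).cexp
  refine ContinuousOn.div continuousOn_id (by fun_prop) ?_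
  intro z hz
  exact pow_ne_zero 2 (one_add_ne_zero hz.2)

theorem tendsto_fe_neg_one :
    Tendsto (fe κ τ a₁ a₂) (𝓝[closedBall 0 1 \ {-1}] (-1)) (cocompact ℂ) := by
  rw [← Metric.cobounded_eq_cocompact, ← tendsto_norm_atTop_iff_cobounded]
  obtain ⟨M, hM⟩ := (isCompact_closedBall (0 : ℂ) 1).exists_bound_of_continuousOn
    (continuousOn_Bf H)
  have h1 : Tendsto (fun z : ℂ => ‖z‖ * (‖1 + z‖ ^ 2)⁻¹) (𝓝[closedBall 0 1 \ {-1}] (-1)) atTop := by
    apply Tendsto.pos_mul_atTop (C := 1) one_pos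
    · have : ContinuousAt (fun z : ℂ => ‖z‖) (-1) := by fun_prop
      have h2 := this.tendsto
      simp only [norm_neg, norm_one] at h2
      exact h2.mono_left nhdsWithin_le_nhds
    · apply tendsto_inv_nhdsGT_zero.comp
      apply tendsto_nhdsWithin_of_tendsto_nhds_of_eventually_within
      · have : ContinuousAt (fun z : ℂ => ‖1 + z‖ ^ 2) (-1) := by fun_prop
        have h2 := this.tendsto
        simp only [add_neg_cancel, norm_zero, ne_eq, OfNat.ofNat_ne_zero, not_false_eq_true,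
          zero_pow] at h2
        exact h2.mono_left nhdsWithin_le_nhds
      · filter_upwards [self_mem_nhdsWithin] with z hz
        have := norm_pos_iff.2 (one_add_ne_zero (show z ≠ -1 from hz.2))
        show 0 < ‖1 + z‖ ^ 2
        positivity
  have h2 := h1.atTop_mul_const (Real.exp_pos (-M))
  refine tendsto_atTop_mono' _ ?_ h2
  filter_upwards [self_mem_nhdsWithin] with z hz
  show ‖z‖ * (‖1 + z‖ ^ 2)⁻¹ * Real.exp (-M) ≤ ‖fe κ τ a₁ a₂ z‖
  rw [fe, norm_mul, norm_div, norm_pow, norm_exp, div_eq_mul_inv]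
  gcongr
  have h3 := hM z hz.1
  have h4 := (abs_le.1 (abs_re_le_norm (Bf κ τ a₁ a₂ z))).1
  linarith

/-- Continuity of `P` on the closed disc without `e^{ia₂}`. -/
theorem continuousAt_Pf {z : ℂ} (hz : ‖z‖ ≤ 1) (h2 : z ≠ exp (a₂ * I)) :
    ContinuousAt (Pf κ τ a₁ a₂) z := by
  have hs2 := one_sub_mem_slitPlane hz h2
  have hre1 : 0 ≤ (1 - exp (-(a₁ * I)) * z).re := by
    by_cases h : z = exp (a₁ * I)
    · rw [h, ← exp_add]; simp
    · exact (re_one_sub_pos hz h).le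
  have c1 : ContinuousAt (fun z => (1 - exp (-(a₁ * I)) * z) ^ (κ : ℂ)) z := by
    have h3 : ContinuousAt (fun w : ℂ => w ^ (κ : ℂ)) (1 - exp (-(a₁ * I)) * z) :=
      continuousAt_cpow_const_of_re_pos (Or.inl hre1) (by simpa using H.κ0)
    exact ContinuousAt.comp (f := fun z => 1 - exp (-(a₁ * I)) * z) h3 (by fun_prop)
  have c2 : ContinuousAt (fun z => (1 - exp (-(a₂ * I)) * z) ^ (κ : ℂ)) z := by
    have h3 : ContinuousAt (fun w : ℂ => w ^ (κ : ℂ)) (1 - exp (-(a₂ * I)) * z) :=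
      continuousAt_cpow_const_of_re_pos (Or.inl (re_one_sub_pos hz h2).le) (by simpa using H.κ0)
    exact ContinuousAt.comp (f := fun z => 1 - exp (-(a₂ * I)) * z) h3 (by fun_prop)
  have c3 := c2.inv₀ (cpow_ne_zero' (slitPlane_ne_zero hs2))
  have c0 : ContinuousAt (fun z => 1 - exp (-(τ * I)) * z) z := by fun_prop
  exact c0.mul (c1.mul c3)

end

/-- The logarithm of `f(e^{iy})`. -/
noncomputable def Phi (κ τ a₁ a₂ : ℝ) (y : ℝ) : ℂ :=
  Bf κ τ a₁ a₂ (exp (y * I)) - 2 * Real.log (2 * Real.cos (y / 2))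

section

variable {κ τ a₁ a₂ : ℝ}

theorem cos_half_pos {y : ℝ} (hy : y ∈ Ioo (-π) π) : 0 < 2 * Real.cos (y / 2) := by
  have := Real.cos_pos_of_mem_Ioo (x := y / 2) ⟨by linarith [hy.1], by linarith [hy.2]⟩
  linarith

theorem fe_exp {y : ℝ} (hy : y ∈ Ioo (-π) π) :
    fe κ τ a₁ a₂ (exp (y * I)) = exp (Phi κ τ a₁ a₂ y) := by
  have hc := cos_half_pos hy
  have hc' : ((2 * Real.cos (y / 2) : ℝ) : ℂ) ≠ 0 := by exact_mod_cast hc.ne'
  have h1 : exp (2 * (Real.log (2 * Real.cos (y / 2)) : ℂ)) =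
      ((2 * Real.cos (y / 2) : ℝ) : ℂ) ^ 2 := by
    have : (2 : ℂ) * (Real.log (2 * Real.cos (y / 2)) : ℂ) =
      ((2 : ℕ) : ℂ) * (Real.log (2 * Real.cos (y / 2)) : ℂ) := by norm_num
    rw [this, exp_nat_mul, ← ofReal_exp, Real.exp_log hc]
  rw [fe, Phi, exp_sub, h1, one_add_exp, mul_pow, ← exp_nat_mul]
  have h2 : ((2 : ℕ) : ℂ) * (((y / 2 : ℝ) : ℂ) * I) = y * I := by push_cast; ring
  rw [h2]
  have h3 := exp_ne_zero (y * I)
  field_simp

theorem Phi_im {y : ℝ} : (Phi κ τ a₁ a₂ y).im = (Bf κ τ a₁ a₂ (exp (y * I))).im := by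
  rw [Phi, sub_im]
  have : (2 * (Real.log (2 * Real.cos (y / 2)) : ℂ)).im = 0 := by
    rw [show (2 : ℂ) * (Real.log (2 * Real.cos (y / 2)) : ℂ) =
      ((2 * Real.log (2 * Real.cos (y / 2)) : ℝ) : ℂ) by push_cast; ring, ofReal_im]
  rw [this, sub_zero]

theorem Phi_re {y : ℝ} : (Phi κ τ a₁ a₂ y).re =
    (Bf κ τ a₁ a₂ (exp (y * I))).re - 2 * Real.log (2 * Real.cos (y / 2)) := by
  rw [Phi, sub_re]
  congr 1
  rw [show (2 : ℂ) * (Real.log (2 * Real.cos (y / 2)) : ℂ) =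
      ((2 * Real.log (2 * Real.cos (y / 2)) : ℝ) : ℂ) by push_cast; ring, ofReal_re]

variable (H : Params κ τ a₁ a₂)

include H

theorem continuousOn_Phi : ContinuousOn (Phi κ τ a₁ a₂) (Ioo (-π) π) := by
  refine ContinuousOn.sub ?_ ?_
  · refine (continuousOn_Bf H).comp (by fun_prop) ?_
    intro y _
    rw [mem_closedBall_zero_iff, norm_exp_ofReal_mul_I]
  · refine continuousOn_const.mul ?_
    apply continuous_ofReal.comp_continuousOn
    apply ContinuousOn.log (by fun_prop)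
    intro y hy
    exact (cos_half_pos hy).ne'

omit H in
theorem exp_ne_of_ne {y a : ℝ} (hy : y ∈ Ioo (-π) π) (ha : a ∈ Ioo (-π) π) (h : y ≠ a) :
    exp (y * I) ≠ exp (a * I) := by
  intro h'
  have h3 := congrArg arg h'
  rw [arg_exp_mul_I, arg_exp_mul_I, (toIocMod_eq_self Real.two_pi_pos).2 ⟨hy.1, by linarith [hy.2]⟩,
    (toIocMod_eq_self Real.two_pi_pos).2 ⟨ha.1, by linarith [ha.2]⟩] at h3
  exact h h3

/-- **Increments of `log f` along the circle.** -/
theorem Phi_sub {y₁ y₂ : ℝ} (h12 : y₁ ≤ y₂) (h1 : -π < y₁) (h2 : y₂ < π)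
    (ha : a₂ ∉ Icc y₁ y₂) : IntervalIntegrable (ip κ τ a₁ a₂) volume y₁ y₂ ∧
    ContinuousOn (ip κ τ a₁ a₂) (Icc y₁ y₂) ∧
    Phi κ τ a₁ a₂ y₂ - Phi κ τ a₁ a₂ y₁ = ∫ y in y₁..y₂, ip κ τ a₁ a₂ y := by
  have hpi := Real.pi_pos
  have hh1 := H.h1; have hh2 := H.h2; have hh3 := H.h3; have hh4 := H.h4
  have ha₂ : a₂ ∈ Ioo (-π) π := ⟨by linarith, hh4⟩
  have hmem : ∀ y ∈ Icc y₁ y₂, y ∈ Ioo (-π) π := fun y hy => ⟨by linarith [hy.1], by linarith [hy.2]⟩
  -- the integrand
  set g : ℂ → ℂ := fun z => I * (Nf κ τ a₁ a₂ z / (1 + z)) with hg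
  have hgcont : ∀ r ∈ Icc (1 / 2 : ℝ) 1, ∀ y ∈ Icc y₁ y₂, ContinuousAt g (r * exp (y * I)) := by
    intro r hr y hy
    have hr0 : 0 < r := by linarith [hr.1]
    have hn : ‖(r * exp (y * I) : ℂ)‖ = r := by
      rw [norm_mul, norm_exp_ofReal_mul_I, mul_one, norm_real, Real.norm_eq_abs, abs_of_pos hr0]
    have hcases : (r : ℂ) * exp (y * I) ≠ exp (a₂ * I) ∧ (r : ℂ) * exp (y * I) ≠ -1 := by
      rcases hr.2.lt_or_eq with h | h
      · constructor
        · intro h'
          rw [h', norm_exp_ofReal_mul_I] at hn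
          linarith
        · intro h'
          rw [h', norm_neg, norm_one] at hn
          linarith
      · rw [h, ofReal_one, one_mul]
        refine ⟨exp_ne_of_ne (hmem y hy) ha₂ (fun h' => ha (h' ▸ hy)), ?_⟩
        exact (neg_one_ne (hmem y hy).1 (hmem y hy).2).symm
    have c1 := continuousAt_Pf H (hn.trans_le hr.2) hcases.1
    have c2 : ContinuousAt (Nf κ τ a₁ a₂) (r * exp (y * I)) :=
      (c1.sub continuousAt_const).add continuousAt_id
    exact continuousAt_const.mul (c2.div (by fun_prop) (one_add_ne_zero hcases.2))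
  -- uniform bound
  have hmapc : Continuous (fun p : ℝ × ℝ => (p.1 * exp (p.2 * I) : ℂ)) := by fun_prop
  obtain ⟨M, hM⟩ : ∃ M : ℝ, ∀ r ∈ Icc (1 / 2 : ℝ) 1, ∀ y ∈ Icc y₁ y₂, ‖g (r * exp (y * I))‖ ≤ M := by
    have hcomp : IsCompact (Icc (1 / 2 : ℝ) 1 ×ˢ Icc y₁ y₂) := isCompact_Icc.prod isCompact_Icc
    have hc : ContinuousOn (fun p : ℝ × ℝ => g (p.1 * exp (p.2 * I)))
        (Icc (1 / 2 : ℝ) 1 ×ˢ Icc y₁ y₂) := by
      intro p hp
      have h3 := hgcont p.1 hp.1 p.2 hp.2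
      exact (ContinuousAt.comp (f := fun p : ℝ × ℝ => (p.1 * exp (p.2 * I) : ℂ)) h3
        hmapc.continuousAt).continuousWithinAt
    obtain ⟨M, hM⟩ := hcomp.exists_bound_of_continuousOn hc
    exact ⟨M, fun r hr y hy => hM (r, y) ⟨hr, hy⟩⟩
  have hgy : ∀ r ∈ Icc (1 / 2 : ℝ) 1, ContinuousOn (fun y : ℝ => g (r * exp (y * I)))
      (Icc y₁ y₂) := by
    intro r hr y hy
    have h3 := hgcont r hr y hy
    exact (ContinuousAt.comp (f := fun y : ℝ => (r * exp (y * I) : ℂ)) h3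
      (by fun_prop)).continuousWithinAt
  -- the identity for r < 1
  have hr_id : ∀ r ∈ Ico (1 / 2 : ℝ) 1, ∫ y in y₁..y₂, g (r * exp (y * I)) =
      Bf κ τ a₁ a₂ (r * exp (y₂ * I)) - Bf κ τ a₁ a₂ (r * exp (y₁ * I)) := by
    intro r hr
    have hr0 : 0 < r := by linarith [hr.1]
    apply intervalIntegral.integral_eq_sub_of_hasDerivAt
      (f := fun y : ℝ => Bf κ τ a₁ a₂ (r * exp (y * I)))
    · intro y _
      have hn : ‖(r * exp (y * I) : ℂ)‖ = r := by
        rw [norm_mul, norm_exp_ofReal_mul_I, mul_one, norm_real, Real.norm_eq_abs, abs_of_pos hr0]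
      have hb : (r * exp (y * I) : ℂ) ∈ ball (0 : ℂ) 1 := by
        rw [mem_ball_zero_iff, hn]; exact hr.2
      have h3 : HasDerivAt (fun y : ℝ => (r * exp (y * I) : ℂ)) (r * (exp (y * I) * I)) y := by
        have h4 : HasDerivAt (fun y : ℝ => (y * I : ℂ)) I y := by
          simpa using (Complex.ofRealCLM.hasDerivAt (x := y)).mul_const I
        exact (h4.cexp).const_mul _
      have h5 := (hasDerivAt_Bf (κ := κ) (τ := τ) (a₁ := a₁) (a₂ := a₂) hb).comp y h3
      refine h5.congr_deriv ?_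
      rw [hg]
      simp only
      rw [← z_mul_qf]
      ring
    · have := hgy r ⟨hr.1, hr.2.le⟩
      rw [← uIcc_of_le h12] at this
      exact this.intervalIntegrable
  -- the limit r → 1
  have hlim1 : Tendsto (fun r : ℝ => ∫ y in y₁..y₂, g (r * exp (y * I))) (𝓝[<] 1)
      (𝓝 (∫ y in y₁..y₂, g (exp (y * I)))) := by
    have hev : ∀ᶠ r : ℝ in 𝓝[<] 1, r ∈ Ioo (1 / 2 : ℝ) 1 := Ioo_mem_nhdsLT (by norm_num)
    apply intervalIntegral.tendsto_integral_filter_of_dominated_convergence (fun _ => M)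
    · filter_upwards [hev] with r hr
      rw [uIoc_of_le h12]
      exact ((hgy r ⟨hr.1.le, hr.2.le⟩).mono Ioc_subset_Icc_self).aestronglyMeasurable
        measurableSet_Ioc
    · filter_upwards [hev] with r hr
      refine Eventually.of_forall fun y hy => ?_
      rw [uIoc_of_le h12] at hy
      exact hM r ⟨hr.1.le, hr.2.le⟩ y (Ioc_subset_Icc_self hy)
    · exact intervalIntegrable_const
    · refine Eventually.of_forall fun y hy => ?_
      rw [uIoc_of_le h12] at hy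
      have h3 := hgcont 1 ⟨by norm_num, le_rfl⟩ y (Ioc_subset_Icc_self hy)
      have h4 : ContinuousAt (fun r : ℝ => g (r * exp (y * I))) 1 :=
        ContinuousAt.comp (f := fun r : ℝ => (r * exp (y * I) : ℂ)) h3 (by fun_prop)
      have h5 := h4.tendsto
      simp only [ofReal_one, one_mul] at h5
      exact h5.mono_left nhdsWithin_le_nhds
  have hB : ∀ y : ℝ, Tendsto (fun r : ℝ => Bf κ τ a₁ a₂ (r * exp (y * I))) (𝓝[<] 1)
      (𝓝 (Bf κ τ a₁ a₂ (exp (y * I)))) := by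
    intro y
    have h3 := continuousOn_Bf H (exp (y * I)) (by
      rw [mem_closedBall_zero_iff, norm_exp_ofReal_mul_I])
    refine h3.tendsto.comp ?_
    apply tendsto_nhdsWithin_of_tendsto_nhds_of_eventually_within
    · have h4 : ContinuousAt (fun r : ℝ => (r * exp (y * I) : ℂ)) 1 := by fun_prop
      have h5 := h4.tendsto
      simp only [ofReal_one, one_mul] at h5
      exact h5.mono_left nhdsWithin_le_nhds
    · have hev : ∀ᶠ r : ℝ in 𝓝[<] 1, r ∈ Ioo (1 / 2 : ℝ) 1 := Ioo_mem_nhdsLT (by norm_num)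
      filter_upwards [hev] with r hr
      have hr0 : 0 < r := by linarith [hr.1]
      rw [mem_closedBall_zero_iff, norm_mul, norm_exp_ofReal_mul_I, mul_one, norm_real,
        Real.norm_eq_abs, abs_of_pos hr0]
      exact hr.2.le
  have hlim2 := (hB y₂).sub (hB y₁)
  have heq : ∫ y in y₁..y₂, g (exp (y * I)) =
      Bf κ τ a₁ a₂ (exp (y₂ * I)) - Bf κ τ a₁ a₂ (exp (y₁ * I)) := by
    refine tendsto_nhds_unique hlim1 (hlim2.congr' ?_)
    have hev : ∀ᶠ r : ℝ in 𝓝[<] 1, r ∈ Ioo (1 / 2 : ℝ) 1 := Ioo_mem_nhdsLT (by norm_num)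
    filter_upwards [hev] with r hr
    exact (hr_id r ⟨hr.1.le, hr.2⟩).symm
  -- the logarithmic part
  have htan : ∫ y in y₁..y₂, ((Real.tan (y / 2) : ℝ) : ℂ) =
      ((-(2 * Real.log (2 * Real.cos (y₂ / 2))) : ℝ) : ℂ) -
        ((-(2 * Real.log (2 * Real.cos (y₁ / 2))) : ℝ) : ℂ) := by
    rw [intervalIntegral.integral_ofReal, ← ofReal_sub]
    congr 1
    apply intervalIntegral.integral_eq_sub_of_hasDerivAt
      (f := fun y => -(2 * Real.log (2 * Real.cos (y / 2))))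
    · intro y hy
      rw [uIcc_of_le h12] at hy
      have hc := cos_half_pos (hmem y hy)
      have h3 : HasDerivAt (fun y : ℝ => 2 * Real.cos (y / 2))
          (2 * (-Real.sin (y / 2) * (1 / 2))) y := by
        have h4 : HasDerivAt (fun y : ℝ => y / 2) (1 / 2) y := (hasDerivAt_id y).div_const 2
        exact (h4.cos).const_mul 2
      have h5 := ((h3.log hc.ne').const_mul 2).neg
      refine h5.congr_deriv ?_
      rw [Real.tan_eq_sin_div_cos]
      have : Real.cos (y / 2) ≠ 0 := by intro h; rw [h] at hc; linarith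
      field_simp
    · apply ContinuousOn.intervalIntegrable
      rw [uIcc_of_le h12]
      intro y hy
      have hc := cos_half_pos (hmem y hy)
      have : Real.cos (y / 2) ≠ 0 := by intro h; rw [h] at hc; linarith
      apply ContinuousAt.continuousWithinAt
      exact ContinuousAt.comp (f := fun y : ℝ => y / 2)
        (Real.continuousAt_tan.2 this) (by fun_prop)
  -- pointwise identity
  have hpt : ∀ y ∈ Icc y₁ y₂, g (exp (y * I)) = ip κ τ a₁ a₂ y - ((Real.tan (y / 2) : ℝ) : ℂ) := by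
    intro y hy
    have hc := cos_half_pos (hmem y hy)
    have hc0 : Real.cos (y / 2) ≠ 0 := by intro h; rw [h] at hc; linarith
    have h1z : 1 + exp (y * I) ≠ 0 :=
      one_add_ne_zero (neg_one_ne (hmem y hy).1 (hmem y hy).2).symm
    have h3 : (1 - exp (y * I)) = -I * ((Real.tan (y / 2) : ℝ) : ℂ) * (1 + exp (y * I)) := by
      rw [one_sub_exp_pos, one_add_exp, Real.tan_eq_sin_div_cos]
      have h4 : (((y - π) / 2 : ℝ) : ℂ) * I = ((y / 2 : ℝ) : ℂ) * I - (π / 2 : ℂ) * I := by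
        push_cast; ring
      rw [h4, exp_sub, exp_pi_div_two_mul_I, ofReal_div (Real.sin (y / 2)), ofReal_mul, ofReal_mul]
      have h5 : ((Real.cos (y / 2) : ℝ) : ℂ) ≠ 0 := by exact_mod_cast hc0
      have hI : (I : ℂ)⁻¹ = -I := inv_I
      rw [div_eq_mul_inv _ I, hI]
      field_simp
    have h6 : Nf κ τ a₁ a₂ (exp (y * I)) = Pf κ τ a₁ a₂ (exp (y * I)) - (1 - exp (y * I)) := by
      rw [Nf]; ring
    simp only [hg]
    rw [h6, ip, sub_div, mul_sub]
    congr 1
    rw [h3, mul_div_cancel_right₀ _ h1z]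
    have : I * (-I * ((Real.tan (y / 2) : ℝ) : ℂ)) = -(I ^ 2) * ((Real.tan (y / 2) : ℝ) : ℂ) := by
      ring
    rw [this, I_sq]; ring
  have hipc : ContinuousOn (ip κ τ a₁ a₂) (Icc y₁ y₂) := by
    intro y hy
    have hy' := hmem y hy
    have c1 : ContinuousAt (Pf κ τ a₁ a₂) (exp (y * I)) :=
      continuousAt_Pf H (by rw [norm_exp_ofReal_mul_I])
        (exp_ne_of_ne hy' ha₂ (fun h' => ha (h' ▸ hy)))
    have c2 : ContinuousAt (fun y : ℝ => Pf κ τ a₁ a₂ (exp (y * I))) y :=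
      ContinuousAt.comp (f := fun y : ℝ => exp (y * I)) c1 (by fun_prop)
    exact (continuousAt_const.mul (c2.div (by fun_prop)
      (one_add_ne_zero (neg_one_ne hy'.1 hy'.2).symm))).continuousWithinAt
  have hipi : IntervalIntegrable (ip κ τ a₁ a₂) volume y₁ y₂ := by
    apply ContinuousOn.intervalIntegrable
    rwa [uIcc_of_le h12]
  refine ⟨hipi, hipc, ?_⟩
  have htani : IntervalIntegrable (fun y : ℝ => ((Real.tan (y / 2) : ℝ) : ℂ)) volume y₁ y₂ := by
    apply ContinuousOn.intervalIntegrable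
    rw [uIcc_of_le h12]
    intro y hy
    have hc := cos_half_pos (hmem y hy)
    have : Real.cos (y / 2) ≠ 0 := by intro h; rw [h] at hc; linarith
    apply ContinuousAt.continuousWithinAt
    apply continuous_ofReal.continuousAt.comp
    exact ContinuousAt.comp (f := fun y : ℝ => y / 2)
      (Real.continuousAt_tan.2 this) (by fun_prop)
  have h7 : ∫ y in y₁..y₂, g (exp (y * I)) =
      ∫ y in y₁..y₂, (ip κ τ a₁ a₂ y - ((Real.tan (y / 2) : ℝ) : ℂ)) := by
    apply intervalIntegral.integral_congr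
    intro y hy
    rw [uIcc_of_le h12] at hy
    exact hpt y hy
  rw [h7, intervalIntegral.integral_sub hipi htani, htan] at heq
  rw [Phi, Phi]
  push_cast at heq ⊢
  linear_combination -heq

end

end Pool.Agent.Helper45.Slit
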