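import Pool.Agent.Helper45.Slit.Basic

/-!
# Topology of the complement of a slit
-/

namespace Pool.Agent.Helper45.Slit

open Set Metric Filter Topology MeasureTheory Complex

open scoped ENNReal Real

theorem zero_notMem_slitSet {θ : ℝ → ℝ} {ρ₀ : ℝ} : (0 : ℂ) ∉ slitSet θ ρ₀ := by
  rintro ⟨x, -, hx⟩
  exact exp_ne_zero _ hx

theorem interior_slitSet {θ : ℝ → ℝ} {ρ₀ : ℝ} : interior (slitSet θ ρ₀) = ∅ := by
  rw [eq_empty_iff_forall_notMem]
  intro w hw
  have hwm := interior_subset hw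
  obtain ⟨x, hx, hxw⟩ := hwm
  have hc : ContinuousAt (fun ε : ℝ => w * exp (ε * I)) 0 := by fun_prop
  have h1 : ∀ᶠ ε : ℝ in 𝓝 (0 : ℝ), w * exp (ε * I) ∈ slitSet θ ρ₀ := by
    apply hc.eventually
    simpa using mem_interior_iff_mem_nhds.1 hw
  obtain ⟨δ, hδ, hb⟩ := Metric.eventually_nhds_iff_ball.1 h1
  set ε := min (δ / 2) 1 with hε
  have hε0 : 0 < ε := by positivity
  have hεδ : ε ∈ ball (0 : ℝ) δ := by
    rw [mem_ball_zero_iff, Real.norm_eq_abs, abs_of_pos hε0]
    have := min_le_left (δ / 2) 1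
    linarith
  obtain ⟨x', -, hx'⟩ := hb ε hεδ
  have hw0 : w ≠ 0 := by rw [← hxw]; exact exp_ne_zero _
  have hn : Real.exp x' = Real.exp x := by
    have h2 := congrArg norm hx'
    have h3 := congrArg norm hxw
    simp only [norm_exp, add_re, ofReal_re, mul_re, I_re, mul_zero, ofReal_im, I_im, mul_one,
      sub_self, add_zero, norm_mul, Real.exp_zero] at h2 h3
    rw [h2, ← h3]
  have hxx : x' = x := Real.exp_injective hn
  rw [hxx] at hx'
  have h4 : w * exp (ε * I) = w := by rw [← hx', hxw]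
  have h5 : exp (ε * I) = 1 := by
    have := mul_left_cancel₀ hw0 (h4.trans (mul_one w).symm)
    exact this
  have h6 := congrArg Complex.im h5
  rw [exp_ofReal_mul_I_im, one_im] at h6
  have h7 : 0 < Real.sin ε := by
    apply Real.sin_pos_of_pos_of_lt_pi hε0
    have := min_le_right (δ / 2) 1
    linarith [Real.pi_gt_three]
  linarith

theorem isPreconnected_compl_slitSet {θ : ℝ → ℝ} (hθ : Continuous θ) {ρ₀ : ℝ} :
    IsPreconnected (slitSet θ ρ₀)ᶜ := by
  have hpi := Real.pi_pos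
  set g : ℝ × ℝ → ℂ := fun p => exp (p.1 + (θ p.1 + p.2 : ℝ) * I) with hg
  have hgc : Continuous g := by
    rw [hg]
    have h1 : Continuous (fun p : ℝ × ℝ => θ p.1 + p.2) := (hθ.comp continuous_fst).add continuous_snd
    fun_prop
  set W : Set ℂ := g '' (univ ×ˢ Ioo 0 (2 * π)) with hW
  have hWc : IsPreconnected W :=
    ((isPreconnected_univ.prod isPreconnected_Ioo).image g hgc.continuousOn)
  have hW1 : W ⊆ (slitSet θ ρ₀)ᶜ := by
    rintro _ ⟨⟨x, u⟩, ⟨-, hu⟩, rfl⟩
    apply Setup.strip_notMem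
    · simp; exact hu.1
    · simp; exact hu.2
  refine hWc.subset_closure hW1 ?_
  intro w _
  by_cases hw0 : w = 0
  · rw [hw0, Metric.mem_closure_iff]
    intro ε hε
    have hpi2 : π ∈ Ioo (0 : ℝ) (2 * π) := ⟨hpi, by linarith⟩
    refine ⟨g (Real.log (ε / 2), π), ⟨(_, _), ⟨mem_univ _, hpi2⟩, rfl⟩, ?_⟩
    rw [dist_zero_left, hg]
    simp only [norm_exp]
    have : ((Real.log (ε / 2) : ℂ) + ((θ (Real.log (ε / 2)) + π : ℝ) : ℂ) * I).re =
      Real.log (ε / 2) := by simp
    rw [this, Real.exp_log (by positivity)]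
    linarith
  · set x := Real.log ‖w‖ with hx
    set y := toIcoMod Real.two_pi_pos (θ x) (arg w) with hy
    have hy1 : y ∈ Ico (θ x) (θ x + 2 * π) := toIcoMod_mem_Ico _ _ _
    have hexp : g (x, y - θ x) = w := by
      obtain ⟨n, hn⟩ : ∃ n : ℤ, y = arg w - n * (2 * π) :=
        ⟨toIcoDiv Real.two_pi_pos (θ x) (arg w), by rw [hy, toIcoMod]; simp⟩
      have h2 : (x + y * I : ℂ) = Complex.log w + ((-n : ℤ) : ℂ) * (2 * π * I) := by
        apply Complex.ext
        · simp [Complex.log_re, hx]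
        · simp [Complex.log_im, hn]
          ring
      show exp ((x : ℂ) + ((θ x + (y - θ x) : ℝ) : ℂ) * I) = w
      have h3 : θ x + (y - θ x) = y := by ring
      rw [h3, h2, exp_add, exp_log hw0, exp_int_mul_two_pi_mul_I, mul_one]
    have h3 : (x, y - θ x) ∈ closure ((univ : Set ℝ) ×ˢ Ioo 0 (2 * π)) := by
      rw [closure_prod_eq, closure_univ, closure_Ioo (by positivity)]
      exact ⟨mem_univ _, ⟨by linarith [hy1.1], by linarith [hy1.2]⟩⟩
    rw [← hexp]
    exact image_closure_subset_closure_image hgc ⟨_, h3, rfl⟩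

end Pool.Agent.Helper45.Slit
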