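import Pool.Agent.Helper45.Slit.Ex4
import Pool.Agent.Helper45.Slit.Cover
import Pool.Agent.Helper45.Slit.SlitTop

/-!
# The example: the image is the complement of a slit
-/

namespace Pool.Agent.Helper45.Slit

open Set Metric Filter Topology MeasureTheory Complex

open scoped ENNReal Real

section

variable {κ τ a₁ a₂ : ℝ} (H : Params κ τ a₁ a₂)

include H

theorem Phi_dir {y₁ y₂ : ℝ} (h12 : y₁ ≤ y₂) (h1 : -π < y₁) (h2 : y₂ < π)
    (ha : a₂ ∉ Icc y₁ y₂) {u : ℂ}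
    (hu : ∀ y ∈ Ioo y₁ y₂, 0 < ‖ip κ τ a₁ a₂ y‖ ∧ ip κ τ a₁ a₂ y = u * (‖ip κ τ a₁ a₂ y‖ : ℂ)) :
    ∃ R : ℝ, 0 ≤ R ∧ Phi κ τ a₁ a₂ y₂ - Phi κ τ a₁ a₂ y₁ = u * R ∧ (y₁ < y₂ → 0 < R) := by
  obtain ⟨hi, hc, he⟩ := Phi_sub H h12 h1 h2 ha
  refine ⟨∫ y in y₁..y₂, ‖ip κ τ a₁ a₂ y‖, ?_, ?_, ?_⟩
  · exact intervalIntegral.integral_nonneg h12 (fun y _ => norm_nonneg _)
  · rw [he, ← intervalIntegral.integral_ofReal, ← intervalIntegral.integral_const_mul]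
    apply intervalIntegral.integral_congr_ae
    have : ∀ᵐ y : ℝ, y ≠ y₂ := by simp [ae_iff]
    filter_upwards [this] with y hy hy2
    rw [uIoc_of_le h12] at hy2
    exact (hu y ⟨hy2.1, lt_of_le_of_ne hy2.2 hy⟩).2
  · intro h
    exact intervalIntegral.intervalIntegral_pos_of_pos_on hi.norm (fun y hy => (hu y hy).1) h

theorem beta_facts : 0 < Real.cos (κ * π) ∧ 0 < Real.sin (κ * π) ∧ 0 < Real.tan (κ * π) ∧
    0 < κ * π ∧ κ * π < π / 2 := by
  have hpi := Real.pi_pos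
  have h1 : 0 < κ * π := mul_pos H.κ0 hpi
  have h2 : κ * π < π / 2 := by
    have := H.κ1; nlinarith
  exact ⟨Real.cos_pos_of_mem_Ioo ⟨by linarith, h2⟩, Real.sin_pos_of_pos_of_lt_pi h1 (by linarith),
    Real.tan_pos_of_pos_of_lt_pi_div_two h1 h2, h1, h2⟩

omit H in
theorem exp_beta_re : (exp (-((κ * π : ℝ) * I))).re = Real.cos (κ * π) := by
  rw [show -(((κ * π : ℝ) : ℂ) * I) = ((-(κ * π) : ℝ) : ℂ) * I by push_cast; ring,
    exp_ofReal_mul_I_re, Real.cos_neg]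

omit H in
theorem exp_beta_im : (exp (-((κ * π : ℝ) * I))).im = -Real.sin (κ * π) := by
  rw [show -(((κ * π : ℝ) : ℂ) * I) = ((-(κ * π) : ℝ) : ℂ) * I by push_cast; ring,
    exp_ofReal_mul_I_im, Real.sin_neg]

theorem arc1 {y₁ y₂ : ℝ} (h1 : -π < y₁) (h12 : y₁ ≤ y₂) (h2 : y₂ ≤ a₁) :
    (Phi κ τ a₁ a₂ y₂).im = (Phi κ τ a₁ a₂ y₁).im ∧
      (Phi κ τ a₁ a₂ y₂).re ≤ (Phi κ τ a₁ a₂ y₁).re := by
  have := H.h1; have := H.h2; have := H.h3; have := H.h4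
  obtain ⟨R, hR, he, -⟩ := Phi_dir H h12 h1 (by linarith) (fun h => by linarith [h.2])
    (fun y hy => ip_arc1 H (by linarith [hy.1]) (by linarith [hy.2]))
  have hre := congrArg Complex.re he
  have him := congrArg Complex.im he
  simp only [sub_re, sub_im, neg_mul, one_mul, neg_re, neg_im, ofReal_re, ofReal_im, neg_zero]
    at hre him
  exact ⟨by linarith, by linarith⟩

theorem arc4 {y₁ y₂ : ℝ} (h1 : a₂ < y₁) (h12 : y₁ ≤ y₂) (h2 : y₂ < π) :
    (Phi κ τ a₁ a₂ y₂).im = (Phi κ τ a₁ a₂ y₁).im ∧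
      (Phi κ τ a₁ a₂ y₁).re ≤ (Phi κ τ a₁ a₂ y₂).re := by
  have := H.h1; have := H.h2; have := H.h3; have := H.h4
  obtain ⟨R, hR, he, -⟩ := Phi_dir H h12 (by linarith) h2 (fun h => by linarith [h.1])
    (fun y hy => ip_arc4 H (by linarith [hy.1]) (by linarith [hy.2]))
  have hre := congrArg Complex.re he
  have him := congrArg Complex.im he
  simp only [sub_re, sub_im, one_mul, ofReal_re, ofReal_im] at hre him
  exact ⟨by linarith, by linarith⟩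

theorem arc2 {y₁ y₂ : ℝ} (h1 : a₁ ≤ y₁) (h12 : y₁ ≤ y₂) (h2 : y₂ ≤ τ) :
    (Phi κ τ a₁ a₂ y₂).im - (Phi κ τ a₁ a₂ y₁).im =
      -(Real.tan (κ * π) * ((Phi κ τ a₁ a₂ y₂).re - (Phi κ τ a₁ a₂ y₁).re)) ∧
      (Phi κ τ a₁ a₂ y₂).re ≤ (Phi κ τ a₁ a₂ y₁).re ∧
      (y₁ < y₂ → (Phi κ τ a₁ a₂ y₂).re < (Phi κ τ a₁ a₂ y₁).re) := by
  have := H.h1; have := H.h2; have := H.h3; have := H.h4
  obtain ⟨hc, hs, -⟩ := beta_facts H
  obtain ⟨R, hR, he, hpos⟩ := Phi_dir H h12 (by linarith) (by linarith) (fun h => by linarith [h.2])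
    (fun y hy => ip_arc2 H (by linarith [hy.1]) (by linarith [hy.2]))
  have hre := congrArg Complex.re he
  have him := congrArg Complex.im he
  rw [re_mul_ofReal, neg_re, exp_beta_re, sub_re] at hre
  rw [im_mul_ofReal, neg_im, exp_beta_im, sub_im] at him
  refine ⟨?_, ?_, ?_⟩
  · rw [hre, him, Real.tan_eq_sin_div_cos]
    field_simp
  · nlinarith
  · intro h
    have := hpos h
    nlinarith

theorem arc3 {y₁ y₂ : ℝ} (h1 : τ ≤ y₁) (h12 : y₁ ≤ y₂) (h2 : y₂ < a₂) :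
    (Phi κ τ a₁ a₂ y₂).im - (Phi κ τ a₁ a₂ y₁).im =
      -(Real.tan (κ * π) * ((Phi κ τ a₁ a₂ y₂).re - (Phi κ τ a₁ a₂ y₁).re)) ∧
      (Phi κ τ a₁ a₂ y₁).re ≤ (Phi κ τ a₁ a₂ y₂).re := by
  have := H.h1; have := H.h2; have := H.h3; have := H.h4
  obtain ⟨hc, hs, -⟩ := beta_facts H
  obtain ⟨R, hR, he, hpos⟩ := Phi_dir H h12 (by linarith) (by linarith) (fun h => by linarith [h.2])
    (fun y hy => ip_arc3 H (by linarith [hy.1]) (by linarith [hy.2]))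
  have hre := congrArg Complex.re he
  have him := congrArg Complex.im he
  rw [re_mul_ofReal, exp_beta_re, sub_re] at hre
  rw [im_mul_ofReal, exp_beta_im, sub_im] at him
  refine ⟨?_, ?_⟩
  · rw [hre, him, Real.tan_eq_sin_div_cos]
    field_simp
  · nlinarith

theorem cont_re : ContinuousOn (fun y => (Phi κ τ a₁ a₂ y).re) (Ioo (-π) π) :=
  continuous_re.comp_continuousOn (continuousOn_Phi H)

theorem cont_im : ContinuousOn (fun y => (Phi κ τ a₁ a₂ y).im) (Ioo (-π) π) :=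
  continuous_im.comp_continuousOn (continuousOn_Phi H)

theorem mem_a2 : a₂ ∈ Ioo (-π) π := ⟨by linarith [H.h1, H.h2, H.h3], H.h4⟩

/-- arc 3 including the end point. -/
theorem arc3' {y : ℝ} (h1 : τ ≤ y) (h2 : y ≤ a₂) :
    (Phi κ τ a₁ a₂ a₂).im - (Phi κ τ a₁ a₂ y).im =
      -(Real.tan (κ * π) * ((Phi κ τ a₁ a₂ a₂).re - (Phi κ τ a₁ a₂ y).re)) ∧
      (Phi κ τ a₁ a₂ y).re ≤ (Phi κ τ a₁ a₂ a₂).re := by
  rcases h2.eq_or_lt with rfl | h2
  · simp
  have hτ := H.h3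
  have hre : Tendsto (fun y => (Phi κ τ a₁ a₂ y).re) (𝓝[<] a₂) (𝓝 (Phi κ τ a₁ a₂ a₂).re) :=
    ((cont_re H).continuousAt (isOpen_Ioo.mem_nhds (mem_a2 H))).tendsto.mono_left
      nhdsWithin_le_nhds
  have him : Tendsto (fun y => (Phi κ τ a₁ a₂ y).im) (𝓝[<] a₂) (𝓝 (Phi κ τ a₁ a₂ a₂).im) :=
    ((cont_im H).continuousAt (isOpen_Ioo.mem_nhds (mem_a2 H))).tendsto.mono_left
      nhdsWithin_le_nhds
  have hev : ∀ᶠ y' in 𝓝[<] a₂, y' ∈ Ioo y a₂ := Ioo_mem_nhdsLT h2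
  constructor
  · have l1 := him.sub_const (Phi κ τ a₁ a₂ y).im
    have l2 := ((hre.sub_const (Phi κ τ a₁ a₂ y).re).const_mul (Real.tan (κ * π))).neg
    refine tendsto_nhds_unique l1 (l2.congr' ?_)
    filter_upwards [hev] with y' hy'
    exact (arc3 H h1 hy'.1.le hy'.2).1.symm
  · apply ge_of_tendsto hre
    filter_upwards [hev] with y' hy'
    exact (arc3 H h1 hy'.1.le hy'.2).2

/-- arc 4 including the end point. -/
theorem arc4' {y : ℝ} (h1 : a₂ ≤ y) (h2 : y < π) :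
    (Phi κ τ a₁ a₂ y).im = (Phi κ τ a₁ a₂ a₂).im ∧
      (Phi κ τ a₁ a₂ a₂).re ≤ (Phi κ τ a₁ a₂ y).re := by
  rcases h1.eq_or_lt with rfl | h1
  · simp
  have hτ := H.h3
  have hre : Tendsto (fun y => (Phi κ τ a₁ a₂ y).re) (𝓝[>] a₂) (𝓝 (Phi κ τ a₁ a₂ a₂).re) :=
    ((cont_re H).continuousAt (isOpen_Ioo.mem_nhds (mem_a2 H))).tendsto.mono_left
      nhdsWithin_le_nhds
  have him : Tendsto (fun y => (Phi κ τ a₁ a₂ y).im) (𝓝[>] a₂) (𝓝 (Phi κ τ a₁ a₂ a₂).im) :=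
    ((cont_im H).continuousAt (isOpen_Ioo.mem_nhds (mem_a2 H))).tendsto.mono_left
      nhdsWithin_le_nhds
  have hev : ∀ᶠ y' in 𝓝[>] a₂, y' ∈ Ioo a₂ y := Ioo_mem_nhdsGT h1
  constructor
  · refine tendsto_nhds_unique (tendsto_const_nhds (x := (Phi κ τ a₁ a₂ y).im)) (him.congr' ?_)
    filter_upwards [hev] with y' hy'
    exact (arc4 H hy'.1 hy'.2.le h2).1.symm
  · apply le_of_tendsto hre
    filter_upwards [hev] with y' hy'
    exact (arc4 H hy'.1 hy'.2.le h2).2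

/-- Both outer arcs lie on the same ray. -/
theorem im_a1_eq : (Phi κ τ a₁ a₂ a₁).im = (Bf κ τ a₁ a₂ (-1)).im := by
  have hpi := Real.pi_pos
  have hh1 := H.h1; have hh2 := H.h2; have hh3 := H.h3; have hh4 := H.h4
  have hB := continuousOn_Bf H (-1) (by simp)
  have h1 : Tendsto (fun y : ℝ => exp (y * I)) (𝓝[>] (-π)) (𝓝[closedBall 0 1] (-1)) := by
    apply tendsto_nhdsWithin_of_tendsto_nhds_of_eventually_within
    · have h4 : ContinuousAt (fun y : ℝ => exp (y * I)) (-π) := by fun_prop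
      have h5 := h4.tendsto
      have h6 : exp (((-π : ℝ) : ℂ) * I) = -1 := by
        rw [ofReal_neg, neg_mul, exp_neg, exp_pi_mul_I]; norm_num
      rw [h6] at h5
      exact h5.mono_left nhdsWithin_le_nhds
    · refine Eventually.of_forall fun y => ?_
      rw [mem_closedBall_zero_iff, norm_exp_ofReal_mul_I]
  have h2 := (continuous_im.tendsto _).comp (hB.tendsto.comp h1)
  have hev : ∀ᶠ y in 𝓝[>] (-π), y ∈ Ioo (-π) a₁ := Ioo_mem_nhdsGT hh1
  refine tendsto_nhds_unique (tendsto_const_nhds (x := (Phi κ τ a₁ a₂ a₁).im)) (h2.congr' ?_)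
  filter_upwards [hev] with y hy
  simp only [Function.comp]
  rw [← Phi_im]
  exact (arc1 H hy.1 hy.2.le le_rfl).1.symm

theorem im_a2_eq : (Phi κ τ a₁ a₂ a₂).im = (Bf κ τ a₁ a₂ (-1)).im := by
  have hpi := Real.pi_pos
  have hh1 := H.h1; have hh2 := H.h2; have hh3 := H.h3; have hh4 := H.h4
  have hB := continuousOn_Bf H (-1) (by simp)
  have h1 : Tendsto (fun y : ℝ => exp (y * I)) (𝓝[<] π) (𝓝[closedBall 0 1] (-1)) := by
    apply tendsto_nhdsWithin_of_tendsto_nhds_of_eventually_within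
    · have h4 : ContinuousAt (fun y : ℝ => exp (y * I)) π := by fun_prop
      have h5 := h4.tendsto
      rw [exp_pi_mul_I] at h5
      exact h5.mono_left nhdsWithin_le_nhds
    · refine Eventually.of_forall fun y => ?_
      rw [mem_closedBall_zero_iff, norm_exp_ofReal_mul_I]
  have h2 := (continuous_im.tendsto _).comp (hB.tendsto.comp h1)
  have hev : ∀ᶠ y in 𝓝[<] π, y ∈ Ioo a₂ π := Ioo_mem_nhdsLT hh4
  refine tendsto_nhds_unique (tendsto_const_nhds (x := (Phi κ τ a₁ a₂ a₂).im)) (h2.congr' ?_)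
  filter_upwards [hev] with y hy
  simp only [Function.comp]
  rw [← Phi_im]
  exact (arc4' H hy.1.le hy.2).1

theorem re_a1_eq_re_a2 : (Phi κ τ a₁ a₂ a₁).re = (Phi κ τ a₁ a₂ a₂).re := by
  have h1 := (arc2 H le_rfl H.h2.le le_rfl).1
  have h2 := (arc3' H le_rfl H.h3.le).1
  have h3 := im_a1_eq H
  have h4 := im_a2_eq H
  obtain ⟨-, -, ht, -, -⟩ := beta_facts H
  have h5 : Real.tan (κ * π) * (Phi κ τ a₁ a₂ a₁).re = Real.tan (κ * π) * (Phi κ τ a₁ a₂ a₂).re := by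
    linarith
  exact mul_left_cancel₀ ht.ne' h5

end

/-- The logarithmic graph of the slit of the example. -/
noncomputable def thetaE (κ τ a₁ a₂ : ℝ) (x : ℝ) : ℝ :=
  (Phi κ τ a₁ a₂ τ).im - Real.tan (κ * π) *
    (min x (Phi κ τ a₁ a₂ a₁).re - (Phi κ τ a₁ a₂ τ).re)

section

variable {κ τ a₁ a₂ : ℝ}

theorem continuous_thetaE : Continuous (thetaE κ τ a₁ a₂) := by
  unfold thetaE
  fun_prop

variable (H : Params κ τ a₁ a₂)

include H

theorem tip_lt : (Phi κ τ a₁ a₂ τ).re < (Phi κ τ a₁ a₂ a₁).re :=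
  (arc2 H le_rfl H.h2.le le_rfl).2.2 H.h2

/-- All boundary values lie on the slit. -/
theorem Phi_mem {y : ℝ} (hy : y ∈ Ioo (-π) π) :
    (Phi κ τ a₁ a₂ τ).re ≤ (Phi κ τ a₁ a₂ y).re ∧
      (Phi κ τ a₁ a₂ y).im = thetaE κ τ a₁ a₂ (Phi κ τ a₁ a₂ y).re := by
  have htip := tip_lt H
  have hre12 := re_a1_eq_re_a2 H
  have him1 := im_a1_eq H
  have him2 := im_a2_eq H
  have hmain := (arc2 H le_rfl H.h2.le le_rfl).1
  rcases le_total y a₁ with h | h
  · have h1 := arc1 H hy.1 h le_rfl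
    refine ⟨by linarith [h1.2], ?_⟩
    rw [thetaE, min_eq_right h1.2, ← h1.1]
    linarith
  rcases le_total y τ with h' | h'
  · have h1 := arc2 H h h' le_rfl
    have h2 := arc2 H le_rfl h h'
    refine ⟨h1.2.1, ?_⟩
    rw [thetaE, min_eq_left h2.2.1]
    linarith [h1.1]
  rcases le_total y a₂ with h'' | h''
  · have h1 := arc3' H h' h''
    have h2 := arc3' H le_rfl H.h3.le
    have h3 : (Phi κ τ a₁ a₂ τ).re ≤ (Phi κ τ a₁ a₂ y).re := by
      rcases h''.eq_or_lt with rfl | h4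
      · linarith
      · exact (arc3 H le_rfl h' h4).2
    refine ⟨h3, ?_⟩
    rw [thetaE, hre12, min_eq_left h1.2]
    linarith [h1.1, h2.1]
  · have h1 := arc4' H h'' hy.2
    have h2 := arc3' H le_rfl H.h3.le
    refine ⟨by linarith [h1.2], ?_⟩
    rw [thetaE, hre12, min_eq_right h1.2, h1.1]
    linarith [h2.1]

theorem exp_Phi_mem {y : ℝ} (hy : y ∈ Ioo (-π) π) :
    exp (Phi κ τ a₁ a₂ y) ∈ slitSet (thetaE κ τ a₁ a₂) (Phi κ τ a₁ a₂ τ).re := by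
  obtain ⟨h1, h2⟩ := Phi_mem H hy
  refine ⟨(Phi κ τ a₁ a₂ y).re, h1, ?_⟩
  show exp _ = _
  rw [← h2, re_add_im]

theorem exists_Phi_re {x : ℝ} (hx : (Phi κ τ a₁ a₂ τ).re ≤ x) :
    ∃ y ∈ Ioo (-π) π, (Phi κ τ a₁ a₂ y).re = x := by
  have hpi := Real.pi_pos
  have hh1 := H.h1; have hh2 := H.h2; have hh3 := H.h3; have hh4 := H.h4
  obtain ⟨M, hM⟩ := (isCompact_closedBall (0 : ℂ) 1).exists_bound_of_continuousOn
    (continuousOn_Bf H)
  have h1 : Tendsto (fun y : ℝ => 2 * Real.cos (y / 2)) (𝓝[<] π) (𝓝[>] 0) := by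
    apply tendsto_nhdsWithin_of_tendsto_nhds_of_eventually_within
    · have h2 : ContinuousAt (fun y : ℝ => 2 * Real.cos (y / 2)) π := by fun_prop
      have h3 := h2.tendsto
      rw [Real.cos_pi_div_two, mul_zero] at h3
      exact h3.mono_left nhdsWithin_le_nhds
    · have hev : ∀ᶠ y in 𝓝[<] π, y ∈ Ioo (-π) π := Ioo_mem_nhdsLT (by linarith)
      filter_upwards [hev] with y hy using cos_half_pos hy
  have h2 : Tendsto (fun y : ℝ => -M - 2 * Real.log (2 * Real.cos (y / 2))) (𝓝[<] π) atTop := by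
    have h3 : Tendsto (fun y : ℝ => Real.log (2 * Real.cos (y / 2))) (𝓝[<] π) atBot :=
      Real.tendsto_log_nhdsGT_zero.comp h1
    have h4 := h3.const_mul_atBot_of_neg (show (-2 : ℝ) < 0 by norm_num)
    have h5 := tendsto_atTop_add_const_left _ (-M) h4
    refine h5.congr fun y => ?_
    ring
  have hev : ∀ᶠ y in 𝓝[<] π, y ∈ Ioo τ π := Ioo_mem_nhdsLT (by linarith)
  obtain ⟨y₁, hy₁, hy₁x⟩ := (hev.and (h2.eventually_ge_atTop x)).exists
  have h6 : x ≤ (Phi κ τ a₁ a₂ y₁).re := by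
    rw [Phi_re]
    have h7 := hM (exp (y₁ * I)) (by rw [mem_closedBall_zero_iff, norm_exp_ofReal_mul_I])
    have h8 := (abs_le.1 ((abs_re_le_norm _).trans h7)).1
    linarith
  have hsub : Icc τ y₁ ⊆ Ioo (-π) π := fun y hy => ⟨by linarith [hy.1], by linarith [hy.2, hy₁.2]⟩
  obtain ⟨y, hy, hyx⟩ := isPreconnected_Icc.intermediate_value (left_mem_Icc.2 hy₁.1.le)
    (right_mem_Icc.2 hy₁.1.le) ((cont_re H).mono hsub) (⟨hx, h6⟩ : x ∈ Icc _ _)
  exact ⟨y, hsub hy, hyx⟩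

/-- **The example is a slit map.** -/
theorem fe_cover : InjOn (fe κ τ a₁ a₂) (ball 0 1) ∧
    fe κ τ a₁ a₂ '' ball 0 1 = (slitSet (thetaE κ τ a₁ a₂) (Phi κ τ a₁ a₂ τ).re)ᶜ := by
  have hcont : ∀ ζ : ℂ, ‖ζ‖ = 1 → ζ ≠ -1 →
      Tendsto (fe κ τ a₁ a₂) (𝓝[ball 0 1] ζ) (𝓝 (fe κ τ a₁ a₂ ζ)) := by
    intro ζ hζ hne
    have h1 := continuousOn_fe H ζ ⟨by rw [mem_closedBall_zero_iff, hζ], hne⟩
    refine h1.tendsto.mono_left (nhdsWithin_mono _ ?_)
    intro z hz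
    refine ⟨ball_subset_closedBall hz, ?_⟩
    intro h
    rw [mem_singleton_iff] at h
    rw [h, mem_ball_zero_iff, norm_neg, norm_one] at hz
    exact lt_irrefl _ hz
  apply cover differentiableOn_fe (fun z hz => deriv_fe_ne_zero hz)
    (fun z hz => fe_eq_zero_iff hz) zero_notMem_slitSet
  · intro ζ hζ hne
    refine ⟨fe κ τ a₁ a₂ ζ, ?_, hcont ζ hζ hne⟩
    set y := arg ζ with hy
    have hexpy : exp (y * I) = ζ := by
      have := norm_mul_exp_arg_mul_I ζ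
      rw [hζ] at this
      simpa using this
    have hyI : y ∈ Ioo (-π) π := by
      refine ⟨neg_pi_lt_arg _, lt_of_le_of_ne (arg_le_pi _) ?_⟩
      intro h
      apply hne
      rw [← hexpy, h, exp_pi_mul_I]
    rw [← hexpy, fe_exp hyI]
    exact exp_Phi_mem H hyI
  · refine (tendsto_fe_neg_one H).mono_left (nhdsWithin_mono _ ?_)
    intro z hz
    refine ⟨ball_subset_closedBall hz, ?_⟩
    intro h
    rw [mem_singleton_iff] at h
    rw [h, mem_ball_zero_iff, norm_neg, norm_one] at hz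
    exact lt_irrefl _ hz
  · rintro w ⟨x, hx, rfl⟩
    obtain ⟨y, hy, hyx⟩ := exists_Phi_re H hx
    refine ⟨exp (y * I), norm_exp_ofReal_mul_I y, ?_⟩
    have h1 := hcont (exp (y * I)) (norm_exp_ofReal_mul_I y) (neg_one_ne hy.1 hy.2).symm
    have h2 : fe κ τ a₁ a₂ (exp (y * I)) = exp (x + thetaE κ τ a₁ a₂ x * I) := by
      rw [fe_exp hy]
      congr 1
      have h3 := (Phi_mem H hy).2
      rw [hyx] at h3
      conv_lhs => rw [← re_add_im (Phi κ τ a₁ a₂ y), hyx, h3]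
    rw [h2] at h1
    exact h1
  · exact isPreconnected_compl_slitSet continuous_thetaE
  · exact interior_slitSet

end

end Pool.Agent.Helper45.Slit
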