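import Pool.Agent.Helper45.Slit.Tip2

/-!
# The upper bound for the tip position
-/

namespace Pool.Agent.Helper45.Slit

open Set Metric Filter Topology MeasureTheory Complex

open scoped ENNReal Real ComplexConjugate

theorem sin_two_arg_sub {z : ℂ} :
    ‖1 + z‖ ^ 2 * ‖z‖ * |Real.sin (2 * arg (1 + z) - arg z)| = |z.im| * |1 - ‖z‖ ^ 2| := by
  have h1 := norm_mul_exp_arg_mul_I (1 + z)
  have h2 := norm_mul_exp_arg_mul_I z
  have h3 : conj z = (‖z‖ : ℂ) * exp (-(arg z * I)) := by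
    conv_lhs => rw [← h2]
    rw [map_mul, conj_ofReal, ← exp_conj]
    simp
  have h4 : (1 + z) ^ 2 * conj z =
      ((‖1 + z‖ ^ 2 * ‖z‖ : ℝ) : ℂ) * exp (((2 * arg (1 + z) - arg z : ℝ) : ℂ) * I) := by
    rw [h3]
    conv_lhs => rw [← h1]
    rw [mul_pow, ← exp_nat_mul]
    have h5 : exp (((2 * arg (1 + z) - arg z : ℝ) : ℂ) * I) =
        exp (((2 : ℕ) : ℂ) * (arg (1 + z) * I)) * exp (-(arg z * I)) := by
      rw [← exp_add]; congr 1; push_cast; ring
    rw [h5]
    push_cast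
    ring
  have h6 : ((1 + z) ^ 2 * conj z).im = -(z.im * (1 - ‖z‖ ^ 2)) := by
    have h7 : (1 + z) ^ 2 * conj z = conj z + 2 * (z * conj z) + z * (z * conj z) := by ring
    rw [h7, mul_conj, normSq_eq_norm_sq]
    simp [-ofReal_pow]
    ring
  rw [h4, im_ofReal_mul, exp_ofReal_mul_I_im] at h6
  have h8 := congrArg abs h6
  rw [abs_neg, abs_mul, abs_mul z.im, abs_of_nonneg (by positivity : 0 ≤ ‖1 + z‖ ^ 2 * ‖z‖)] at h8
  exact h8

namespace Setup

variable {θ : ℝ → ℝ} {K ρ₀ φ : ℝ} {f L : ℂ → ℂ} (S : Setup θ K ρ₀ φ f L)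

include S

theorem sin_le (hn : Tendsto (hgt θ L) (𝓝[LH] (φ * I)) (𝓝 0)) :
    |Real.sin φ| ≤ K * (1 + Real.cos φ) := by
  have hK := S.hK
  have hpi := Real.pi_pos
  set C : Set ℂ := {z | (1 + ‖z‖) * |z.im| ≤ K * ‖1 + z‖ ^ 2} with hC
  have hCc : IsClosed C := isClosed_le (by fun_prop) (by fun_prop)
  have hslit : exp (φ * I) ∈ slitPlane := by
    rw [mem_slitPlane_iff_arg]
    refine ⟨?_, exp_ne_zero _⟩
    rw [arg_exp_mul_I, (toIocMod_eq_self Real.two_pi_pos).2]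
    · exact S.hφ.2.ne
    · exact ⟨S.hφ.1, by linarith [S.hφ.2]⟩
  have hlogy : Complex.log (exp (φ * I)) = φ * I :=
    log_exp (by simpa using S.hφ.1) (by simpa using S.hφ.2.le)
  have hmem : exp (φ * I) ∈ C := by
    rw [← hCc.closure_eq, Metric.mem_closure_iff]
    intro δ hδ
    -- good neighbourhood
    have h3 : Tendsto Complex.log (𝓝[ball 0 1] (exp (φ * I))) (𝓝[LH] (φ * I)) := by
      apply tendsto_nhdsWithin_of_tendsto_nhds_of_eventually_within
      · have := (continuousAt_clog hslit).tendsto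
        rw [hlogy] at this
        exact this.mono_left nhdsWithin_le_nhds
      · have h4 : ∀ᶠ z in 𝓝[ball 0 1] (exp (φ * I)), z ≠ 0 :=
          nhdsWithin_le_nhds (isOpen_ne.mem_nhds (exp_ne_zero _))
        filter_upwards [self_mem_nhdsWithin, h4] with z hz hz0
        rw [mem_LH, Complex.log_re]
        exact Real.log_neg (norm_pos_iff.2 hz0) (mem_ball_zero_iff.1 hz)
    have h5 := (S.tendsto_F_tip hn).comp h3
    have h6 : ∀ᶠ z in 𝓝[ball 0 1] (exp (φ * I)),
        ‖Flog L (Complex.log z) - (ρ₀ + θ ρ₀ * I)‖ < 1 := by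
      have := h5.eventually (Metric.ball_mem_nhds _ one_pos)
      filter_upwards [this] with z hz
      rwa [dist_eq_norm] at hz
    have h7 : ∀ᶠ z in 𝓝[ball 0 1] (exp (φ * I)), z ≠ 0 :=
      nhdsWithin_le_nhds (isOpen_ne.mem_nhds (exp_ne_zero _))
    have h8 := h6.and h7
    rw [eventually_nhdsWithin_iff] at h8
    obtain ⟨r, hr, hb⟩ := Metric.eventually_nhds_iff_ball.1 h8
    obtain ⟨a, ha0, ha1, hza⟩ := S.exists_below hn (δ := min δ r) (η := 1) (by positivity) one_pos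
    rw [lt_min_iff] at hza
    set w : ℂ := exp ((ρ₀ - a : ℝ) + θ ρ₀ * I) with hw
    set z := Function.invFunOn f (ball 0 1) w with hz
    have hwmem : w ∈ f '' ball 0 1 := by
      rw [S.mem_image, hw, exp_mem_slitSet_iff]
      rintro ⟨h9, -⟩
      simp at h9
      linarith
    have hzb : z ∈ ball (0 : ℂ) 1 := invFunOn_mem hwmem
    have hfz : f z = w := f_invFunOn hwmem
    refine ⟨z, ?_, ?_⟩
    swap
    · rw [dist_comm, dist_eq_norm]; exact hza.1
    obtain ⟨h9, hz0⟩ := hb z (by rw [mem_ball, dist_eq_norm]; exact hza.2) hzb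
    have hr0 : 0 < ‖z‖ := norm_pos_iff.2 hz0
    have hr1 : ‖z‖ < 1 := mem_ball_zero_iff.1 hzb
    set ζ := Complex.log z with hζ
    have hζz : exp ζ = z := exp_log hz0
    have hζLH : ζ ∈ LH := by
      rw [mem_LH, hζ, Complex.log_re]
      exact Real.log_neg hr0 hr1
    have h10 : exp (Flog L ζ) = exp ((ρ₀ - a : ℝ) + θ ρ₀ * I) := by
      rw [S.exp_F hζLH, hζz, hfz]
    obtain ⟨n, hn'⟩ := exp_eq_exp_iff_exists_int.1 h10
    have hn0 : n = 0 := by
      have h11 : |(Flog L ζ - (ρ₀ + θ ρ₀ * I)).im| < 1 := (abs_im_le_norm _).trans_lt h9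
      have h12 : (Flog L ζ - (ρ₀ + θ ρ₀ * I)).im = n * (2 * π) := by
        rw [hn']; simp
      rw [h12, abs_mul, abs_of_pos (by positivity : 0 < 2 * π)] at h11
      have h13 : |(n : ℝ)| < 1 := by
        by_contra h; push Not at h
        nlinarith [Real.pi_gt_three]
      have h14 : |n| < 1 := by exact_mod_cast h13
      exact Int.abs_lt_one_iff.1 h14
    rw [hn0] at hn'
    have hLz : L z = (ρ₀ - a : ℝ) + θ ρ₀ * I - ζ := by
      have : Flog L ζ = L z + ζ := by rw [Flog, hζz]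
      rw [this] at hn'
      rw [← sub_eq_iff_eq_add.2 hn'.symm]
      simp
    have hLre : (L z).re = ρ₀ - a - Real.log ‖z‖ := by
      rw [hLz, hζ]; simp [Complex.log_re]
    have hLim : (L z).im = θ ρ₀ - arg z := by
      rw [hLz, hζ]; simp [Complex.log_im]
    have m1 := S.main_ineq hn (s := 1) (by simp) hzb
    have m2 := S.main_ineq hn (s := -1) (by simp) hzb
    rw [hLre, hLim] at m1 m2
    have hlog : -Real.log ‖z‖ ≤ 1 / ‖z‖ - 1 := by
      have := Real.log_le_sub_one_of_pos (show 0 < 1 / ‖z‖ by positivity)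
      rwa [one_div, Real.log_inv, ← one_div] at this
    have hKa : 0 ≤ K * a := mul_nonneg hK ha0.le
    have habs : |2 * arg (1 + z) - arg z| ≤ K * (1 / ‖z‖ - 1) := by
      have h15 : K * (-Real.log ‖z‖) ≤ K * (1 / ‖z‖ - 1) := by gcongr
      rw [abs_le]
      constructor <;> nlinarith
    have hsin := (Real.abs_sin_le_abs (x := 2 * arg (1 + z) - arg z)).trans habs
    have hid := sin_two_arg_sub (z := z)
    have h16 : 0 ≤ 1 - ‖z‖ ^ 2 := by nlinarith
    rw [abs_of_nonneg h16] at hid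
    have h17 : |z.im| * (1 - ‖z‖ ^ 2) ≤ ‖1 + z‖ ^ 2 * ‖z‖ * (K * (1 / ‖z‖ - 1)) := by
      rw [← hid]; gcongr
    have h18 : ‖1 + z‖ ^ 2 * ‖z‖ * (K * (1 / ‖z‖ - 1)) = (K * ‖1 + z‖ ^ 2) * (1 - ‖z‖) := by
      field_simp
    rw [h18] at h17
    have h19 : |z.im| * (1 - ‖z‖ ^ 2) = ((1 + ‖z‖) * |z.im|) * (1 - ‖z‖) := by ring
    rw [h19] at h17
    exact le_of_mul_le_mul_right h17 (by linarith)
  have h20 : (1 + ‖exp (φ * I)‖) * |(exp (φ * I)).im| ≤ K * ‖1 + exp (φ * I)‖ ^ 2 := hmem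
  rw [norm_exp_ofReal_mul_I, exp_ofReal_mul_I_im, ← normSq_eq_norm_sq, normSq_apply, add_re, add_im,
    exp_ofReal_mul_I_re, exp_ofReal_mul_I_im, one_re, one_im] at h20
  have h21 := Real.sin_sq_add_cos_sq φ
  nlinarith

end Setup

/-- **Upper bound.** -/
theorem Setup.upper {θ : ℝ → ℝ} {β ρ₀ φ : ℝ} {f L : ℂ → ℂ} (hβ0 : 0 ≤ β) (hβ : β < π / 2)
    (S : Setup θ (Real.tan β) ρ₀ φ f L) : |φ| ≤ 2 * β := by
  obtain ⟨θ', S', hn⟩ := S.exists_normalised
  have h1 := S'.sin_le hn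
  have hpi := Real.pi_pos
  set t := |φ| / 2 with ht
  have hφ : |φ| < π := abs_lt.2 S.hφ
  have ht1 : t < π / 2 := by rw [ht]; linarith
  have ht0 : 0 ≤ t := by positivity
  have hcos : 0 < Real.cos t := Real.cos_pos_of_mem_Ioo ⟨by linarith, ht1⟩
  have hcosβ : 0 < Real.cos β := Real.cos_pos_of_mem_Ioo ⟨by linarith, hβ⟩
  have hsin : |Real.sin φ| = 2 * Real.sin t * Real.cos t := by
    have h2 : |Real.sin φ| = Real.sin |φ| := Real.abs_sin_eq_sin_abs_of_abs_le_pi hφ.le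
    rw [h2, ← Real.sin_two_mul, ht]
    congr 1; ring
  have hcos2 : 1 + Real.cos φ = 2 * Real.cos t ^ 2 := by
    have h2 : Real.cos φ = Real.cos |φ| := (Real.cos_abs φ).symm
    have h3 : |φ| = 2 * t := by rw [ht]; ring
    rw [h2, h3, Real.cos_two_mul]; ring
  rw [hsin, hcos2] at h1
  have h2 : Real.sin t ≤ Real.tan β * Real.cos t := by
    by_contra hcon
    push Not at hcon
    nlinarith
  rw [Real.tan_eq_sin_div_cos, div_mul_eq_mul_div, le_div_iff₀ hcosβ] at h2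
  have h3 : Real.sin (t - β) ≤ 0 := by
    rw [Real.sin_sub]; linarith
  have h4 : t - β ≤ 0 := by
    by_contra hcon
    push Not at hcon
    have := Real.sin_pos_of_pos_of_lt_pi hcon (by linarith)
    linarith
  have : |φ| = 2 * t := by rw [ht]; ring
  rw [this]; linarith

end Pool.Agent.Helper45.Slit
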