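import Pool.Agent.Helper45.Slit.Defs
import Pool.Agent.Helper45.Slit.Upper

/-!
# From piecewise analytic arcs to Lipschitz graphs in logarithmic coordinates
-/

namespace Pool.Agent.Helper45.Slit

open Set Metric Filter Topology MeasureTheory Complex

open scoped ENNReal Real

theorem hasTangentDir_of_hasDerivAt {γ : ℝ → ℂ} {t : ℝ} {c : ℂ} (h : HasDerivAt γ c t)
    (hc : c ≠ 0) : HasTangentDir γ t (c / ‖c‖) := by
  have hcn : (‖c‖ : ℂ) ≠ 0 := by simpa using hc
  have h1 : Tendsto (slope γ t) (𝓝[≠] t) (𝓝 c) := h.tendsto_slope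
  have h2 : ContinuousAt (fun w : ℂ => w / (‖w‖ : ℂ)) c :=
    continuousAt_id.div (by fun_prop) hcn
  have h3 : Tendsto (fun s => slope γ t s / (‖slope γ t s‖ : ℂ)) (𝓝[≠] t) (𝓝 (c / ‖c‖)) :=
    h2.tendsto.comp h1
  constructor
  · have h4 : Tendsto (fun s => slope γ t s / (‖slope γ t s‖ : ℂ)) (𝓝[>] t) (𝓝 (c / ‖c‖)) :=
      h3.mono_left (nhdsWithin_mono _ fun x hx => (ne_of_gt hx))
    refine h4.congr' ?_
    filter_upwards [self_mem_nhdsWithin] with s hs
    have hs' : 0 < (s - t)⁻¹ := inv_pos.2 (sub_pos.2 hs)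
    rw [slope_def_module, norm_smul, Real.norm_eq_abs, abs_of_pos hs', real_smul]
    push_cast
    have : (((s - t)⁻¹ : ℝ) : ℂ) ≠ 0 := by exact_mod_cast hs'.ne'
    push_cast at this
    rw [mul_div_mul_left _ _ this]
  · have h4 : Tendsto (fun s => slope γ t s / (‖slope γ t s‖ : ℂ)) (𝓝[Ico 0 t] t)
        (𝓝 (c / ‖c‖)) :=
      h3.mono_left (nhdsWithin_mono _ fun x hx => (ne_of_lt hx.2))
    refine h4.congr' ?_
    filter_upwards [self_mem_nhdsWithin] with s hs
    have hs' : 0 < (t - s)⁻¹ := inv_pos.2 (sub_pos.2 hs.2)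
    have h5 : slope γ t s = (t - s)⁻¹ • (γ t - γ s) := by
      rw [slope_comm, slope_def_module]
    rw [h5, norm_smul, Real.norm_eq_abs, abs_of_pos hs', real_smul]
    push_cast
    have : (((t - s)⁻¹ : ℝ) : ℂ) ≠ 0 := by exact_mod_cast hs'.ne'
    push_cast at this
    rw [mul_div_mul_left _ _ this]

/-- The sector inequality. -/
theorem abs_im_le_of_angle {c w : ℂ} (hc : c ≠ 0) (hw : w ≠ 0) {β : ℝ} (hβ : β < π / 2)
    (h : InnerProductGeometry.angle (c / ‖c‖) w ≤ β) :
    |(c / w).im| ≤ Real.tan β * (c / w).re := by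
  have hcn : (0 : ℝ) < ‖c‖ := norm_pos_iff.2 hc
  have hcn' : (‖c‖ : ℂ) ≠ 0 := by simpa using hc
  have hpi := Real.pi_pos
  rw [angle_eq_abs_arg (div_ne_zero hc hcn') hw] at h
  have h1 : c / ‖c‖ / w = (((‖c‖)⁻¹ : ℝ) : ℂ) * (c / w) := by push_cast; field_simp
  rw [h1, arg_real_mul _ (inv_pos.2 hcn)] at h
  set q := c / w with hq
  have hβ0 : 0 ≤ β := (abs_nonneg _).trans h
  have hcos : 0 < Real.cos β := Real.cos_pos_of_mem_Ioo ⟨by linarith, hβ⟩
  have hre : q.re = ‖q‖ * Real.cos (arg q) := (norm_mul_cos_arg q).symm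
  have him : q.im = ‖q‖ * Real.sin (arg q) := (norm_mul_sin_arg q).symm
  rw [hre, him, abs_mul, abs_norm]
  have h2 : |Real.sin (arg q)| = Real.sin |arg q| :=
    Real.abs_sin_eq_sin_abs_of_abs_le_pi (abs_arg_le_pi q)
  have h3 : Real.cos (arg q) = Real.cos |arg q| := (Real.cos_abs _).symm
  rw [h2, h3]
  have h4 : Real.sin |arg q| ≤ Real.tan β * Real.cos |arg q| := by
    rw [Real.tan_eq_sin_div_cos, div_mul_eq_mul_div, le_div_iff₀ hcos]
    have h5 : 0 ≤ Real.sin (β - |arg q|) := by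
      apply Real.sin_nonneg_of_nonneg_of_le_pi (by linarith)
      have := abs_nonneg (arg q)
      linarith
    rw [Real.sin_sub] at h5
    linarith
  have h6 := norm_nonneg q
  nlinarith

/-- Monotonicity along finitely many pieces. -/
theorem monotoneOn_of_pieces {h : ℝ → ℝ} {n : ℕ} {τ : ℕ → ℝ} (hτ0 : τ 0 = 0)
    (hτ : StrictMono τ) (h1 : ∀ i < n, MonotoneOn h (Icc (τ i) (τ (i + 1))))
    (h2 : MonotoneOn h (Ici (τ n))) : MonotoneOn h (Ici 0) := by
  have key : ∀ i ≤ n, MonotoneOn h (Icc 0 (τ i)) := by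
    intro i
    induction i with
    | zero =>
      intro _
      rw [hτ0]
      intro x hx y hy _
      have : x = y := by
        rw [le_antisymm hx.2 hx.1, le_antisymm hy.2 hy.1]
      rw [this]
    | succ i ih =>
      intro hi
      have h3 := ih (by omega)
      have h4 := h1 i (by omega)
      have h0i : 0 ≤ τ i := by rw [← hτ0]; exact hτ.monotone (Nat.zero_le i)
      have hii : τ i ≤ τ (i + 1) := hτ.monotone (Nat.le_succ i)
      have h5 := h3.union_right h4 (isGreatest_Icc h0i) (isLeast_Icc hii)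
      rwa [Icc_union_Icc_eq_Icc h0i hii] at h5
  have h0n : 0 ≤ τ n := by rw [← hτ0]; exact hτ.monotone (Nat.zero_le n)
  have h6 := (key n le_rfl).union_right h2 (isGreatest_Icc h0n) isLeast_Ici
  rwa [Icc_union_Ici_eq_Ici h0n] at h6

/-- Derivative of a continuous logarithm. -/
theorem hasDerivAt_lift {γ g : ℝ → ℂ} {t : ℝ} {c : ℂ} (hg : ContinuousAt g t)
    (he : ∀ᶠ s in 𝓝 t, exp (g s) = γ s) (h : HasDerivAt γ c t) :
    HasDerivAt g (c / γ t) t := by
  have het : exp (g t) = γ t := he.self_of_nhds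
  have hγ0 : γ t ≠ 0 := by rw [← het]; exact exp_ne_zero _
  have h1 : HasDerivAt (fun s => Complex.log (γ s / γ t) + g t) (c / γ t) t := by
    have h2 : HasDerivAt (fun s => γ s / γ t) (c / γ t) t := h.div_const _
    have h3 : γ t / γ t ∈ slitPlane := by rw [div_self hγ0]; exact one_mem_slitPlane
    have h4 := (h2.clog_real h3).add_const (g t)
    rwa [div_self hγ0, div_one] at h4
  refine h1.congr_of_eventuallyEq ?_
  have h5 : ∀ᶠ s in 𝓝 t, |(g s - g t).im| < π := by
    have h6 : ContinuousAt (fun s => |(g s - g t).im|) t := by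
      have : ContinuousAt (fun s => g s - g t) t := hg.sub continuousAt_const
      exact (continuous_im.continuousAt.comp this).abs
    apply h6.eventually (gt_mem_nhds _)
    simp [Real.pi_pos]
  filter_upwards [he, h5] with s hs1 hs2
  rw [← hs1, ← het, ← exp_sub, log_exp (abs_lt.1 hs2).1 (abs_lt.1 hs2).2.le]
  ring

/-- Interior points of a regular analytic piece. -/
theorem IsAnalyticArcOn.hasDerivAt {γ : ℝ → ℂ} {s : Set ℝ} (h : IsAnalyticArcOn γ s) {t : ℝ}
    (ht : t ∈ interior s) : ∃ c : ℂ, c ≠ 0 ∧ HasDerivAt γ c t := by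
  obtain ⟨c, hc, hd, he⟩ := h
  refine ⟨deriv c t, hd t (interior_subset ht), ?_⟩
  have h1 := (hc t (interior_subset ht)).differentiableAt.hasDerivAt
  refine h1.congr_of_eventuallyEq ?_
  filter_upwards [isOpen_interior.mem_nhds ht] with s' hs'
  exact he (interior_subset hs')

/-- **Reduction.** The slit is a Lipschitz graph in logarithmic coordinates. -/
theorem exists_graph {β : ℝ} (hβ0 : 0 < β) (hβ : β < π / 2) {closed : Prop} {γ : ℝ → ℂ}
    (harc : IsArcToInfinity γ) (hpw : IsPiecewiseAnalytic closed γ)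
    (hne : ∀ t, 0 ≤ t → γ t ≠ 0)
    (hang : ∀ t, 0 ≤ t → ∀ e, HasTangentDir γ t e → InnerProductGeometry.angle e (γ t) ≤ β) :
    ∃ (θ : ℝ → ℝ) (ρ₀ : ℝ), (∀ x y, |θ x - θ y| ≤ Real.tan β * |x - y|) ∧
      slitSet θ ρ₀ = γ '' Ici 0 ∧ exp (ρ₀ + θ ρ₀ * I) = γ 0 := by
  have hcosβ : 0 < Real.cos β := Real.cos_pos_of_mem_Ioo ⟨by linarith, hβ⟩
  have hK : 0 < Real.tan β := Real.tan_pos_of_pos_of_lt_pi_div_two hβ0 hβ
  -- the lift
  set γ₁ : ℝ → ℂ := fun t => γ (max t 0) with hγ₁
  have hγ₁c : Continuous γ₁ :=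
    harc.continuousOn.comp_continuous (by fun_prop) (fun t => mem_Ici.2 (le_max_right _ _))
  have hγ₁0 : (0 : ℂ) ∉ γ₁ '' univ := by
    rintro ⟨t, -, ht⟩
    exact hne _ (le_max_right _ _) ht
  obtain ⟨g, hgc, hge⟩ : ∃ g : ℝ → ℂ, Continuous g ∧ ∀ t, exp (g t) = γ₁ t := by
    have hsc : IsSimplyConnected (univ : Set ℝ) := by
      have h1 : ContractibleSpace (univ : Set ℝ) :=
        (Homeomorph.Set.univ ℝ).contractibleSpace
      exact (inferInstance : SimplyConnectedSpace (univ : Set ℝ))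
    obtain ⟨g, h1, h2⟩ := exists_continuousOn_eqOn_exp_comp hsc isOpen_univ hγ₁c.continuousOn hγ₁0
    exact ⟨g, continuousOn_univ.1 h1, fun t => h2 (mem_univ t)⟩
  have hgγ : ∀ t, 0 ≤ t → exp (g t) = γ t := by
    intro t ht; rw [hge t, hγ₁]; simp [ht]
  -- monotonicity
  have hmono : ∀ s : ℝ, |s| = 1 →
      MonotoneOn (fun t => Real.tan β * (g t).re + s * (g t).im) (Ici 0) := by
    intro s hs
    have hcont : Continuous (fun t => Real.tan β * (g t).re + s * (g t).im) :=
      (continuous_const.mul (continuous_re.comp hgc)).add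
        (continuous_const.mul (continuous_im.comp hgc))
    have piece : ∀ D : Set ℝ, Convex ℝ D → D ⊆ Ici 0 → IsAnalyticArcOn γ D →
        MonotoneOn (fun t => Real.tan β * (g t).re + s * (g t).im) D := by
      intro D hD hD0 hA
      have hder : ∀ t ∈ interior D, ∃ q : ℂ, |q.im| ≤ Real.tan β * q.re ∧
          HasDerivAt (fun t => Real.tan β * (g t).re + s * (g t).im)
            (Real.tan β * q.re + s * q.im) t := by
        intro t ht
        obtain ⟨c, hc, hd⟩ := hA.hasDerivAt ht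
        have ht0 : 0 ≤ t := hD0 (interior_subset ht)
        have ht0' : 0 < t := by
          have h1 : t ∈ interior (Ici (0 : ℝ)) := interior_mono hD0 ht
          rw [interior_Ici] at h1
          exact h1
        have hev : ∀ᶠ r in 𝓝 t, exp (g r) = γ r := by
          filter_upwards [lt_mem_nhds ht0'] with r hr using hgγ r (le_of_lt hr)
        have h2 := hasDerivAt_lift hgc.continuousAt hev hd
        refine ⟨c / γ t, abs_im_le_of_angle hc (hne t ht0) hβ
          (hang t ht0 _ (hasTangentDir_of_hasDerivAt hd hc)), ?_⟩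
        have h3 : HasDerivAt (fun t => (g t).re) (c / γ t).re t :=
          (reCLM.hasFDerivAt.comp_hasDerivAt t h2)
        have h4 : HasDerivAt (fun t => (g t).im) (c / γ t).im t :=
          (imCLM.hasFDerivAt.comp_hasDerivAt t h2)
        exact (h3.const_mul _).add (h4.const_mul _)
      apply monotoneOn_of_deriv_nonneg hD hcont.continuousOn
      · intro t ht
        obtain ⟨q, -, hq⟩ := hder t ht
        exact hq.differentiableAt.differentiableWithinAt
      · intro t ht
        obtain ⟨q, hq1, hq⟩ := hder t ht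
        rw [hq.deriv]
        have h5 : |s * q.im| ≤ Real.tan β * q.re := by rw [abs_mul, hs, one_mul]; exact hq1
        have := (abs_le.1 h5).1
        linarith
    obtain ⟨n, τ, hτ0, hτ, h1, h2, -⟩ := hpw
    have hτn : ∀ i, 0 ≤ τ i := fun i => by rw [← hτ0]; exact hτ.monotone (Nat.zero_le i)
    exact monotoneOn_of_pieces hτ0 hτ
      (fun i hi => piece _ (convex_Icc _ _) (fun t ht => (hτn i).trans ht.1) (h1 i hi))
      (piece _ (convex_Ici _) (fun t ht => (hτn n).trans ht) h2)
  have hlip : ∀ s t, 0 ≤ s → s ≤ t → |(g t).im - (g s).im| ≤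
      Real.tan β * ((g t).re - (g s).re) := by
    intro s t hs hst
    have h1 := hmono 1 (by simp) (show s ∈ Ici 0 from hs) (show t ∈ Ici 0 from hs.trans hst) hst
    have h2 := hmono (-1) (by simp) (show s ∈ Ici 0 from hs) (show t ∈ Ici 0 from hs.trans hst) hst
    simp only at h1 h2
    rw [abs_le]
    constructor <;> linarith
  have hremono : ∀ s t, 0 ≤ s → s ≤ t → (g s).re ≤ (g t).re := by
    intro s t hs hst
    have h1 := (abs_nonneg _).trans (hlip s t hs hst)
    by_contra hcon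
    push Not at hcon
    nlinarith
  have hreinj : ∀ s t, 0 ≤ s → 0 ≤ t → (g s).re = (g t).re → s = t := by
    intro s t hs ht hst
    wlog hle : s ≤ t generalizing s t
    · exact (this t s ht hs hst.symm (le_of_not_ge hle)).symm
    have h1 := hlip s t hs hle
    rw [hst, sub_self, mul_zero] at h1
    have h2 : (g t).im = (g s).im := sub_eq_zero.1 (abs_nonpos_iff.1 h1)
    have h3 : g s = g t := Complex.ext hst h2.symm
    apply harc.injOn hs ht
    rw [← hgγ s hs, ← hgγ t ht, h3]
  have hretop : Tendsto (fun t => (g t).re) atTop atTop := by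
    have h1 : Tendsto (fun t => Real.log ‖γ t‖) atTop atTop :=
      Real.tendsto_log_atTop.comp (tendsto_norm_cocompact_atTop.comp harc.tendsto)
    refine h1.congr' ?_
    filter_upwards [eventually_ge_atTop 0] with t ht
    rw [← hgγ t ht, norm_exp, Real.log_exp]
  -- the inverse of `Re g`
  have hsurj : ∀ x : ℝ, ∃ t, 0 ≤ t ∧ (g t).re = max x (g 0).re := by
    intro x
    obtain ⟨T, hT0, hT⟩ : ∃ T, 0 ≤ T ∧ max x (g 0).re ≤ (g T).re := by
      obtain ⟨T, h1, h2⟩ := ((eventually_ge_atTop 0).and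
        (hretop.eventually_ge_atTop (max x (g 0).re))).exists
      exact ⟨T, h1, h2⟩
    have h1 := isPreconnected_Icc.intermediate_value (left_mem_Icc.2 hT0) (right_mem_Icc.2 hT0)
      (f := fun t => (g t).re) (continuous_re.comp hgc).continuousOn
    obtain ⟨t, ht, ht2⟩ := h1 (⟨le_max_right _ _, hT⟩ : max x (g 0).re ∈ Icc _ _)
    exact ⟨t, ht.1, ht2⟩
  choose T hT0 hT using hsurj
  refine ⟨fun x => (g (T x)).im, (g 0).re, ?_, ?_, ?_⟩
  · intro x y
    wlog hle : T x ≤ T y generalizing x y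
    · have := this y x (le_of_not_ge hle)
      rwa [abs_sub_comm, abs_sub_comm y x] at this
    have h1 := hlip (T x) (T y) (hT0 x) hle
    rw [hT x, hT y] at h1
    rw [abs_sub_comm]
    refine h1.trans ?_
    have h2 : max y (g 0).re - max x (g 0).re ≤ |x - y| := by
      refine (le_abs_self _).trans ?_
      refine (abs_max_sub_max_le_abs y x (g 0).re).trans ?_
      rw [abs_sub_comm]
    exact mul_le_mul_of_nonneg_left h2 hK.le
  · have hT' : ∀ t, 0 ≤ t → T ((g t).re) = t := by
      intro t ht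
      apply hreinj _ _ (hT0 _) ht
      rw [hT, max_eq_left (hremono 0 t le_rfl ht)]
    ext w
    constructor
    · rintro ⟨x, hx, rfl⟩
      refine ⟨T x, hT0 x, ?_⟩
      rw [← hgγ _ (hT0 x)]
      have h1 : (g (T x)).re = x := by rw [hT x, max_eq_left hx]
      show exp (g (T x)) = exp (x + (g (T x)).im * I)
      congr 1
      conv_lhs => rw [← re_add_im (g (T x)), h1]
    · rintro ⟨t, ht, rfl⟩
      refine ⟨(g t).re, hremono 0 t le_rfl ht, ?_⟩
      show exp ((g t).re + (g (T (g t).re)).im * I) = γ t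
      rw [hT' t ht, re_add_im, hgγ t ht]
  · have h1 : T ((g 0).re) = 0 := by
      apply hreinj _ _ (hT0 _) le_rfl
      rw [hT, max_self]
    show exp ((g 0).re + (g (T (g 0).re)).im * I) = γ 0
    rw [h1, re_add_im, hgγ 0 le_rfl]

end Pool.Agent.Helper45.Slit
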