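import Pool.Agent.Helper45.Slit.Ex5
import Pool.Agent.Helper45.Slit.Reduce

/-!
# The example belongs to the class `S_α`
-/

namespace Pool.Agent.Helper45.Slit

open Set Metric Filter Topology MeasureTheory Complex

open scoped ENNReal Real

/-- The logarithmic spiral `t ↦ exp (A + t B)`. -/
noncomputable def spir (A B : ℂ) (t : ℝ) : ℂ := exp (A + t * B)

theorem hasDerivAt_spir (A B : ℂ) (t : ℝ) : HasDerivAt (spir A B) (B * spir A B t) t := by
  have h1 : HasDerivAt (fun t : ℝ => A + t * B) B t := by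
    simpa using ((Complex.ofRealCLM.hasDerivAt (x := t)).mul_const B).const_add A
  have h2 := h1.cexp
  rw [mul_comm] at h2
  exact h2

theorem analyticOnNhd_spir (A B : ℂ) (s : Set ℝ) : AnalyticOnNhd ℝ (spir A B) s := by
  intro t _
  have h1 : AnalyticAt ℝ (fun t : ℝ => (t : ℂ)) t := Complex.ofRealCLM.analyticAt t
  have h2 : AnalyticAt ℝ (fun t : ℝ => A + t * B) t :=
    analyticAt_const.add (h1.mul analyticAt_const)
  have h3 : AnalyticAt ℝ exp (A + t * B) :=
    (analyticAt_cexp (z := A + t * B)).restrictScalars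
  exact AnalyticAt.comp (g := exp) (f := fun t : ℝ => A + t * B) h3 h2

theorem spir_ne_zero (A B : ℂ) (t : ℝ) : spir A B t ≠ 0 := exp_ne_zero _

theorem isAnalyticArcOn_of_spir {γ : ℝ → ℂ} {A B : ℂ} (hB : B ≠ 0) {s : Set ℝ}
    (h : EqOn γ (spir A B) s) : IsAnalyticArcOn γ s :=
  ⟨spir A B, analyticOnNhd_spir A B s, fun t _ => by
    rw [(hasDerivAt_spir A B t).deriv]; exact mul_ne_zero hB (spir_ne_zero _ _ _), h⟩

/-- The angle of the tangent direction of a spiral piece. -/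
theorem angle_of_spir {γ : ℝ → ℂ} {A B : ℂ} (hB : B ≠ 0) {t : ℝ} {e : ℂ}
    (h : ∀ᶠ s in 𝓝[>] t, γ s = spir A B s) (ht : γ t = spir A B t) (he : HasTangentDir γ t e) :
    InnerProductGeometry.angle e (γ t) = |arg B| := by
  have h1 := (hasTangentDir_of_hasDerivAt (hasDerivAt_spir A B t)
    (mul_ne_zero hB (spir_ne_zero A B t))).1
  have h2 : Tendsto (fun s => (γ s - γ t) / (‖γ s - γ t‖ : ℂ)) (𝓝[>] t)
      (𝓝 (B * spir A B t / ‖B * spir A B t‖)) := by
    refine h1.congr' ?_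
    filter_upwards [h] with s hs
    rw [hs, ht]
  have h3 : e = B * spir A B t / ‖B * spir A B t‖ := tendsto_nhds_unique he.1 h2
  have hw := spir_ne_zero A B t
  have hBw : B * spir A B t ≠ 0 := mul_ne_zero hB hw
  have hn : (0 : ℝ) < ‖B * spir A B t‖ := norm_pos_iff.2 hBw
  have hn' : ((‖B * spir A B t‖ : ℝ) : ℂ) ≠ 0 := by exact_mod_cast hn.ne'
  rw [h3, ht, angle_eq_abs_arg (div_ne_zero hBw hn') hw]
  have h4 : B * spir A B t / ‖B * spir A B t‖ / spir A B t =
      (((‖B * spir A B t‖)⁻¹ : ℝ) : ℂ) * B := by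
    push_cast; field_simp
  rw [h4, arg_real_mul _ (inv_pos.2 hn)]

/-- The curve of the example. -/
noncomputable def gammaE (κ τ a₁ a₂ : ℝ) (t : ℝ) : ℂ :=
  exp (((Phi κ τ a₁ a₂ τ).re + t : ℝ) + thetaE κ τ a₁ a₂ ((Phi κ τ a₁ a₂ τ).re + t) * I)

section

variable {κ τ a₁ a₂ : ℝ} (H : Params κ τ a₁ a₂)

include H

omit H in
theorem norm_gammaE (t : ℝ) : ‖gammaE κ τ a₁ a₂ t‖ = Real.exp ((Phi κ τ a₁ a₂ τ).re + t) := by
  rw [gammaE, norm_exp]; simp

omit H in
theorem gammaE_eq_left {t : ℝ} (h : t ≤ (Phi κ τ a₁ a₂ a₁).re - (Phi κ τ a₁ a₂ τ).re) :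
    gammaE κ τ a₁ a₂ t = spir ((Phi κ τ a₁ a₂ τ).re + (Phi κ τ a₁ a₂ τ).im * I)
      (1 - Real.tan (κ * π) * I) t := by
  rw [gammaE, spir, thetaE, min_eq_left (by linarith)]
  congr 1
  push_cast; ring

omit H in
theorem gammaE_eq_right {t : ℝ} (h : (Phi κ τ a₁ a₂ a₁).re - (Phi κ τ a₁ a₂ τ).re ≤ t) :
    gammaE κ τ a₁ a₂ t = spir ((Phi κ τ a₁ a₂ τ).re + ((Phi κ τ a₁ a₂ τ).im -
      Real.tan (κ * π) * ((Phi κ τ a₁ a₂ a₁).re - (Phi κ τ a₁ a₂ τ).re)) * I) 1 t := by
  rw [gammaE, spir, thetaE, min_eq_right (by linarith)]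
  congr 1
  push_cast; ring

omit H in
theorem isArc_gammaE : IsArcToInfinity (gammaE κ τ a₁ a₂) where
  continuousOn := by
    apply Continuous.continuousOn
    unfold gammaE
    have h1 := continuous_thetaE (κ := κ) (τ := τ) (a₁ := a₁) (a₂ := a₂)
    have h2 : Continuous (fun t : ℝ => thetaE κ τ a₁ a₂ ((Phi κ τ a₁ a₂ τ).re + t)) :=
      h1.comp (by fun_prop)
    fun_prop
  injOn := by
    intro s _ t _ hst
    have h1 := congrArg norm hst
    rw [norm_gammaE, norm_gammaE] at h1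
    have h2 := Real.exp_injective h1
    linarith
  tendsto := by
    rw [← Metric.cobounded_eq_cocompact, ← tendsto_norm_atTop_iff_cobounded]
    have h1 : Tendsto (fun t => Real.exp ((Phi κ τ a₁ a₂ τ).re + t)) atTop atTop :=
      Real.tendsto_exp_atTop.comp (tendsto_atTop_add_const_left _ _ tendsto_id)
    exact h1.congr fun t => (norm_gammaE t).symm

omit H in
theorem one_sub_tan_ne : (1 - Real.tan (κ * π) * I : ℂ) ≠ 0 := by
  intro h
  have := congrArg Complex.re h
  simp [-ofReal_tan] at this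

theorem isPiecewise_gammaE (closed : Prop) : IsPiecewiseAnalytic closed (gammaE κ τ a₁ a₂) := by
  have htip := tip_lt H
  set ℓ := (Phi κ τ a₁ a₂ a₁).re - (Phi κ τ a₁ a₂ τ).re with hℓ
  have hℓ0 : 0 < ℓ := by rw [hℓ]; linarith
  refine ⟨1, fun k => k * ℓ, by simp, ?_, ?_, ?_, ?_⟩
  · intro m n hmn
    have : (m : ℝ) < n := by exact_mod_cast hmn
    show (m : ℝ) * ℓ < n * ℓ
    nlinarith
  · intro i hi
    interval_cases i
    apply isAnalyticArcOn_of_spir (one_sub_tan_ne)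
    intro t ht
    apply gammaE_eq_left
    have h1 := ht.2
    simp only [zero_add, Nat.cast_one, one_mul] at h1
    exact h1
  · apply isAnalyticArcOn_of_spir (one_ne_zero)
    intro t ht
    apply gammaE_eq_right
    have h1 : ((1 : ℕ) : ℝ) * ℓ ≤ t := ht
    rw [Nat.cast_one, one_mul] at h1
    exact h1
  · intro _
    set A : ℂ := (Phi κ τ a₁ a₂ τ).re + ((Phi κ τ a₁ a₂ τ).im -
      Real.tan (κ * π) * ((Phi κ τ a₁ a₂ a₁).re - (Phi κ τ a₁ a₂ τ).re)) * I with hA
    have hA' : ∀ t, ℓ ≤ t → gammaE κ τ a₁ a₂ t = spir A 1 t := fun t ht => gammaE_eq_right ht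
    set c₀ : ℂ := exp (-(A + ℓ)) with hc₀
    have hc0 : c₀ ≠ 0 := exp_ne_zero _
    refine ⟨fun u => u * c₀, ?_, ?_, ?_, by simp, ?_⟩
    · intro u _
      have h1 : AnalyticAt ℝ (fun t : ℝ => (t : ℂ)) u := Complex.ofRealCLM.analyticAt u
      exact h1.mul analyticAt_const
    · intro u _
      have h1 : HasDerivAt (fun u : ℝ => (u : ℂ) * c₀) c₀ u := by
        simpa using (Complex.ofRealCLM.hasDerivAt (x := u)).mul_const c₀
      rw [h1.deriv]; exact hc0
    · intro u _ v _ huv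
      have := mul_right_cancel₀ hc0 huv
      exact_mod_cast this
    · ext w
      constructor
      · rintro ⟨t, ht, rfl⟩
        have ht' : ℓ ≤ t := by
          have h1 : ((1 : ℕ) : ℝ) * ℓ ≤ t := ht
          rwa [Nat.cast_one, one_mul] at h1
        refine ⟨Real.exp (ℓ - t), ⟨Real.exp_pos _, Real.exp_le_one_iff.2 (by linarith)⟩, ?_⟩
        show ((Real.exp (ℓ - t) : ℂ) * c₀)⁻¹ = gammaE κ τ a₁ a₂ t
        rw [hA' t ht', spir, hc₀, ofReal_exp, ← exp_add, ← exp_neg]
        congr 1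
        push_cast; ring
      · rintro ⟨u, hu, rfl⟩
        have hlog : Real.log u ≤ 0 := Real.log_nonpos hu.1.le hu.2
        refine ⟨ℓ - Real.log u, ?_, ?_⟩
        · show ((1 : ℕ) : ℝ) * ℓ ≤ ℓ - Real.log u
          push_cast; linarith
        · show gammaE κ τ a₁ a₂ (ℓ - Real.log u) = ((u : ℂ) * c₀)⁻¹
          rw [hA' _ (by linarith), spir, hc₀]
          have h2 : (u : ℂ) = exp (Real.log u : ℂ) := by
            rw [← ofReal_exp, Real.exp_log hu.1]
          rw [h2, ← exp_add, ← exp_neg]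
          congr 1
          push_cast; ring

omit H in
theorem image_gammaE : gammaE κ τ a₁ a₂ '' Ici 0 =
    slitSet (thetaE κ τ a₁ a₂) (Phi κ τ a₁ a₂ τ).re := by
  ext w
  constructor
  · rintro ⟨t, ht, rfl⟩
    exact ⟨(Phi κ τ a₁ a₂ τ).re + t, by simpa using ht, rfl⟩
  · rintro ⟨x, hx, rfl⟩
    refine ⟨x - (Phi κ τ a₁ a₂ τ).re, mem_Ici.2 (sub_nonneg.2 hx), ?_⟩
    rw [gammaE]
    simp

theorem arg_one_sub_tan : |arg (1 - Real.tan (κ * π) * I)| = κ * π := by
  obtain ⟨hc, hs, ht, hb0, hb1⟩ := beta_facts H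
  have hpi := Real.pi_pos
  have h1 : (1 - Real.tan (κ * π) * I : ℂ) =
      (((Real.cos (κ * π))⁻¹ : ℝ) : ℂ) * exp (((-(κ * π) : ℝ) : ℂ) * I) := by
    apply Complex.ext
    · rw [re_ofReal_mul, exp_ofReal_mul_I_re, Real.cos_neg, inv_mul_cancel₀ hc.ne']
      simp [-ofReal_tan]
    · rw [im_ofReal_mul, exp_ofReal_mul_I_im, Real.sin_neg]
      simp only [sub_im, one_im, mul_im, ofReal_re, I_im, mul_one, ofReal_im, I_re, mul_zero,
        add_zero, zero_sub, mul_neg]
      rw [Real.tan_eq_sin_div_cos]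
      field_simp
  rw [h1, arg_real_mul _ (inv_pos.2 hc), arg_exp_mul_I, (toIocMod_eq_self Real.two_pi_pos).2
    ⟨by linarith, by linarith⟩, abs_neg, abs_of_pos hb0]

theorem isSlitMap_fe (closed : Prop) {α : ℝ} (hα : κ ≤ α / 2) :
    IsSlitMap closed α (fe κ τ a₁ a₂) (gammaE κ τ a₁ a₂) where
  differentiableOn := differentiableOn_fe
  injOn := (fe_cover H).1
  map_zero := fe_zero
  deriv_zero := deriv_fe_zero
  arc := isArc_gammaE
  analytic := isPiecewise_gammaE H closed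
  compl_image := by rw [(fe_cover H).2, image_gammaE, compl_compl]
  angle_le := by
    intro t _ e he
    have hpi := Real.pi_pos
    have hα0 : 0 ≤ α * π / 2 := by
      have := H.κ0; nlinarith
    rcases lt_or_ge t ((Phi κ τ a₁ a₂ a₁).re - (Phi κ τ a₁ a₂ τ).re) with h | h
    · have h1 : ∀ᶠ s in 𝓝[>] t, gammaE κ τ a₁ a₂ s =
          spir ((Phi κ τ a₁ a₂ τ).re + (Phi κ τ a₁ a₂ τ).im * I) (1 - Real.tan (κ * π) * I) s := by
        have hev : ∀ᶠ s in 𝓝[>] t, s ∈ Ioo t ((Phi κ τ a₁ a₂ a₁).re - (Phi κ τ a₁ a₂ τ).re) :=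
          Ioo_mem_nhdsGT h
        filter_upwards [hev] with s hs using gammaE_eq_left hs.2.le
      rw [angle_of_spir (one_sub_tan_ne) h1 (gammaE_eq_left h.le) he, arg_one_sub_tan H]
      nlinarith
    · have h1 : ∀ᶠ s in 𝓝[>] t, gammaE κ τ a₁ a₂ s =
          spir ((Phi κ τ a₁ a₂ τ).re + ((Phi κ τ a₁ a₂ τ).im -
      Real.tan (κ * π) * ((Phi κ τ a₁ a₂ a₁).re - (Phi κ τ a₁ a₂ τ).re)) * I) 1 s := by
        filter_upwards [self_mem_nhdsWithin] with s hs
        exact gammaE_eq_right (h.trans (le_of_lt hs))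
      rw [angle_of_spir one_ne_zero h1 (gammaE_eq_right h) he, arg_one, abs_zero]
      exact hα0

/-- The tip position of the example. -/
theorem mem_tipAngles (closed : Prop) {α : ℝ} (hα : κ ≤ α / 2) : τ ∈ tipAngles closed α := by
  classical
  have hh1 := H.h1; have hh2 := H.h2; have hh3 := H.h3; have hh4 := H.h4; have hτ0 := H.hτ0
  have hpi := Real.pi_pos
  have hτI : τ ∈ Ioo (-π) π := ⟨by linarith, by linarith⟩
  refine ⟨fe κ τ a₁ a₂, gammaE κ τ a₁ a₂,
    fun z => if z = -1 then OnePoint.infty else (fe κ τ a₁ a₂ z : OnePoint ℂ), τ,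
    isSlitMap_fe H closed hα, ?_, ?_, by simp, hτI, ?_, (abs_of_pos hτ0).symm⟩
  · intro z hz
    by_cases h : z = -1
    · subst h
      rw [← continuousWithinAt_sdiff_self]
      have h1 : Tendsto (fun z => (fe κ τ a₁ a₂ z : OnePoint ℂ)) (𝓝[closedBall 0 1 \ {-1}] (-1))
          (𝓝 OnePoint.infty) := by
        have h2 := tendsto_fe_neg_one H
        rw [← coclosedCompact_eq_cocompact] at h2
        exact OnePoint.tendsto_coe_infty.comp h2
      show Tendsto _ _ (𝓝 (if (-1 : ℂ) = -1 then OnePoint.infty else _))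
      rw [if_pos rfl]
      refine h1.congr' ?_
      filter_upwards [self_mem_nhdsWithin] with z hz
      have : z ≠ -1 := hz.2
      simp [this]
    · have h1 : ContinuousWithinAt (fe κ τ a₁ a₂) (closedBall 0 1) z := by
        have h2 := continuousOn_fe H z ⟨hz, h⟩
        exact continuousWithinAt_sdiff_singleton.1 h2
      have h3 : ContinuousWithinAt (fun z => (fe κ τ a₁ a₂ z : OnePoint ℂ)) (closedBall 0 1) z :=
        OnePoint.continuous_coe.continuousAt.comp_continuousWithinAt h1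
      refine h3.congr_of_eventuallyEq ?_ (by simp [h])
      have h4 : ∀ᶠ w in 𝓝[closedBall 0 1] z, w ≠ -1 :=
        nhdsWithin_le_nhds (isOpen_ne.mem_nhds h)
      filter_upwards [h4] with w hw
      simp [hw]
  · intro z hz
    have : z ≠ -1 := by
      intro h
      rw [h, mem_ball_zero_iff, norm_neg, norm_one] at hz
      exact lt_irrefl _ hz
    simp [this]
  · have h1 : exp (τ * I) ≠ -1 := (neg_one_ne hτI.1 hτI.2).symm
    have h2 : fe κ τ a₁ a₂ (exp (τ * I)) = gammaE κ τ a₁ a₂ 0 := by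
      rw [fe_exp hτI, gammaE]
      have h3 := (Phi_mem H hτI).2
      rw [add_zero, ← h3, re_add_im]
    simp only [h1, if_false, h2]

end

/-- **Lower bound.** -/
theorem exists_tipAngles (closed : Prop) {α η : ℝ} (hα0 : 0 < α) (hα1 : α ≤ 1) (hη : 0 < η) :
    ∃ x ∈ tipAngles closed α, α * π - η < x := by
  have hpi := Real.pi_pos
  -- choose κ < α / 2 close to α / 2
  set κ := α / 2 - min (α / 4) (η / (4 * π)) with hκ
  have h1 : min (α / 4) (η / (4 * π)) ≤ α / 4 := min_le_left _ _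
  have h2 : min (α / 4) (η / (4 * π)) ≤ η / (4 * π) := min_le_right _ _
  have h3 : 0 < min (α / 4) (η / (4 * π)) := by positivity
  obtain ⟨τ, a₁, a₂, H, hτ⟩ := exists_params (κ := κ) (η := η / 2) (by linarith) (by linarith)
    (by positivity)
  refine ⟨τ, mem_tipAngles H closed (by linarith), ?_⟩
  have h4 : 2 * min (α / 4) (η / (4 * π)) * π ≤ η / 2 := by
    calc 2 * min (α / 4) (η / (4 * π)) * π ≤ 2 * (η / (4 * π)) * π := by gcongr
      _ = η / 2 := by field_simp; ring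
  have h5 : 2 * κ * π = α * π - 2 * min (α / 4) (η / (4 * π)) * π := by rw [hκ]; ring
  linarith

end Pool.Agent.Helper45.Slit
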