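import Pool.Agent.Helper45.Slit.Basic

/-!
# Real functions on the left half-plane with exponentials tending to one at the boundary
-/

namespace Pool.Agent.Helper45.Slit

open Set Metric Filter Topology MeasureTheory Complex

open scoped ENNReal Real

/-- The open left half-plane. -/
def LH : Set ℂ := {ζ | ζ.re < 0}

theorem isOpen_LH : IsOpen LH := isOpen_lt continuous_re continuous_const

theorem convex_LH : Convex ℝ LH := convex_halfSpace_re_lt 0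

theorem mem_LH {ζ : ℂ} : ζ ∈ LH ↔ ζ.re < 0 := Iff.rfl

instance neBot_LH (y : ℝ) : (𝓝[LH] (y * I : ℂ)).NeBot := by
  rw [← mem_closure_iff_nhdsWithin_neBot]
  rw [Metric.mem_closure_iff]
  intro ε hε
  refine ⟨((-(ε / 2) : ℝ) : ℂ) + y * I, ?_, ?_⟩
  · rw [mem_LH]; simp; positivity
  · rw [dist_eq_norm]
    have : (y * I - (((-(ε / 2) : ℝ) : ℂ) + y * I) : ℂ) = ((ε / 2 : ℝ) : ℂ) := by push_cast; ring
    rw [this, norm_real, Real.norm_eq_abs, abs_of_pos (by positivity)]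
    linarith

/-- If `exp (i h)` never equals `-1` on a preconnected set then `h` stays in one period. -/
theorem exists_int_of_cos {V : Set ℂ} (hV : IsPreconnected V) (hne : V.Nonempty) {h : ℂ → ℝ}
    (hc : ContinuousOn h V) (hcos : ∀ ζ ∈ V, 0 < Real.cos (h ζ)) :
    ∃ k : ℤ, ∀ ζ ∈ V, |h ζ - 2 * π * k| < π := by
  obtain ⟨ζ₁, h₁⟩ := hne
  have hpi := Real.pi_pos
  set k : ℤ := round (h ζ₁ / (2 * π)) with hk
  refine ⟨k, ?_⟩
  have hk1 : |h ζ₁ - 2 * π * k| ≤ π := by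
    have h2 := abs_sub_round (h ζ₁ / (2 * π))
    rw [← hk] at h2
    have h3 : h ζ₁ - 2 * π * k = 2 * π * (h ζ₁ / (2 * π) - k) := by field_simp
    rw [h3, abs_mul, abs_of_pos (by positivity)]
    nlinarith
  have hnot : ∀ ζ ∈ V, h ζ - 2 * π * k ≠ π ∧ h ζ - 2 * π * k ≠ -π := by
    intro ζ hζ
    have h4 := hcos ζ hζ
    constructor
    · intro h5
      have h6 : h ζ = π + k * (2 * π) := by linarith
      rw [h6, Real.cos_add_int_mul_two_pi, Real.cos_pi] at h4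
      linarith
    · intro h5
      have h6 : h ζ = -π + k * (2 * π) := by linarith
      rw [h6, Real.cos_add_int_mul_two_pi, Real.cos_neg, Real.cos_pi] at h4
      linarith
  have hk1' : |h ζ₁ - 2 * π * k| < π := by
    refine lt_of_le_of_ne hk1 fun h5 => ?_
    rcases (abs_eq hpi.le).1 h5 with h6 | h6
    · exact (hnot ζ₁ h₁).1 h6
    · exact (hnot ζ₁ h₁).2 h6
  rw [abs_lt] at hk1'
  intro ζ hζ
  rw [abs_lt]
  have hc' : ContinuousOn (fun ζ => h ζ - 2 * π * k) V := hc.sub continuousOn_const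
  constructor
  · by_contra hcon
    push Not at hcon
    obtain ⟨ζ', h1, h2⟩ := hV.intermediate_value hζ h₁ hc' (⟨hcon, hk1'.1.le⟩ :
      -π ∈ Icc (h ζ - 2 * π * k) (h ζ₁ - 2 * π * k))
    exact (hnot ζ' h1).2 h2
  · by_contra hcon
    push Not at hcon
    obtain ⟨ζ', h1, h2⟩ := hV.intermediate_value h₁ hζ hc' (⟨hk1'.2.le, hcon⟩ :
      π ∈ Icc (h ζ₁ - 2 * π * k) (h ζ - 2 * π * k))
    exact (hnot ζ' h1).1 h2

/-- If `h` avoids the multiples of `2π` on a preconnected set then its oscillation is at most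
`2π`. -/
theorem osc_of_avoid {V : Set ℂ} (hV : IsPreconnected V) {h : ℂ → ℝ}
    (hc : ContinuousOn h V) (hav : ∀ ζ ∈ V, ∀ k : ℤ, h ζ ≠ 2 * π * k) {ζ₁ ζ₂ : ℂ} (h₁ : ζ₁ ∈ V)
    (h₂ : ζ₂ ∈ V) : h ζ₂ ≤ h ζ₁ + 2 * π := by
  have hpi := Real.pi_pos
  by_contra hcon
  push Not at hcon
  set k : ℤ := ⌊h ζ₁ / (2 * π)⌋ + 1 with hk
  have h3 : h ζ₁ ≤ 2 * π * k := by
    have h4 := (Int.lt_floor_add_one (h ζ₁ / (2 * π))).le
    have h5 : h ζ₁ / (2 * π) ≤ k := by rw [hk]; push_cast; exact h4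
    rw [div_le_iff₀ (by positivity)] at h5
    linarith
  have h6 : 2 * π * k ≤ h ζ₁ + 2 * π := by
    have h4 := Int.floor_le (h ζ₁ / (2 * π))
    rw [le_div_iff₀ (by positivity)] at h4
    rw [hk]; push_cast
    linarith
  obtain ⟨ζ', h7, h8⟩ := hV.intermediate_value h₁ h₂ hc (⟨h3, by linarith⟩ :
    2 * π * k ∈ Icc (h ζ₁) (h ζ₂))
  exact hav ζ' h7 k h8

/-- If `exp (i h) → 1` at `i y₀` then near `i y₀` the function `h` stays in one period around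
`2πk`. -/
theorem exists_int_near {h : ℂ → ℝ} (hc : ContinuousOn h LH) {y₀ : ℝ}
    (hexp : Tendsto (fun ζ => exp (h ζ * I)) (𝓝[LH] (y₀ * I)) (𝓝 1)) :
    ∃ k : ℤ, ∃ δ > 0, ∀ ζ ∈ LH ∩ ball (y₀ * I) δ, |h ζ - 2 * π * k| < π := by
  have h1 : ∀ᶠ ζ in 𝓝[LH] (y₀ * I : ℂ), 0 < Real.cos (h ζ) := by
    have h2 : ∀ᶠ w in 𝓝 (1 : ℂ), 0 < w.re :=
      continuous_re.continuousAt.eventually (Ioi_mem_nhds (by simp))
    filter_upwards [hexp.eventually h2] with ζ hζ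
    rwa [exp_ofReal_mul_I_re] at hζ
  rw [eventually_nhdsWithin_iff] at h1
  obtain ⟨δ, hδ, hb⟩ := Metric.eventually_nhds_iff_ball.1 h1
  have hconv : Convex ℝ (LH ∩ ball (y₀ * I : ℂ) δ) := convex_LH.inter (convex_ball _ _)
  have hne : (LH ∩ ball (y₀ * I : ℂ) δ).Nonempty := by
    have h3 : ∀ᶠ ζ in 𝓝[LH] (y₀ * I : ℂ), ζ ∈ LH ∩ ball (y₀ * I : ℂ) δ :=
      inter_mem self_mem_nhdsWithin (mem_nhdsWithin_of_mem_nhds (ball_mem_nhds _ hδ))
    exact h3.exists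
  obtain ⟨k, hk⟩ := exists_int_of_cos hconv.isPreconnected hne (hc.mono inter_subset_left)
    (fun ζ hζ => hb ζ hζ.2 hζ.1)
  exact ⟨k, δ, hδ, hk⟩

/-- If `|h - 2πk| < π` near `i y` and `exp (i h) → 1` then `h → 2πk`. -/
theorem tendsto_of_near {h : ℂ → ℝ} {y : ℝ} {k : ℤ}
    (hexp : Tendsto (fun ζ => exp (h ζ * I)) (𝓝[LH] (y * I)) (𝓝 1))
    (hnear : ∀ᶠ ζ in 𝓝[LH] (y * I : ℂ), |h ζ - 2 * π * k| < π) :
    Tendsto h (𝓝[LH] (y * I)) (𝓝 (2 * π * k)) := by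
  have h1 : Tendsto (fun ζ => arg (exp (h ζ * I)) + 2 * π * k) (𝓝[LH] (y * I))
      (𝓝 (arg 1 + 2 * π * k)) :=
    (((continuousAt_arg one_mem_slitPlane).tendsto.comp hexp)).add tendsto_const_nhds
  rw [arg_one, zero_add] at h1
  refine h1.congr' ?_
  filter_upwards [hnear] with ζ hζ
  rw [abs_lt] at hζ
  have h2 : exp (h ζ * I) = exp (((h ζ - 2 * π * k : ℝ) : ℂ) * I) := by
    rw [exp_eq_exp_iff_exists_int]
    exact ⟨k, by push_cast; ring⟩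
  rw [h2, arg_exp_mul_I, (toIocMod_eq_self Real.two_pi_pos).2]
  · ring
  · constructor
    · linarith
    · linarith

theorem exists_tendsto_int {h : ℂ → ℝ} (hc : ContinuousOn h LH) {y : ℝ}
    (hexp : Tendsto (fun ζ => exp (h ζ * I)) (𝓝[LH] (y * I)) (𝓝 1)) :
    ∃ k : ℤ, Tendsto h (𝓝[LH] (y * I)) (𝓝 (2 * π * k)) := by
  obtain ⟨k, δ, hδ, hk⟩ := exists_int_near hc hexp
  refine ⟨k, tendsto_of_near hexp ?_⟩
  have h3 : ∀ᶠ ζ in 𝓝[LH] (y * I : ℂ), ζ ∈ LH ∩ ball (y * I : ℂ) δ :=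
    inter_mem self_mem_nhdsWithin (mem_nhdsWithin_of_mem_nhds (ball_mem_nhds _ hδ))
  filter_upwards [h3] with ζ hζ using hk ζ hζ

/-- Constancy of the index along the boundary. -/
theorem tendsto_zero_of_exp {h : ℂ → ℝ} (hc : ContinuousOn h LH) {a b φ : ℝ}
    (hφ : φ ∈ Ioo a b)
    (hexp : ∀ y ∈ Ioo a b, Tendsto (fun ζ => exp (h ζ * I)) (𝓝[LH] (y * I)) (𝓝 1))
    (hφ0 : Tendsto h (𝓝[LH] (φ * I)) (𝓝 0)) {y : ℝ} (hy : y ∈ Ioo a b) :
    Tendsto h (𝓝[LH] (y * I)) (𝓝 0) := by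
  have hmain : ∀ y₁ ∈ Ioo a b, ∀ᶠ y₂ : ℝ in 𝓝[Ioo a b] y₁,
      (Tendsto h (𝓝[LH] (y₁ * I)) (𝓝 0) ↔ Tendsto h (𝓝[LH] (y₂ * I)) (𝓝 0)) := by
    intro y₁ hy₁
    obtain ⟨k, δ, hδ, hk⟩ := exists_int_near hc (hexp y₁ hy₁)
    have key : ∀ y₂ ∈ Ioo a b, |y₂ - y₁| < δ → Tendsto h (𝓝[LH] (y₂ * I)) (𝓝 (2 * π * k)) := by
      intro y₂ hy₂ hlt
      refine tendsto_of_near (hexp y₂ hy₂) ?_
      have hmem : (y₂ * I : ℂ) ∈ ball (y₁ * I : ℂ) δ := by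
        rw [mem_ball, dist_eq_norm, ← sub_mul, norm_mul, norm_I, mul_one, ← ofReal_sub, norm_real]
        exact hlt
      have h3 : ∀ᶠ ζ in 𝓝[LH] (y₂ * I : ℂ), ζ ∈ LH ∩ ball (y₁ * I : ℂ) δ :=
        inter_mem self_mem_nhdsWithin (mem_nhdsWithin_of_mem_nhds (isOpen_ball.mem_nhds hmem))
      filter_upwards [h3] with ζ hζ using hk ζ hζ
    have hev : ∀ᶠ y₂ in 𝓝[Ioo a b] y₁, y₂ ∈ Ioo a b ∧ |y₂ - y₁| < δ := by
      have : ball y₁ δ ∈ 𝓝[Ioo a b] y₁ := mem_nhdsWithin_of_mem_nhds (ball_mem_nhds _ hδ)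
      filter_upwards [self_mem_nhdsWithin, this] with y₂ h1 h2
      exact ⟨h1, by rwa [mem_ball, Real.dist_eq] at h2⟩
    filter_upwards [hev] with y₂ h2
    have t1 := key y₁ hy₁ (by simpa using hδ)
    have t2 := key y₂ h2.1 h2.2
    constructor
    · intro h0
      have := tendsto_nhds_unique h0 t1
      rwa [this]
    · intro h0
      have := tendsto_nhds_unique h0 t2
      rwa [this]
  have := isPreconnected_Ioo.induction₂ (fun y₁ y₂ : ℝ =>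
    (Tendsto h (𝓝[LH] (y₁ * I)) (𝓝 0) ↔ Tendsto h (𝓝[LH] (y₂ * I)) (𝓝 0)))
    hmain (fun _ _ _ _ _ _ h1 h2 => h1.trans h2) (fun _ _ _ _ h1 => h1.symm) hφ hy
  exact this.1 hφ0

end Pool.Agent.Helper45.Slit
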