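import Pool.Agent.Helper45.Slit.Univ

/-!
# Length-area principle for injective holomorphic maps along vertical segments
-/

namespace Pool.Agent.Helper45.Slit

open Set Metric Filter Topology MeasureTheory Complex

open scoped ENNReal

/-- Cauchy-Schwarz on a set of finite measure. -/
theorem sq_lintegral_le {s : Set ℝ} (h : ℝ → ℝ≥0∞) (hh : Measurable h) :
    (∫⁻ y in s, h y) ^ 2 ≤ volume s * ∫⁻ y in s, h y ^ 2 := by
  have h1 := ENNReal.lintegral_mul_le_Lp_mul_Lq (volume.restrict s) Real.HolderConjugate.two_two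
    (f := h) (g := fun _ => 1) hh.aemeasurable aemeasurable_const
  simp only [Pi.mul_apply, mul_one, ENNReal.one_rpow, lintegral_const, one_mul,
    Measure.restrict_apply MeasurableSet.univ, univ_inter] at h1
  calc (∫⁻ y in s, h y) ^ 2
      ≤ ((∫⁻ y in s, h y ^ (2 : ℝ)) ^ (1 / (2 : ℝ)) * volume s ^ (1 / (2 : ℝ))) ^ 2 := by
        gcongr
    _ = volume s * ∫⁻ y in s, h y ^ 2 := by
        rw [mul_pow, ← ENNReal.rpow_natCast, ← ENNReal.rpow_mul, ← ENNReal.rpow_natCast,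
          ← ENNReal.rpow_mul]
        simp [mul_comm]

/-- Fubini on `ℂ`. -/
theorem lintegral_complex (H : ℂ → ℝ≥0∞) (hH : Measurable H) :
    ∫⁻ z, H z = ∫⁻ x : ℝ, ∫⁻ y : ℝ, H (x + y * I) := by
  have h1 := (Complex.volume_preserving_equiv_real_prod.symm).lintegral_comp hH
  rw [← h1, Measure.volume_eq_prod]
  rw [lintegral_prod]
  · refine lintegral_congr fun x => lintegral_congr fun y => ?_
    rw [Complex.measurableEquivRealProd_symm_apply]
    congr 1
    apply Complex.ext <;> simp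
  · exact (hH.comp Complex.measurableEquivRealProd.symm.measurable).aemeasurable

/-- Displacement along a vertical segment. -/
theorem enorm_sub_le_vertical {A : ℂ → ℂ} {U : Set ℂ} (hU : IsOpen U)
    (hA : DifferentiableOn ℂ A U) {x y₁ y₂ : ℝ} (hy : y₁ ≤ y₂)
    (hseg : ∀ y ∈ Icc y₁ y₂, (x + y * I : ℂ) ∈ U) :
    ‖A (x + y₂ * I) - A (x + y₁ * I)‖ₑ ≤
      ∫⁻ y in {y : ℝ | (x + y * I : ℂ) ∈ U}, ‖deriv A (x + y * I)‖ₑ := by
  have hline : ∀ y : ℝ, HasDerivAt (fun y : ℝ => (x + y * I : ℂ)) I y := by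
    intro y
    have := ((Complex.ofRealCLM.hasDerivAt (x := y)).mul_const I).const_add (x : ℂ)
    simpa using this
  have h1 : ∀ y ∈ uIcc y₁ y₂, HasDerivAt (fun y : ℝ => A (x + y * I)) (deriv A (x + y * I) * I) y := by
    intro y hy'
    rw [uIcc_of_le hy] at hy'
    have h2 := (hA.differentiableAt (hU.mem_nhds (hseg y hy'))).hasDerivAt
    exact h2.comp y (hline y)
  have hcont : ContinuousOn (fun y : ℝ => deriv A (x + y * I) * I) (uIcc y₁ y₂) := by
    rw [uIcc_of_le hy]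
    refine ContinuousOn.mul ?_ continuousOn_const
    exact (hA.deriv hU).continuousOn.comp (by fun_prop) (fun y hy' => hseg y hy')
  have h2 := intervalIntegral.integral_eq_sub_of_hasDerivAt h1 hcont.intervalIntegrable
  rw [← h2, intervalIntegral.integral_of_le hy]
  refine (enorm_integral_le_lintegral_enorm _).trans ?_
  calc ∫⁻ y in Ioc y₁ y₂, ‖deriv A (x + y * I) * I‖ₑ
      = ∫⁻ y in Ioc y₁ y₂, ‖deriv A (x + y * I)‖ₑ := by
        refine lintegral_congr fun y => ?_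
        rw [enorm_mul]; simp [enorm]
    _ ≤ _ := by
        apply lintegral_mono_set
        intro y hy'
        exact hseg y ⟨hy'.1.le, hy'.2⟩

/-- **Length-area principle**: among the vertical lines over `(x₁, x₂)` there is one along which
`A` has small displacement. -/
theorem exists_short_vertical {A : ℂ → ℂ} {U : Set ℂ} (hU : IsOpen U)
    (hA : DifferentiableOn ℂ A U) (hinj : InjOn A U) {x₁ x₂ c E ε : ℝ} (hx : x₁ < x₂)
    (hc : 0 ≤ c) (hlen : ∀ x ∈ Ioo x₁ x₂, volume {y : ℝ | (x + y * I : ℂ) ∈ U} ≤ ENNReal.ofReal c)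
    (harea : volume (A '' U) ≤ ENNReal.ofReal E) (hε : 0 < ε)
    (hbig : c * E < ε ^ 2 * (x₂ - x₁)) :
    ∃ x ∈ Ioo x₁ x₂, ∀ y₁ y₂ : ℝ, y₁ ≤ y₂ → (∀ y ∈ Icc y₁ y₂, (x + y * I : ℂ) ∈ U) →
      ‖A (x + y₂ * I) - A (x + y₁ * I)‖ < ε := by
  by_contra hcon
  push Not at hcon
  set J : ℝ → ℝ≥0∞ := fun x => ∫⁻ y in {y : ℝ | (x + y * I : ℂ) ∈ U}, ‖deriv A (x + y * I)‖ₑ
    with hJ
  have hJge : ∀ x ∈ Ioo x₁ x₂, ENNReal.ofReal ε ≤ J x := by
    intro x hx'
    obtain ⟨y₁, y₂, hy, hseg, hle⟩ := hcon x hx'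
    refine le_trans ?_ (enorm_sub_le_vertical hU hA hy hseg)
    rw [← ofReal_norm]
    exact ENNReal.ofReal_le_ofReal hle
  have hmeasd : Measurable (fun z : ℂ => ‖deriv A z‖ₑ) := (measurable_deriv A).enorm
  have hline : Measurable (fun p : ℝ × ℝ => (p.1 + p.2 * I : ℂ)) := by fun_prop
  have hUm : MeasurableSet U := hU.measurableSet
  have hsec : ∀ x : ℝ, MeasurableSet {y : ℝ | (x + y * I : ℂ) ∈ U} := by
    intro x
    have : Measurable (fun y : ℝ => (x + y * I : ℂ)) := by fun_prop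
    exact this hUm
  -- total area
  have htot : ∫⁻ x : ℝ, ∫⁻ y in {y : ℝ | (x + y * I : ℂ) ∈ U}, ‖deriv A (x + y * I)‖ₑ ^ 2
      = volume (A '' U) := by
    rw [← lintegral_deriv_sq hUm (fun z hz => (hA.differentiableAt (hU.mem_nhds hz)).hasDerivAt)
      hinj, ← lintegral_indicator hUm, lintegral_complex _ ((hmeasd.pow_const 2).indicator hUm)]
    refine lintegral_congr fun x => ?_
    rw [← lintegral_indicator (hsec x)]
    refine lintegral_congr fun y => ?_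
    by_cases h : (x + y * I : ℂ) ∈ U
    · rw [indicator_of_mem h, indicator_of_mem (by exact h)]
    · rw [indicator_of_notMem h, indicator_of_notMem (by exact h)]
  have hJsq : ∀ x ∈ Ioo x₁ x₂, ENNReal.ofReal (ε ^ 2) ≤ ENNReal.ofReal c *
      ∫⁻ y in {y : ℝ | (x + y * I : ℂ) ∈ U}, ‖deriv A (x + y * I)‖ₑ ^ 2 := by
    intro x hx'
    calc ENNReal.ofReal (ε ^ 2) = ENNReal.ofReal ε ^ 2 := ENNReal.ofReal_pow hε.le 2
      _ ≤ J x ^ 2 := by gcongr; exact hJge x hx'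
      _ ≤ volume {y : ℝ | (x + y * I : ℂ) ∈ U} *
          ∫⁻ y in {y : ℝ | (x + y * I : ℂ) ∈ U}, ‖deriv A (x + y * I)‖ₑ ^ 2 :=
        sq_lintegral_le _ (by
          have : Measurable (fun y : ℝ => (x + y * I : ℂ)) := by fun_prop
          exact hmeasd.comp this)
      _ ≤ _ := by gcongr; exact hlen x hx'
  have h1 : ENNReal.ofReal (ε ^ 2) * volume (Ioo x₁ x₂) ≤ ENNReal.ofReal c * ENNReal.ofReal E := by
    calc ENNReal.ofReal (ε ^ 2) * volume (Ioo x₁ x₂)
        = ∫⁻ _ in Ioo x₁ x₂, ENNReal.ofReal (ε ^ 2) := by rw [setLIntegral_const]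
      _ ≤ ∫⁻ x in Ioo x₁ x₂, ENNReal.ofReal c *
          ∫⁻ y in {y : ℝ | (x + y * I : ℂ) ∈ U}, ‖deriv A (x + y * I)‖ₑ ^ 2 :=
        setLIntegral_mono' measurableSet_Ioo hJsq
      _ ≤ ∫⁻ x : ℝ, ENNReal.ofReal c *
          ∫⁻ y in {y : ℝ | (x + y * I : ℂ) ∈ U}, ‖deriv A (x + y * I)‖ₑ ^ 2 :=
        setLIntegral_le_lintegral _ _
      _ = ENNReal.ofReal c * ∫⁻ x : ℝ,
          ∫⁻ y in {y : ℝ | (x + y * I : ℂ) ∈ U}, ‖deriv A (x + y * I)‖ₑ ^ 2 := by
        rw [lintegral_const_mul' _ _ ENNReal.ofReal_ne_top]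
      _ ≤ _ := by rw [htot]; gcongr
  rw [Real.volume_Ioo, ← ENNReal.ofReal_mul (by positivity), ← ENNReal.ofReal_mul hc] at h1
  have hcE : 0 < ε ^ 2 * (x₂ - x₁) := mul_pos (by positivity) (by linarith)
  by_cases hE : 0 ≤ c * E
  · rw [ENNReal.ofReal_le_ofReal_iff hE] at h1
    linarith
  · rw [ENNReal.ofReal_of_nonpos (le_of_not_ge hE)] at h1
    have : ENNReal.ofReal (ε ^ 2 * (x₂ - x₁)) = 0 := le_antisymm h1 bot_le
    rw [ENNReal.ofReal_eq_zero] at this
    linarith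

end Pool.Agent.Helper45.Slit
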