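import Pool.Agent.Helper45.Slit.Bdry

/-!
# The minimum principle for slit maps
-/

namespace Pool.Agent.Helper45.Slit

open Set Metric Filter Topology MeasureTheory Complex

open scoped ENNReal Real

/-- Maximum principle with boundary limits. -/
theorem norm_le_of_boundary {g : ℂ → ℂ} (hg : DifferentiableOn ℂ g (ball 0 1)) {M : ℝ}
    (hb : ∀ ζ₀ : ℂ, ‖ζ₀‖ = 1 → ∀ δ > 0, ∀ᶠ z in 𝓝[ball 0 1] ζ₀, ‖g z‖ ≤ M + δ) {z₀ : ℂ}
    (hz₀ : z₀ ∈ ball (0 : ℂ) 1) : ‖g z₀‖ ≤ M := by
  by_contra hcon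
  push Not at hcon
  set δ := (‖g z₀‖ - M) / 2 with hδ
  have hδ0 : 0 < δ := by rw [hδ]; linarith
  set W : Set ℂ := {ζ | ∀ᶠ z in 𝓝[ball 0 1] ζ, ‖g z‖ ≤ M + δ} with hW
  have hW' : ∀ ζ, ζ ∈ W ↔ ∀ᶠ z in 𝓝 ζ, z ∈ ball (0 : ℂ) 1 → ‖g z‖ ≤ M + δ := by
    intro ζ; rw [hW]; exact eventually_nhdsWithin_iff
  have hWo : IsOpen W := by
    rw [isOpen_iff_eventually]
    intro ζ hζ
    have h1 := eventually_eventually_nhds.2 ((hW' ζ).1 hζ)
    filter_upwards [h1] with ζ' h2 using (hW' ζ').2 h2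
  have hsW : sphere (0 : ℂ) 1 ⊆ W := by
    intro ζ hζ
    exact hb ζ (mem_sphere_zero_iff_norm.1 hζ) δ hδ0
  obtain ⟨ε, hε, hth⟩ := (isCompact_sphere (0 : ℂ) 1).exists_thickening_subset_open hWo hsW
  rw [mem_ball_zero_iff] at hz₀
  obtain ⟨r, hr1, hr2⟩ := exists_between (max_lt (max_lt hz₀ (by linarith : 1 - ε < 1)) one_pos)
  rw [max_lt_iff, max_lt_iff] at hr1
  obtain ⟨⟨hr3, hr4⟩, hr0⟩ := hr1
  have hbd : ∀ z ∈ frontier (ball (0 : ℂ) r), ‖g z‖ ≤ M + δ := by
    intro z hz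
    rw [frontier_ball _ hr0.ne', mem_sphere_zero_iff_norm] at hz
    have hzW : z ∈ W := by
      apply hth
      rw [Metric.mem_thickening_iff]
      refine ⟨z / r, ?_, ?_⟩
      · rw [mem_sphere_zero_iff_norm, norm_div, hz, norm_real, Real.norm_eq_abs, abs_of_pos hr0,
          div_self hr0.ne']
      · rw [dist_eq_norm]
        have h1 : z - z / r = z * ((1 - 1 / r : ℝ) : ℂ) := by push_cast; ring
        rw [h1, norm_mul, hz, norm_real, Real.norm_eq_abs]
        have h2 : 1 - 1 / r ≤ 0 := by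
          rw [sub_nonpos, le_div_iff₀ hr0]; linarith
        rw [abs_of_nonpos h2]
        have h3 : r * -(1 - 1 / r) = 1 - r := by field_simp; ring
        rw [h3]; linarith
    have hzb : z ∈ ball (0 : ℂ) 1 := by rw [mem_ball_zero_iff, hz]; exact hr2
    exact ((hW' z).1 hzW).self_of_nhds hzb
  have hdc : DiffContOnCl ℂ g (ball 0 r) := by
    apply DifferentiableOn.diffContOnCl
    rw [closure_ball _ hr0.ne']
    exact hg.mono (closedBall_subset_ball hr2)
  have h4 := Complex.norm_le_of_forall_mem_frontier_norm_le isBounded_ball hdc hbd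
    (subset_closure (mem_ball_zero_iff.2 hr3))
  linarith

theorem two_arg_one_add_exp {y : ℝ} (hy : y ∈ Ioo (-π) π) : 2 * arg (1 + exp (y * I)) = y := by
  have h1 : 1 + exp (y * I) = ((2 * Real.cos (y / 2) : ℝ) : ℂ) * exp (((y / 2 : ℝ) : ℂ) * I) := by
    have h2 : exp (y * I) = exp (((y / 2 : ℝ) : ℂ) * I) * exp (((y / 2 : ℝ) : ℂ) * I) := by
      rw [← exp_add]; congr 1; push_cast; ring
    have h3 : (1 : ℂ) = exp (-(((y / 2 : ℝ) : ℂ) * I)) * exp (((y / 2 : ℝ) : ℂ) * I) := by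
      rw [← exp_add]; simp
    have h4 : (((2 * Real.cos (y / 2) : ℝ)) : ℂ) =
        exp (-(((y / 2 : ℝ) : ℂ) * I)) + exp (((y / 2 : ℝ) : ℂ) * I) := by
      rw [ofReal_mul, ofReal_cos, Complex.cos]
      push_cast; ring_nf
    rw [h4, h2]
    nth_rewrite 1 [h3]
    ring
  have h5 : 0 < 2 * Real.cos (y / 2) := by
    have := Real.cos_pos_of_mem_Ioo (x := y / 2) ⟨by linarith [hy.1], by linarith [hy.2]⟩
    linarith
  rw [h1, arg_real_mul _ h5, arg_exp_mul_I, (toIocMod_eq_self Real.two_pi_pos).2]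
  · ring
  · have hpi := Real.pi_pos
    constructor
    · linarith [hy.1]
    · linarith [hy.2]

namespace Setup

variable {θ : ℝ → ℝ} {K ρ₀ φ : ℝ} {f L : ℂ → ℂ} (S : Setup θ K ρ₀ φ f L)

include S

/-- lower bound of `K Re L + s Im L` near `-1`. -/
theorem bdd_below_near_neg_one {s : ℝ} (hs : |s| = 1) :
    ∃ C : ℝ, ∀ᶠ z in 𝓝[ball 0 1] (-1 : ℂ), -C ≤ K * (L z).re + s * (L z).im := by
  have hpi := Real.pi_pos
  -- |f| large near -1
  have h1 : ∀ᶠ z in 𝓝[ball 0 1] (-1 : ℂ), Real.exp ρ₀ ≤ ‖f z‖ :=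
    (tendsto_norm_cocompact_atTop.comp S.infty).eventually_ge_atTop _
  have hexp : Tendsto exp (𝓝[LH] (π * I : ℂ)) (𝓝[ball 0 1] (-1)) := by
    have := tendsto_exp_LH π
    rwa [exp_pi_mul_I] at this
  have h2 := hexp.eventually h1
  rw [eventually_nhdsWithin_iff] at h2
  obtain ⟨δ, hδ, hb⟩ := Metric.eventually_nhds_iff_ball.1 h2
  set V : Set ℂ := LH ∩ ball (π * I : ℂ) δ with hV
  have hVc : IsPreconnected V := (convex_LH.inter (convex_ball _ _)).isPreconnected
  have hre : ∀ ζ ∈ V, ρ₀ ≤ (Flog L ζ).re := by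
    intro ζ hζ
    have h3 := hb ζ hζ.2 hζ.1
    rw [S.re_F hζ.1]
    rwa [← Real.log_exp ρ₀, Real.log_le_log_iff (Real.exp_pos _)
      ((Real.exp_pos _).trans_le h3)]
  have hav : ∀ ζ ∈ V, ∀ k : ℤ, hgt θ L ζ ≠ 2 * π * k := fun ζ hζ k =>
    S.hgt_avoid hζ.1 (hre ζ hζ) k
  obtain ⟨ζ₁, hζ₁⟩ : V.Nonempty := by
    have h3 : ∀ᶠ ζ in 𝓝[LH] (π * I : ℂ), ζ ∈ LH ∩ ball (π * I : ℂ) δ :=
      inter_mem self_mem_nhdsWithin (mem_nhdsWithin_of_mem_nhds (ball_mem_nhds _ hδ))
    exact h3.exists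
  set C₁ := |hgt θ L ζ₁| + 2 * π with hC₁
  have hC1 : ∀ ζ ∈ V, |hgt θ L ζ| ≤ C₁ := by
    intro ζ hζ
    have h4 := osc_of_avoid hVc (S.cont_hgt.mono inter_subset_left) hav hζ₁ hζ
    have h5 := osc_of_avoid hVc (S.cont_hgt.mono inter_subset_left) hav hζ hζ₁
    have h6 := le_abs_self (hgt θ L ζ₁)
    have h7 := neg_abs_le (hgt θ L ζ₁)
    rw [abs_le]
    constructor <;> linarith
  -- transfer to the disc
  set C := C₁ + |θ ρ₀| + K * |ρ₀| + (π + δ) with hC
  refine ⟨C, ?_⟩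
  have h8 : Tendsto (fun z : ℂ => Complex.log (-z) + π * I) (𝓝[ball 0 1] (-1)) (𝓝 (π * I)) := by
    have h9 : ContinuousAt (fun z : ℂ => Complex.log (-z) + π * I) (-1) := by
      apply ContinuousAt.add _ continuousAt_const
      apply ContinuousAt.clog (by fun_prop)
      simp
    have h10 := h9.tendsto
    simp only [neg_neg, log_one, zero_add] at h10
    exact h10.mono_left nhdsWithin_le_nhds
  have h11 : ∀ᶠ z in 𝓝[ball 0 1] (-1 : ℂ), z ≠ 0 := by
    apply nhdsWithin_le_nhds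
    exact isOpen_ne.mem_nhds (by simp)
  filter_upwards [h8.eventually (ball_mem_nhds _ hδ), self_mem_nhdsWithin, h11] with z hz hzb hz0
  set ζ := Complex.log (-z) + π * I with hζdef
  have hexpζ : exp ζ = z := by
    rw [hζdef, exp_add, exp_log (neg_ne_zero.2 hz0), exp_pi_mul_I]; ring
  have hζre : ζ.re < 0 := by
    have : ζ.re = Real.log ‖z‖ := by
      rw [hζdef]; simp [Complex.log_re]
    rw [this]
    exact Real.log_neg (norm_pos_iff.2 hz0) (mem_ball_zero_iff.1 hzb)
  have hζV : ζ ∈ V := ⟨hζre, hz⟩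
  have hζim : |ζ.im| ≤ π + δ := by
    have h12 : |(ζ - π * I).im| ≤ ‖ζ - π * I‖ := abs_im_le_norm _
    have h13 : ‖ζ - π * I‖ < δ := by rw [← dist_eq_norm]; exact hz
    have h14 : (ζ - π * I).im = ζ.im - π := by simp
    rw [h14] at h12
    have h15 := abs_sub_abs_le_abs_sub ζ.im π
    rw [abs_of_pos hpi] at h15
    linarith
  have hLF : L z = Flog L ζ - ζ := by rw [Flog, hexpζ]; ring
  have hh := hC1 ζ hζV
  have hFre := hre ζ hζV
  have hlip := S.lip (Flog L ζ).re ρ₀
  rw [abs_of_nonneg (sub_nonneg.2 hFre)] at hlip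
  have him : (Flog L ζ).im = hgt θ L ζ + θ (Flog L ζ).re := by rw [hgt]; ring
  have hK := S.hK
  have h16 : |(Flog L ζ).im| ≤ C₁ + (|θ ρ₀| + K * ((Flog L ζ).re - ρ₀)) := by
    rw [him]
    refine (abs_add_le _ _).trans (add_le_add hh ?_)
    have := abs_sub_abs_le_abs_sub (θ (Flog L ζ).re) (θ ρ₀)
    linarith
  have h17 : |s * (Flog L ζ).im| ≤ C₁ + (|θ ρ₀| + K * ((Flog L ζ).re - ρ₀)) := by
    rw [abs_mul, hs, one_mul]; exact h16
  have h18 : |s * ζ.im| ≤ π + δ := by rw [abs_mul, hs, one_mul]; exact hζim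
  have h19 : K * ρ₀ ≥ -(K * |ρ₀|) := by
    have := neg_abs_le ρ₀
    nlinarith
  rw [hLF, sub_re, sub_im]
  rw [abs_le] at h17 h18
  have h20 : K * ζ.re ≤ 0 := mul_nonpos_of_nonneg_of_nonpos hK hζre.le
  rw [hC]
  nlinarith [h17.1, h18.2]

/-- lower bound at the other boundary points. -/
theorem liminf_bound (hn : Tendsto (hgt θ L) (𝓝[LH] (φ * I)) (𝓝 0)) {s : ℝ} (hs : |s| = 1)
    {y : ℝ} (hy : y ∈ Ioo (-π) π) {δ : ℝ} (hδ : 0 < δ) :
    ∀ᶠ z in 𝓝[ball 0 1] (exp (y * I)),
      K * ρ₀ + s * θ ρ₀ - δ ≤ K * (L z).re + s * (L z).im + s * (2 * arg (1 + z)) := by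
  have hK := S.hK
  set η := δ / (2 * K + 2 + K) with hη
  have hden : 0 < 2 * K + 2 + K := by linarith
  have hη0 : 0 < η := div_pos hδ hden
  have hmul : η * (2 * K + 2 + K) = δ := div_mul_cancel₀ _ hden.ne'
  have h0 : Tendsto (hgt θ L) (𝓝[LH] (y * I)) (𝓝 0) :=
    tendsto_zero_of_exp S.cont_hgt S.hφ (fun y hy => S.tendsto_exp_hgt hy) hn hy
  have h1 : ∀ᶠ ζ in 𝓝[LH] (y * I : ℂ), |hgt θ L ζ| < η := by
    have := h0.eventually (Metric.ball_mem_nhds 0 hη0)
    filter_upwards [this] with ζ hζ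
    rwa [dist_zero_right, Real.norm_eq_abs] at hζ
  have h2 := S.re_F_ge hy hη0
  -- log
  have hslit : exp (y * I) ∈ slitPlane := by
    rw [mem_slitPlane_iff_arg]
    refine ⟨?_, exp_ne_zero _⟩
    rw [arg_exp_mul_I, (toIocMod_eq_self Real.two_pi_pos).2]
    · exact hy.2.ne
    · exact ⟨hy.1, by linarith [hy.2]⟩
  have hlogy : Complex.log (exp (y * I)) = y * I :=
    log_exp (by simpa using hy.1) (by simpa using hy.2.le)
  have h3 : Tendsto Complex.log (𝓝[ball 0 1] (exp (y * I))) (𝓝[LH] (y * I)) := by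
    apply tendsto_nhdsWithin_of_tendsto_nhds_of_eventually_within
    · have := (continuousAt_clog hslit).tendsto
      rw [hlogy] at this
      exact this.mono_left nhdsWithin_le_nhds
    · have h4 : ∀ᶠ z in 𝓝[ball 0 1] (exp (y * I)), z ≠ 0 :=
        nhdsWithin_le_nhds (isOpen_ne.mem_nhds (exp_ne_zero _))
      filter_upwards [self_mem_nhdsWithin, h4] with z hz hz0
      rw [mem_LH, Complex.log_re]
      exact Real.log_neg (norm_pos_iff.2 hz0) (mem_ball_zero_iff.1 hz)
  have h5 : Tendsto (fun z : ℂ => 2 * arg (1 + z) - (Complex.log z).im)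
      (𝓝[ball 0 1] (exp (y * I))) (𝓝 0) := by
    have h6 : ContinuousAt (fun z : ℂ => 2 * arg (1 + z) - (Complex.log z).im) (exp (y * I)) := by
      apply ContinuousAt.sub
      · apply ContinuousAt.mul continuousAt_const
        apply (continuousAt_arg _).comp (by fun_prop)
        rw [mem_slitPlane_iff]
        left
        have := cos_gt hy
        rw [add_re, one_re]
        linarith
      · exact continuous_im.continuousAt.comp (continuousAt_clog hslit)
    have h7 := h6.tendsto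
    rw [two_arg_one_add_exp hy, hlogy] at h7
    simp only [mul_im, ofReal_re, I_im, mul_one, ofReal_im, I_re, mul_zero, add_zero,
      sub_self] at h7
    exact h7.mono_left nhdsWithin_le_nhds
  have h8 : ∀ᶠ z in 𝓝[ball 0 1] (exp (y * I)), |2 * arg (1 + z) - (Complex.log z).im| < η := by
    have := h5.eventually (Metric.ball_mem_nhds 0 hη0)
    filter_upwards [this] with ζ hζ
    rwa [dist_zero_right, Real.norm_eq_abs] at hζ
  have h9 : ∀ᶠ z in 𝓝[ball 0 1] (exp (y * I)), z ≠ 0 :=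
    nhdsWithin_le_nhds (isOpen_ne.mem_nhds (exp_ne_zero _))
  filter_upwards [h3.eventually h1, h3.eventually h2, h8, h9, self_mem_nhdsWithin] with
    z hz1 hz2 hz3 hz0 hzb
  set ζ := Complex.log z with hζ
  have hexpζ : exp ζ = z := exp_log hz0
  have hζre : ζ.re < 0 := by
    rw [hζ, Complex.log_re]
    exact Real.log_neg (norm_pos_iff.2 hz0) (mem_ball_zero_iff.1 hzb)
  have hLF : L z = Flog L ζ - ζ := by rw [Flog, hexpζ]; ring
  have him : (Flog L ζ).im = hgt θ L ζ + θ (Flog L ζ).re := by rw [hgt]; ring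
  rw [hLF, sub_re, sub_im, him]
  have hlip := S.lip (Flog L ζ).re ρ₀
  have h10 : |s * (θ (Flog L ζ).re - θ ρ₀)| ≤ K * |(Flog L ζ).re - ρ₀| := by
    rw [abs_mul, hs, one_mul]; exact hlip
  have h11 : |s * hgt θ L ζ| < η := by rw [abs_mul, hs, one_mul]; exact hz1
  have h12 : |s * (2 * arg (1 + z) - ζ.im)| < η := by rw [abs_mul, hs, one_mul]; exact hz3
  have h13 : K * ζ.re ≤ 0 := mul_nonpos_of_nonneg_of_nonpos hK hζre.le
  rw [abs_le] at h10
  rw [abs_lt] at h11 h12
  have h14 : K * ((Flog L ζ).re - ρ₀) - K * |(Flog L ζ).re - ρ₀| ≥ -(2 * K * η) := by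
    rcases le_total ρ₀ (Flog L ζ).re with h | h
    · rw [abs_of_nonneg (sub_nonneg.2 h)]
      have : 0 ≤ 2 * K * η := by positivity
      linarith
    · rw [abs_of_nonpos (sub_nonpos.2 h)]
      nlinarith
  nlinarith [h10.1, h11.1, h12.1, mul_nonneg hK hη0.le]

/-- **Main inequality.** -/
theorem main_ineq (hn : Tendsto (hgt θ L) (𝓝[LH] (φ * I)) (𝓝 0)) {s : ℝ} (hs : |s| = 1)
    {z : ℂ} (hz : z ∈ ball (0 : ℂ) 1) :
    K * ρ₀ + s * θ ρ₀ ≤ K * (L z).re + s * (L z).im + s * (2 * arg (1 + z)) := by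
  have hre1 : ∀ z ∈ ball (0 : ℂ) 1, 1 + z ∈ slitPlane := by
    intro z hz
    rw [mem_slitPlane_iff]; left
    rw [mem_ball_zero_iff] at hz
    have h1 := (abs_le.1 (abs_re_le_norm z)).1
    rw [add_re, one_re]; linarith
  set m := K * ρ₀ + s * θ ρ₀ with hm
  -- the analytic functions
  set B : ℝ → ℂ → ℂ := fun ε z => -((K - s * I) * L z - 2 * s * I * Complex.log (1 + z)) +
    ε * (Complex.log (1 + z) - Real.log 2) with hB
  have hBre : ∀ ε : ℝ, ∀ z : ℂ, (B ε z).re =
      -(K * (L z).re + s * (L z).im + s * (2 * arg (1 + z))) +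
        ε * (Real.log ‖1 + z‖ - Real.log 2) := by
    intro ε z
    simp only [hB]
    have e1 : (2 * (s : ℂ) * I * Complex.log (1 + z)).re = -(2 * s * arg (1 + z)) := by
      simp [Complex.log_im, Complex.log_re]
    have e2 : (((K : ℂ) - s * I) * L z).re = K * (L z).re + s * (L z).im := by
      simp
    have e3 : ((ε : ℂ) * (Complex.log (1 + z) - Real.log 2)).re =
        ε * (Real.log ‖1 + z‖ - Real.log 2) := by
      rw [re_ofReal_mul, sub_re, Complex.log_re, ofReal_re]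
    rw [add_re, neg_re, sub_re, e1, e2, e3]
    ring
  have hBd : ∀ ε, DifferentiableOn ℂ (fun z => exp (B ε z)) (ball 0 1) := by
    intro ε
    apply DifferentiableOn.cexp
    have hlog : DifferentiableOn ℂ (fun z => Complex.log (1 + z)) (ball 0 1) := by
      apply DifferentiableOn.clog (by fun_prop) hre1
    exact (((S.logd.const_mul _).sub (hlog.const_mul _)).neg).add
      ((hlog.sub_const _).const_mul _)
  have key : ∀ ε : ℝ, 0 < ε → ∀ z ∈ ball (0 : ℂ) 1, (B ε z).re ≤ -m := by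
    intro ε hε z hz
    have h1 : ‖exp (B ε z)‖ ≤ Real.exp (-m) := by
      apply norm_le_of_boundary (hBd ε) _ hz
      intro ζ₀ hζ₀ δ hδ
      by_cases hcase : ζ₀ = -1
      · subst hcase
        obtain ⟨C, hC⟩ := S.bdd_below_near_neg_one hs
        have hpi := Real.pi_pos
        -- log‖1+z‖ → -∞
        have h2 : Tendsto (fun z : ℂ => Real.exp (C + 2 * π +
            ε * (Real.log ‖1 + z‖ - Real.log 2))) (𝓝[ball 0 1] (-1)) (𝓝 0) := by
          apply Real.tendsto_exp_atBot.comp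
          have h3 : Tendsto (fun z : ℂ => ‖1 + z‖) (𝓝[ball 0 1] (-1)) (𝓝[>] 0) := by
            apply tendsto_nhdsWithin_of_tendsto_nhds_of_eventually_within
            · have h4 : ContinuousAt (fun z : ℂ => ‖1 + z‖) (-1) := by fun_prop
              have h5 := h4.tendsto
              simp only [add_neg_cancel, norm_zero] at h5
              exact h5.mono_left nhdsWithin_le_nhds
            · filter_upwards [self_mem_nhdsWithin] with z hz
              exact norm_pos_iff.2 (slitPlane_ne_zero (hre1 z hz))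
          have h6 : Tendsto (fun z : ℂ => Real.log ‖1 + z‖) (𝓝[ball 0 1] (-1)) atBot :=
            Real.tendsto_log_nhdsGT_zero.comp h3
          have h7 := (tendsto_atBot_add_const_right _ (-Real.log 2) h6).const_mul_atBot hε
          exact tendsto_atBot_add_const_left _ (C + 2 * π) h7
        have h8 := h2.eventually (gt_mem_nhds (show (0 : ℝ) < Real.exp (-m) + δ by positivity))
        filter_upwards [h8, hC, self_mem_nhdsWithin] with z h9 h10 hz
        rw [norm_exp, hBre]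
        refine le_trans (Real.exp_le_exp.2 ?_) h9.le
        have h11 : |s * (2 * arg (1 + z))| ≤ 2 * π := by
          rw [abs_mul, hs, one_mul, abs_mul, abs_of_pos (by norm_num : (0 : ℝ) < 2)]
          have := abs_arg_le_pi (1 + z)
          linarith
        rw [abs_le] at h11
        linarith [h11.1]
      · -- ζ₀ = exp (i y)
        set y := arg ζ₀ with hy
        have hexpy : exp (y * I) = ζ₀ := by
          have := norm_mul_exp_arg_mul_I ζ₀
          rw [hζ₀] at this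
          simpa using this
        have hyI : y ∈ Ioo (-π) π := by
          refine ⟨neg_pi_lt_arg _, lt_of_le_of_ne (arg_le_pi _) ?_⟩
          intro h
          apply hcase
          rw [← hexpy, h, exp_pi_mul_I]
        -- choose δ'
        obtain ⟨δ', hδ', hδ'2⟩ : ∃ δ' > 0, Real.exp (-m + δ') ≤ Real.exp (-m) + δ := by
          have hc : ContinuousAt (fun t : ℝ => Real.exp (-m + t)) 0 := by fun_prop
          have h2 : ∀ᶠ t in 𝓝 (0 : ℝ), Real.exp (-m + t) < Real.exp (-m) + δ := by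
            apply hc.eventually (gt_mem_nhds _)
            simp only [add_zero]; linarith
          obtain ⟨r, hr, hb⟩ := Metric.eventually_nhds_iff_ball.1 h2
          refine ⟨r / 2, by positivity, (hb _ ?_).le⟩
          rw [mem_ball_zero_iff, Real.norm_eq_abs, abs_of_pos (by positivity)]; linarith
        have h3 := S.liminf_bound hn hs hyI hδ'
        rw [hexpy] at h3
        filter_upwards [h3, self_mem_nhdsWithin] with z h4 hz
        rw [norm_exp, hBre]
        refine le_trans (Real.exp_le_exp.2 ?_) hδ'2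
        have h5 : Real.log ‖1 + z‖ - Real.log 2 ≤ 0 := by
          rw [sub_nonpos]
          apply Real.log_le_log (norm_pos_iff.2 (slitPlane_ne_zero (hre1 z hz)))
          rw [mem_ball_zero_iff] at hz
          calc ‖1 + z‖ ≤ ‖(1 : ℂ)‖ + ‖z‖ := norm_add_le _ _
            _ ≤ 2 := by rw [norm_one]; linarith
        have h6 : ε * (Real.log ‖1 + z‖ - Real.log 2) ≤ 0 :=
          mul_nonpos_of_nonneg_of_nonpos hε.le h5
        linarith
    rw [norm_exp] at h1
    exact Real.exp_le_exp.1 h1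
  -- let ε → 0
  set c := Real.log ‖1 + z‖ - Real.log 2 with hc
  have h2 : Tendsto (fun ε : ℝ => -(K * (L z).re + s * (L z).im + s * (2 * arg (1 + z))) + ε * c)
      (𝓝[>] 0) (𝓝 (-(K * (L z).re + s * (L z).im + s * (2 * arg (1 + z))) + 0 * c)) := by
    have : Continuous (fun ε : ℝ =>
      -(K * (L z).re + s * (L z).im + s * (2 * arg (1 + z))) + ε * c) := by fun_prop
    exact this.continuousAt.tendsto.mono_left nhdsWithin_le_nhds
  have h3 : -(K * (L z).re + s * (L z).im + s * (2 * arg (1 + z))) + 0 * c ≤ -m := by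
    apply le_of_tendsto h2
    filter_upwards [self_mem_nhdsWithin] with ε hε
    have := key ε hε z hz
    rwa [hBre] at this
  linarith

end Setup

end Pool.Agent.Helper45.Slit
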