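import Pool.Agent.Helper45.Slit.MinPr

/-!
# Crosscuts around the tip
-/

namespace Pool.Agent.Helper45.Slit

open Set Metric Filter Topology MeasureTheory Complex

open scoped ENNReal Real

/-- Horizontal version of the length-area principle. -/
theorem exists_short_horizontal {A : ℂ → ℂ} {U : Set ℂ} (hU : IsOpen U)
    (hA : DifferentiableOn ℂ A U) (hinj : InjOn A U) {y₁ y₂ c E ε : ℝ} (hy : y₁ < y₂)
    (hc : 0 ≤ c) (hlen : ∀ y ∈ Ioo y₁ y₂, volume {x : ℝ | (x + y * I : ℂ) ∈ U} ≤ ENNReal.ofReal c)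
    (harea : volume (A '' U) ≤ ENNReal.ofReal E) (hε : 0 < ε)
    (hbig : c * E < ε ^ 2 * (y₂ - y₁)) :
    ∃ y ∈ Ioo y₁ y₂, ∀ x₁ x₂ : ℝ, x₁ ≤ x₂ → (∀ x ∈ Icc x₁ x₂, (x + y * I : ℂ) ∈ U) →
      ‖A (x₂ + y * I) - A (x₁ + y * I)‖ < ε := by
  set V : Set ℂ := (fun z : ℂ => I * z) ⁻¹' U with hV
  have hVo : IsOpen V := hU.preimage (by fun_prop)
  have hA' : DifferentiableOn ℂ (fun z => A (I * z)) V :=
    hA.comp (by fun_prop) (fun z hz => hz)
  have hinj' : InjOn (fun z => A (I * z)) V := by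
    intro z₁ h1 z₂ h2 h12
    have := hinj h1 h2 h12
    exact mul_left_cancel₀ I_ne_zero this
  have himg : (fun z => A (I * z)) '' V = A '' U := by
    ext w
    constructor
    · rintro ⟨z, hz, rfl⟩
      exact ⟨I * z, hz, rfl⟩
    · rintro ⟨z, hz, rfl⟩
      refine ⟨-I * z, ?_, ?_⟩
      · show I * (-I * z) ∈ U
        rw [← mul_assoc]; simpa using hz
      · show A (I * (-I * z)) = A z
        rw [← mul_assoc]; simp
  have hpt : ∀ y t : ℝ, I * (y + t * I) = ((-t : ℝ) : ℂ) + y * I := by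
    intro y t
    apply Complex.ext <;> simp
  obtain ⟨y, hy', hshort⟩ := exists_short_vertical hVo hA' hinj' hy hc (by
      intro y hy'
      have h1 : {t : ℝ | (y + t * I : ℂ) ∈ V} = (fun t => -t) ⁻¹' {x : ℝ | (x + y * I : ℂ) ∈ U} := by
        ext t
        show I * (y + t * I) ∈ U ↔ ((-t : ℝ) + y * I : ℂ) ∈ U
        rw [hpt]
      have h2 : volume ((fun t : ℝ => -t) ⁻¹' {x : ℝ | (x + y * I : ℂ) ∈ U}) =
          volume {x : ℝ | (x + y * I : ℂ) ∈ U} := by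
        exact Measure.measure_preimage_neg volume _
      rw [h1, h2]
      exact hlen y hy') (by rw [himg]; exact harea) hε hbig
  refine ⟨y, hy', fun x₁ x₂ hx hseg => ?_⟩
  have h3 := hshort (-x₂) (-x₁) (by linarith) (by
    intro t ht
    show I * (y + t * I) ∈ U
    rw [hpt]
    exact hseg (-t) ⟨by linarith [ht.2], by linarith [ht.1]⟩)
  simp only [hpt, neg_neg] at h3
  rwa [norm_sub_rev] at h3

/-- A box around the tip minus the slit. -/
def boxU (θ : ℝ → ℝ) (ρ₀ M s : ℝ) : Set ℂ :=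
  {ζ | |ζ.re - ρ₀| < 2 * s ∧ |ζ.im - θ ρ₀| < 2 * M * s ∧ ¬ (ρ₀ ≤ ζ.re ∧ ζ.im = θ ζ.re)}

theorem boxU_mono {θ : ℝ → ℝ} {ρ₀ M s t : ℝ} (hM : 0 ≤ M) (hst : s ≤ t) :
    boxU θ ρ₀ M s ⊆ boxU θ ρ₀ M t := by
  rintro ζ ⟨h1, h2, h3⟩
  refine ⟨h1.trans_le (by linarith), h2.trans_le ?_, h3⟩
  nlinarith

theorem isOpen_boxU {θ : ℝ → ℝ} (hθ : Continuous θ) {ρ₀ M s : ℝ} : IsOpen (boxU θ ρ₀ M s) := by
  have h1 : IsClosed ({ζ : ℂ | ρ₀ ≤ ζ.re} ∩ {ζ : ℂ | ζ.im = θ ζ.re}) :=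
    (isClosed_le continuous_const continuous_re).inter
      (isClosed_eq continuous_im (hθ.comp continuous_re))
  have h2 : IsOpen {ζ : ℂ | |ζ.re - ρ₀| < 2 * s} := isOpen_lt (by fun_prop) continuous_const
  have h3 : IsOpen {ζ : ℂ | |ζ.im - θ ρ₀| < 2 * M * s} := isOpen_lt (by fun_prop) continuous_const
  have h4 : boxU θ ρ₀ M s = {ζ : ℂ | |ζ.re - ρ₀| < 2 * s} ∩ {ζ : ℂ | |ζ.im - θ ρ₀| < 2 * M * s} ∩
      ({ζ : ℂ | ρ₀ ≤ ζ.re} ∩ {ζ : ℂ | ζ.im = θ ζ.re})ᶜ := by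
    ext ζ
    constructor
    · rintro ⟨a, b, c⟩
      exact ⟨⟨a, b⟩, c⟩
    · rintro ⟨⟨a, b⟩, c⟩
      exact ⟨a, b, c⟩
  rw [h4]
  exact (h2.inter h3).inter h1.isOpen_compl

namespace Setup

variable {θ : ℝ → ℝ} {K ρ₀ φ : ℝ} {f L : ℂ → ℂ} (S : Setup θ K ρ₀ φ f L)

include S

theorem tendsto_F_tip (hn : Tendsto (hgt θ L) (𝓝[LH] (φ * I)) (𝓝 0)) :
    Tendsto (Flog L) (𝓝[LH] (φ * I)) (𝓝 (ρ₀ + θ ρ₀ * I)) := by
  have h1 : Tendsto (fun ζ => (Flog L ζ).re) (𝓝[LH] (φ * I)) (𝓝 ρ₀) := by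
    have h2 := S.tip.comp (tendsto_exp_LH φ)
    have h3 : ContinuousAt (fun w : ℂ => Real.log ‖w‖) (exp (ρ₀ + θ ρ₀ * I)) :=
      continuous_norm.continuousAt.log (by simp)
    have h4 := h3.tendsto.comp h2
    have h5 : Real.log ‖exp (ρ₀ + θ ρ₀ * I)‖ = ρ₀ := by simp [norm_exp]
    rw [h5] at h4
    refine h4.congr' ?_
    filter_upwards [self_mem_nhdsWithin] with ζ hζ
    exact (S.re_F hζ).symm
  have h2 : Tendsto (fun ζ => (Flog L ζ).im) (𝓝[LH] (φ * I)) (𝓝 (θ ρ₀)) := by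
    have h3 := hn.add (S.cont_θ.continuousAt.tendsto.comp h1)
    rw [zero_add] at h3
    refine h3.congr fun ζ => ?_
    simp only [hgt, Function.comp]; ring
  have h3 := ((continuous_ofReal.tendsto _).comp h1).add
    (((continuous_ofReal.tendsto _).comp h2).mul_const I)
  refine h3.congr fun ζ => ?_
  simp only [Function.comp]
  exact re_add_im _

/-- In small boxes, `exp` avoids the slit set. -/
theorem box_notMem {M s : ℝ} (hM : K ≤ M) (hs : 4 * M * s < 2 * π) {ζ : ℂ}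
    (hζ : ζ ∈ boxU θ ρ₀ M s) : exp ζ ∉ slitSet θ ρ₀ := by
  rw [exp_mem_slitSet_iff]
  rintro ⟨h1, k, hk⟩
  obtain ⟨h2, h3, h4⟩ := hζ
  have hpi := Real.pi_pos
  have hK := S.hK
  have hlip := S.lip ζ.re ρ₀
  have hs0 : 0 < s := by
    by_contra h; push Not at h
    have := abs_nonneg (ζ.re - ρ₀)
    linarith
  have h5 : |θ ζ.re - θ ρ₀| ≤ 2 * M * s := by
    refine hlip.trans ?_
    calc K * |ζ.re - ρ₀| ≤ M * (2 * s) := by
          apply mul_le_mul hM h2.le (abs_nonneg _) (hK.trans hM)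
      _ = 2 * M * s := by ring
  have h6 : |2 * π * (k : ℝ)| < 2 * π := by
    have h7 : 2 * π * (k : ℝ) = (ζ.im - θ ρ₀) - (θ ζ.re - θ ρ₀) := by rw [hk]; ring
    rw [h7]
    calc |(ζ.im - θ ρ₀) - (θ ζ.re - θ ρ₀)| ≤ |ζ.im - θ ρ₀| + |θ ζ.re - θ ρ₀| := abs_sub _ _
      _ < 2 * π := by linarith
  rw [abs_mul, abs_of_pos (by positivity : 0 < 2 * π)] at h6
  have h8 : |(k : ℝ)| < 1 := by
    by_contra h; push Not at h; nlinarith
  have h9 : |k| < 1 := by exact_mod_cast h8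
  have h10 : k = 0 := Int.abs_lt_one_iff.1 h9
  apply h4
  refine ⟨h1, ?_⟩
  rw [hk, h10]; simp

theorem injOn_box {M s : ℝ} (hM : K ≤ M) (hs : 4 * M * s < 2 * π) :
    InjOn (fun ζ => Function.invFunOn f (ball 0 1) (exp ζ)) (boxU θ ρ₀ M s) := by
  intro ζ₁ h1 ζ₂ h2 h12
  have hpi := Real.pi_pos
  have h3 : exp ζ₁ = exp ζ₂ := by
    rw [← f_invFunOn (S.mem_image.2 (S.box_notMem hM hs h1)),
      ← f_invFunOn (S.mem_image.2 (S.box_notMem hM hs h2))]
    exact congrArg f h12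
  obtain ⟨n, hn⟩ := exp_eq_exp_iff_exists_int.1 h3
  have him : ζ₁.im = ζ₂.im + n * (2 * π) := by
    have := congrArg Complex.im hn; simpa using this
  have h4 := h1.2.1
  have h5 := h2.2.1
  rw [abs_lt] at h4 h5
  have h8 : (n : ℝ) < 1 := by
    by_contra h; push Not at h; nlinarith
  have h9 : (-1 : ℝ) < n := by
    by_contra h; push Not at h; nlinarith
  have h10 : n < 1 := by exact_mod_cast h8
  have h11 : -1 < n := by exact_mod_cast h9
  have h12 : n = 0 := by omega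
  rw [hn, h12]; simp

theorem small_area {M : ℝ} (hM : K ≤ M) (hM1 : 1 ≤ M) {ε η : ℝ} (hε : 0 < ε) (hη : 0 < η) :
    ∃ s, 0 < s ∧ s < η ∧ 4 * M * s < 2 * π ∧
      volume ((fun ζ => Function.invFunOn f (ball 0 1) (exp ζ)) '' boxU θ ρ₀ M s) ≤
        ENNReal.ofReal ε := by
  have hpi := Real.pi_pos
  have hM0 : 0 < M := by linarith
  set A : ℂ → ℂ := fun ζ => Function.invFunOn f (ball 0 1) (exp ζ) with hA
  set s₀ := π / (4 * M) with hs₀
  have hs₀0 : 0 < s₀ := by positivity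
  have h4 : 4 * M * s₀ = π := by rw [hs₀]; field_simp
  set u : ℕ → ℝ := fun n => s₀ / (n + 1) with hu
  have hu0 : ∀ n, 0 < u n := fun n => by positivity
  have hu1 : ∀ n, u n ≤ s₀ := fun n => by
    apply div_le_self hs₀0.le
    have : (0 : ℝ) ≤ n := Nat.cast_nonneg n
    linarith
  have hu2 : ∀ n, 4 * M * u n < 2 * π := fun n => by
    have : 4 * M * u n ≤ 4 * M * s₀ := by gcongr; exact hu1 n
    linarith
  have hulim : Tendsto u atTop (𝓝 0) := by
    have := tendsto_one_div_add_atTop_nhds_zero_nat (𝕜 := ℝ)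
    have h5 := this.const_mul s₀
    rw [mul_zero] at h5
    refine h5.congr fun n => ?_
    rw [hu]; ring
  have hanti : Antitone u := by
    intro m n hmn
    have : (m : ℝ) ≤ n := by exact_mod_cast hmn
    show s₀ / (n + 1) ≤ s₀ / (m + 1)
    gcongr
  set V : ℕ → Set ℂ := fun n => A '' boxU θ ρ₀ M (u n) with hV
  have hopen : ∀ n, IsOpen (V n) := fun n =>
    isOpen_image_of_injOn (isOpen_boxU S.cont_θ)
      (S.differentiableOn_A (fun ζ hζ => S.box_notMem hM (hu2 n) hζ)) (S.injOn_box hM (hu2 n))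
      (isOpen_boxU S.cont_θ) subset_rfl
  have hVanti : Antitone V := fun m n hmn => image_mono (boxU_mono hM0.le (hanti hmn))
  have hfin : ∃ n, volume (V n) ≠ ⊤ := by
    refine ⟨0, ?_⟩
    have h5 : V 0 ⊆ ball (0 : ℂ) 1 := by
      rintro _ ⟨ζ, hζ, rfl⟩
      exact invFunOn_mem (S.mem_image.2 (S.box_notMem hM (hu2 0) hζ))
    exact ne_top_of_le_ne_top measure_ball_lt_top.ne (measure_mono h5)
  have hlim := tendsto_measure_iInter_atTop (μ := volume) (s := V)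
    (fun n => (hopen n).measurableSet.nullMeasurableSet) hVanti hfin
  have hempty : ⋂ n, V n = ∅ := by
    rw [eq_empty_iff_forall_notMem]
    intro w hw
    rw [mem_iInter] at hw
    obtain ⟨ζ, hζ, hζw⟩ := hw 0
    have hall : ∀ n, ζ ∈ boxU θ ρ₀ M (u n) := by
      intro n
      obtain ⟨ζ', hζ', hζw'⟩ := hw n
      have h5 : ζ' = ζ := S.injOn_box hM (hu2 0)
        (boxU_mono hM0.le (hanti (Nat.zero_le n)) hζ') hζ (hζw'.trans hζw.symm)
      rw [← h5]; exact hζ'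
    have hre : |ζ.re - ρ₀| ≤ 0 := by
      have h6 : Tendsto (fun n => 2 * u n) atTop (𝓝 0) := by
        have := hulim.const_mul 2; rwa [mul_zero] at this
      exact ge_of_tendsto h6 (Eventually.of_forall fun n => (hall n).1.le)
    have him : |ζ.im - θ ρ₀| ≤ 0 := by
      have h6 : Tendsto (fun n => 2 * M * u n) atTop (𝓝 0) := by
        have := hulim.const_mul (2 * M); rwa [mul_zero] at this
      exact ge_of_tendsto h6 (Eventually.of_forall fun n => (hall n).2.1.le)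
    have hre' : ζ.re = ρ₀ := sub_eq_zero.1 (abs_nonpos_iff.1 hre)
    have him' : ζ.im = θ ρ₀ := sub_eq_zero.1 (abs_nonpos_iff.1 him)
    exact hζ.2.2 ⟨hre'.ge, by rw [hre', him']⟩
  rw [hempty, measure_empty] at hlim
  have h7 : ∀ᶠ n in atTop, volume (V n) ≤ ENNReal.ofReal ε := by
    have := hlim.eventually (gt_mem_nhds (show (0 : ℝ≥0∞) < ENNReal.ofReal ε by simpa using hε))
    filter_upwards [this] with n hn using hn.le
  have h8 : ∀ᶠ n in atTop, u n < η := hulim.eventually (gt_mem_nhds hη)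
  obtain ⟨n, h9, h10⟩ := (h7.and h8).exists
  exact ⟨u n, hu0 n, h10, hu2 n, h9⟩

end Setup

end Pool.Agent.Helper45.Slit
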