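import Pool.Agent.Helper45.Slit.Tip

/-!
# The tip has one preimage: crosscuts
-/

namespace Pool.Agent.Helper45.Slit

open Set Metric Filter Topology MeasureTheory Complex

open scoped ENNReal Real

theorem mem_boxU_iff {θ : ℝ → ℝ} {ρ₀ M s x y : ℝ} :
    (x + y * I : ℂ) ∈ boxU θ ρ₀ M s ↔
      |x - ρ₀| < 2 * s ∧ |y - θ ρ₀| < 2 * M * s ∧ ¬ (ρ₀ ≤ x ∧ y = θ x) := by
  have h1 : (x + y * I : ℂ).re = x := by simp
  have h2 : (x + y * I : ℂ).im = y := by simp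
  unfold boxU
  rw [mem_ofPred_eq, h1, h2]

namespace Setup

variable {θ : ℝ → ℝ} {K ρ₀ φ : ℝ} {f L : ℂ → ℂ} (S : Setup θ K ρ₀ φ f L)

include S

/-- There are arbitrarily small boxes with short crosscuts. -/
theorem exists_box {M : ℝ} (hM : 2 * K + 1 ≤ M) {ε η : ℝ} (hε : 0 < ε) (hη : 0 < η) :
    ∃ s, 0 < s ∧ s < η ∧ 4 * M * s < 2 * π ∧ ∃ a ∈ Ioo s (2 * s), ∃ b ∈ Ioo s (2 * s),
      ∃ c ∈ Ioo (M * s) (2 * M * s), ∃ d ∈ Ioo (M * s) (2 * M * s),
      ∀ w : ℂ, exp w ∉ slitSet θ ρ₀ → w.re ∈ Icc (ρ₀ - a) (ρ₀ + b) →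
        w.im ∈ Icc (θ ρ₀ - c) (θ ρ₀ + d) →
        (w.re = ρ₀ - a ∨ w.re = ρ₀ + b ∨ w.im = θ ρ₀ - c ∨ w.im = θ ρ₀ + d) →
        ‖Function.invFunOn f (ball 0 1) (exp w) -
          Function.invFunOn f (ball 0 1) (exp ((ρ₀ - a : ℝ) + θ ρ₀ * I))‖ < 3 * ε := by
  have hK := S.hK
  have hpi := Real.pi_pos
  have hKM : K ≤ M := by linarith
  have hM1 : 1 ≤ M := by linarith
  have hM0 : 0 < M := by linarith
  have hE0 : 0 < ε ^ 2 / (8 * M) := by positivity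
  obtain ⟨s, hs0, hsη, hsM, harea⟩ := S.small_area hKM hM1 hE0 hη
  refine ⟨s, hs0, hsη, hsM, ?_⟩
  set U := boxU θ ρ₀ M s with hU
  set A : ℂ → ℂ := fun ζ => Function.invFunOn f (ball 0 1) (exp ζ) with hA
  have hUo : IsOpen U := isOpen_boxU S.cont_θ
  have hAd : DifferentiableOn ℂ A U :=
    S.differentiableOn_A (fun ζ hζ => S.box_notMem hKM hsM hζ)
  have hAi : InjOn A U := S.injOn_box hKM hsM
  have hvert : ∀ x : ℝ, volume {y : ℝ | (x + y * I : ℂ) ∈ U} ≤ ENNReal.ofReal (4 * M * s) := by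
    intro x
    calc volume {y : ℝ | (x + y * I : ℂ) ∈ U}
        ≤ volume (Ioo (θ ρ₀ - 2 * M * s) (θ ρ₀ + 2 * M * s)) := by
          apply measure_mono
          intro y hy
          have h1 := (mem_boxU_iff.1 (show (x + y * I : ℂ) ∈ boxU θ ρ₀ M s from hy)).2.1
          rw [abs_lt] at h1
          exact ⟨by linarith [h1.1], by linarith [h1.2]⟩
      _ = ENNReal.ofReal (4 * M * s) := by rw [Real.volume_Ioo]; congr 1; ring
  have hhor : ∀ y : ℝ, volume {x : ℝ | (x + y * I : ℂ) ∈ U} ≤ ENNReal.ofReal (4 * s) := by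
    intro y
    calc volume {x : ℝ | (x + y * I : ℂ) ∈ U}
        ≤ volume (Ioo (ρ₀ - 2 * s) (ρ₀ + 2 * s)) := by
          apply measure_mono
          intro x hx
          have h1 := (mem_boxU_iff.1 (show (x + y * I : ℂ) ∈ boxU θ ρ₀ M s from hx)).1
          rw [abs_lt] at h1
          exact ⟨by linarith [h1.1], by linarith [h1.2]⟩
      _ = ENNReal.ofReal (4 * s) := by rw [Real.volume_Ioo]; congr 1; ring
  have hbigv : 4 * M * s * (ε ^ 2 / (8 * M)) < ε ^ 2 * s := by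
    have h1 : 4 * M * s * (ε ^ 2 / (8 * M)) = ε ^ 2 * s / 2 := by field_simp; ring
    rw [h1]
    have : 0 < ε ^ 2 * s := by positivity
    linarith
  have hbigh : 4 * s * (ε ^ 2 / (8 * M)) < ε ^ 2 * (M * s) := by
    have h1 : 4 * s * (ε ^ 2 / (8 * M)) = ε ^ 2 * s / (2 * M) := by field_simp; ring
    rw [h1, div_lt_iff₀ (by positivity)]
    have h2 : 0 < ε ^ 2 * s := by positivity
    have h3 : 1 < 2 * M ^ 2 := by nlinarith
    have h4 : ε ^ 2 * (M * s) * (2 * M) = ε ^ 2 * s * (2 * M ^ 2) := by ring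
    rw [h4]
    nlinarith
  obtain ⟨xL, hxL, hL⟩ := exists_short_vertical hUo hAd hAi (x₁ := ρ₀ - 2 * s) (x₂ := ρ₀ - s)
    (by linarith) (by positivity) (fun x _ => hvert x) harea hε (by
      have : ρ₀ - s - (ρ₀ - 2 * s) = s := by ring
      rw [this]; exact hbigv)
  obtain ⟨xR, hxR, hR⟩ := exists_short_vertical hUo hAd hAi (x₁ := ρ₀ + s) (x₂ := ρ₀ + 2 * s)
    (by linarith) (by positivity) (fun x _ => hvert x) harea hε (by
      have : ρ₀ + 2 * s - (ρ₀ + s) = s := by ring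
      rw [this]; exact hbigv)
  obtain ⟨yB, hyB, hB⟩ := exists_short_horizontal hUo hAd hAi (y₁ := θ ρ₀ - 2 * M * s)
    (y₂ := θ ρ₀ - M * s) (by nlinarith) (by positivity) (fun y _ => hhor y) harea hε (by
      have : θ ρ₀ - M * s - (θ ρ₀ - 2 * M * s) = M * s := by ring
      rw [this]; exact hbigh)
  obtain ⟨yT, hyT, hT⟩ := exists_short_horizontal hUo hAd hAi (y₁ := θ ρ₀ + M * s)
    (y₂ := θ ρ₀ + 2 * M * s) (by nlinarith) (by positivity) (fun y _ => hhor y) harea hε (by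
      have : θ ρ₀ + 2 * M * s - (θ ρ₀ + M * s) = M * s := by ring
      rw [this]; exact hbigh)
  have hMs : 0 < M * s := by positivity
  refine ⟨ρ₀ - xL, ⟨by linarith [hxL.2], by linarith [hxL.1]⟩,
    xR - ρ₀, ⟨by linarith [hxR.1], by linarith [hxR.2]⟩,
    θ ρ₀ - yB, ⟨by linarith [hyB.2], by linarith [hyB.1]⟩,
    yT - θ ρ₀, ⟨by linarith [hyT.1], by linarith [hyT.2]⟩, ?_⟩
  have e1 : ρ₀ - (ρ₀ - xL) = xL := by ring
  have e2 : ρ₀ + (xR - ρ₀) = xR := by ring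
  have e3 : θ ρ₀ - (θ ρ₀ - yB) = yB := by ring
  have e4 : θ ρ₀ + (yT - θ ρ₀) = yT := by ring
  rw [e1, e2, e3, e4]
  intro w hw hwre hwim hcases
  obtain ⟨hxL1, hxL2⟩ := hxL
  obtain ⟨hxR1, hxR2⟩ := hxR
  obtain ⟨hyB1, hyB2⟩ := hyB
  obtain ⟨hyT1, hyT2⟩ := hyT
  -- Lipschitz in the box
  have hlip : ∀ x, |x - ρ₀| < 2 * s → |θ x - θ ρ₀| < M * s := by
    intro x hx
    refine (S.lip x ρ₀).trans_lt ?_
    have : K * |x - ρ₀| ≤ K * (2 * s) := by gcongr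
    nlinarith
  -- membership of the sides
  have mL : ∀ y, |y - θ ρ₀| < 2 * M * s → (xL + y * I : ℂ) ∈ U := by
    intro y hy
    rw [hU, mem_boxU_iff]
    refine ⟨by rw [abs_lt]; constructor <;> linarith, hy, ?_⟩
    rintro ⟨h, -⟩; linarith
  have mT : ∀ x, |x - ρ₀| < 2 * s → (x + yT * I : ℂ) ∈ U := by
    intro x hx
    rw [hU, mem_boxU_iff]
    refine ⟨hx, by rw [abs_lt]; constructor <;> linarith, ?_⟩
    rintro ⟨-, h⟩
    have := abs_lt.1 (hlip x hx)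
    linarith
  have mB : ∀ x, |x - ρ₀| < 2 * s → (x + yB * I : ℂ) ∈ U := by
    intro x hx
    rw [hU, mem_boxU_iff]
    refine ⟨hx, by rw [abs_lt]; constructor <;> linarith, ?_⟩
    rintro ⟨-, h⟩
    have := abs_lt.1 (hlip x hx)
    linarith
  -- left side estimate
  have dL : ∀ y, |y - θ ρ₀| < 2 * M * s → ‖A (xL + y * I) - A (xL + θ ρ₀ * I)‖ < ε := by
    intro y hy
    rw [abs_lt] at hy
    rcases le_total (θ ρ₀) y with h | h
    · exact hL _ _ h (fun t ht => mL t (by rw [abs_lt]; constructor <;> linarith [ht.1, ht.2]))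
    · rw [norm_sub_rev]
      exact hL _ _ h (fun t ht => mL t (by rw [abs_lt]; constructor <;> linarith [ht.1, ht.2]))
  have hyTabs : |yT - θ ρ₀| < 2 * M * s := by rw [abs_lt]; constructor <;> linarith
  have hyBabs : |yB - θ ρ₀| < 2 * M * s := by rw [abs_lt]; constructor <;> linarith
  have dT : ∀ x, xL ≤ x → x ≤ xR → ‖A (x + yT * I) - A (xL + θ ρ₀ * I)‖ < 2 * ε := by
    intro x h1 h2
    have h3 := hT xL x h1 (fun t ht => mT t (by rw [abs_lt]; constructor <;> linarith [ht.1, ht.2]))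
    have h4 := dL yT hyTabs
    calc ‖A (x + yT * I) - A (xL + θ ρ₀ * I)‖
        ≤ ‖A (x + yT * I) - A (xL + yT * I)‖ + ‖A (xL + yT * I) - A (xL + θ ρ₀ * I)‖ :=
          norm_sub_le_norm_sub_add_norm_sub _ _ _
      _ < 2 * ε := by linarith
  have dB : ∀ x, xL ≤ x → x ≤ xR → ‖A (x + yB * I) - A (xL + θ ρ₀ * I)‖ < 2 * ε := by
    intro x h1 h2
    have h3 := hB xL x h1 (fun t ht => mB t (by rw [abs_lt]; constructor <;> linarith [ht.1, ht.2]))
    have h4 := dL yB hyBabs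
    calc ‖A (x + yB * I) - A (xL + θ ρ₀ * I)‖
        ≤ ‖A (x + yB * I) - A (xL + yB * I)‖ + ‖A (xL + yB * I) - A (xL + θ ρ₀ * I)‖ :=
          norm_sub_le_norm_sub_add_norm_sub _ _ _
      _ < 2 * ε := by linarith
  have hww : w = (w.re : ℂ) + w.im * I := (re_add_im w).symm
  show ‖A w - A (xL + θ ρ₀ * I)‖ < 3 * ε
  rcases hcases with h | h | h | h
  · rw [hww, h]
    have := dL w.im (by rw [abs_lt]; constructor <;> linarith [hwim.1, hwim.2])
    linarith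
  · -- right side
    have hne : w.im ≠ θ xR := by
      intro h'
      apply hw
      rw [hww, h, h']
      exact ⟨xR, by show ρ₀ ≤ xR; linarith, rfl⟩
    rcases lt_or_gt_of_ne hne with h' | h'
    · -- below
      have h3 := hR yB w.im hwim.1 (fun t ht => by
        rw [hU, mem_boxU_iff]
        refine ⟨by rw [abs_lt]; constructor <;> linarith, ?_, ?_⟩
        · rw [abs_lt]; constructor <;> linarith [ht.1, ht.2, hwim.2]
        · rintro ⟨-, h''⟩; linarith [ht.2])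
      have h4 := dB xR (by linarith) le_rfl
      rw [hww, h]
      calc ‖A (xR + w.im * I) - A (xL + θ ρ₀ * I)‖
          ≤ ‖A (xR + w.im * I) - A (xR + yB * I)‖ + ‖A (xR + yB * I) - A (xL + θ ρ₀ * I)‖ :=
            norm_sub_le_norm_sub_add_norm_sub _ _ _
        _ < 3 * ε := by linarith
    · -- above
      have h3 := hR w.im yT hwim.2 (fun t ht => by
        rw [hU, mem_boxU_iff]
        refine ⟨by rw [abs_lt]; constructor <;> linarith, ?_, ?_⟩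
        · rw [abs_lt]; constructor <;> linarith [ht.1, ht.2, hwim.1]
        · rintro ⟨-, h''⟩; linarith [ht.1])
      have h4 := dT xR (by linarith) le_rfl
      rw [hww, h]
      calc ‖A (xR + w.im * I) - A (xL + θ ρ₀ * I)‖
          ≤ ‖A (xR + w.im * I) - A (xR + yT * I)‖ + ‖A (xR + yT * I) - A (xL + θ ρ₀ * I)‖ :=
            norm_sub_le_norm_sub_add_norm_sub _ _ _
        _ < 3 * ε := by
            rw [norm_sub_rev] at h3
            linarith
  · rw [hww, h]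
    have := dB w.re hwre.1 hwre.2
    linarith
  · rw [hww, h]
    have := dT w.re hwre.1 hwre.2
    linarith

/-- Points just below the tip have preimages near `e^{iφ}`. -/
theorem exists_below (hn : Tendsto (hgt θ L) (𝓝[LH] (φ * I)) (𝓝 0)) {δ η : ℝ} (hδ : 0 < δ)
    (hη : 0 < η) : ∃ a, 0 < a ∧ a < η ∧
      ‖Function.invFunOn f (ball 0 1) (exp ((ρ₀ - a : ℝ) + θ ρ₀ * I)) - exp (φ * I)‖ < δ := by
  have hK := S.hK
  set M := 2 * K + 1 with hM
  have hM0 : 0 < M := by linarith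
  -- neighbourhood
  have h1 : ∀ᶠ ζ in 𝓝 (φ * I : ℂ), ‖exp ζ - exp (φ * I)‖ < δ / 2 := by
    have : ContinuousAt (fun ζ : ℂ => ‖exp ζ - exp (φ * I)‖) (φ * I) := by fun_prop
    apply this.eventually (gt_mem_nhds _)
    simpa using hδ
  obtain ⟨r, hr, hb⟩ := Metric.eventually_nhds_iff_ball.1 h1
  set V : Set ℂ := LH ∩ ball (φ * I : ℂ) r with hV
  have hVc : IsPreconnected V := (convex_LH.inter (convex_ball _ _)).isPreconnected
  have hVev : ∀ᶠ ζ in 𝓝[LH] (φ * I : ℂ), ζ ∈ V :=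
    inter_mem self_mem_nhdsWithin (mem_nhdsWithin_of_mem_nhds (ball_mem_nhds _ hr))
  obtain ⟨ζ₁, hζ₁⟩ : V.Nonempty := hVev.exists
  have hslit : ∀ ζ ∈ V, exp (Flog L ζ) ∉ slitSet θ ρ₀ := by
    intro ζ hζ
    rw [S.exp_F hζ.1]
    exact S.mem_image.1 ⟨_, exp_mem_ball hζ.1, rfl⟩
  have hne : 0 < ‖Flog L ζ₁ - (ρ₀ + θ ρ₀ * I)‖ := by
    rw [norm_pos_iff, sub_ne_zero]
    intro h
    apply hslit ζ₁ hζ₁
    rw [h]
    exact ⟨ρ₀, self_mem_Ici, rfl⟩
  set D := ‖Flog L ζ₁ - (ρ₀ + θ ρ₀ * I)‖ with hD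
  obtain ⟨s, hs0, hsη, -, a, ha, b, hb', c, hc, d, hd, hbox⟩ := S.exists_box (M := M) le_rfl
    (ε := δ / 6) (η := min (η / 2) (D / (2 * M + 2))) (by positivity) (by positivity)
  rw [lt_min_iff] at hsη
  refine ⟨a, by linarith [ha.1], by linarith [ha.2, hsη.1], ?_⟩
  have hMs : 0 < M * s := by positivity
  -- the gauge
  set N : ℂ → ℝ := fun w => max (max ((ρ₀ - a) - w.re) (w.re - (ρ₀ + b)))
    (max ((θ ρ₀ - c) - w.im) (w.im - (θ ρ₀ + d))) with hN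
  have hNc : Continuous N := by fun_prop
  have hN1 : 0 ≤ N (Flog L ζ₁) := by
    by_contra hcon
    push Not at hcon
    simp only [hN, max_lt_iff] at hcon
    obtain ⟨⟨g1, g2⟩, ⟨g3, g4⟩⟩ := hcon
    have h3 : D ≤ |(Flog L ζ₁ - (ρ₀ + θ ρ₀ * I)).re| + |(Flog L ζ₁ - (ρ₀ + θ ρ₀ * I)).im| :=
      norm_le_abs_re_add_abs_im _
    have h4 : |(Flog L ζ₁ - (ρ₀ + θ ρ₀ * I)).re| < 2 * s := by
      simp only [sub_re, add_re, ofReal_re, mul_re, I_re, mul_zero, ofReal_im, I_im, mul_one,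
        sub_self, add_zero]
      rw [abs_lt]; constructor <;> linarith [ha.2, hb'.2]
    have h5 : |(Flog L ζ₁ - (ρ₀ + θ ρ₀ * I)).im| < 2 * M * s := by
      simp only [sub_im, add_im, ofReal_re, mul_im, I_re, mul_zero, ofReal_im, I_im, mul_one,
        add_zero, zero_add]
      rw [abs_lt]; constructor <;> linarith [hc.2, hd.2]
    have h6 := hsη.2
    rw [lt_div_iff₀ (by positivity)] at h6
    nlinarith
  obtain ⟨ζ₂, hζ₂, hN2⟩ : ∃ ζ₂ ∈ V, N (Flog L ζ₂) ≤ 0 := by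
    have h3 := S.tendsto_F_tip hn
    have h4 : ∀ᶠ w in 𝓝 (ρ₀ + θ ρ₀ * I : ℂ), N w < 0 := by
      apply hNc.continuousAt.eventually (gt_mem_nhds _)
      simp only [hN, max_lt_iff, add_re, ofReal_re, mul_re, I_re, mul_zero, ofReal_im, I_im,
        mul_one, sub_self, add_zero, add_im, mul_im, zero_add]
      refine ⟨⟨by linarith [ha.1], by linarith [hb'.1]⟩, ⟨by linarith [hc.1], by linarith [hd.1]⟩⟩
    obtain ⟨ζ₂, h5, h6⟩ := (hVev.and (h3.eventually h4)).exists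
    exact ⟨ζ₂, h5, h6.le⟩
  obtain ⟨ζ, hζ, hNζ⟩ := hVc.intermediate_value hζ₂ hζ₁
    ((hNc.comp_continuousOn (S.cont_F.mono inter_subset_left)) :
      ContinuousOn (fun ζ => N (Flog L ζ)) V) (⟨hN2, hN1⟩ : (0 : ℝ) ∈ Icc _ _)
  have hNζ' : N (Flog L ζ) = 0 := hNζ
  simp only [hN] at hNζ'
  have g : max (max ((ρ₀ - a) - (Flog L ζ).re) ((Flog L ζ).re - (ρ₀ + b)))
    (max ((θ ρ₀ - c) - (Flog L ζ).im) ((Flog L ζ).im - (θ ρ₀ + d))) ≤ 0 := hNζ'.le
  simp only [max_le_iff] at g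
  obtain ⟨⟨g1, g2⟩, ⟨g3, g4⟩⟩ := g
  have h7 := hbox (Flog L ζ) (hslit ζ hζ) ⟨by linarith, by linarith⟩ ⟨by linarith, by linarith⟩ (by
    by_contra hcon
    push Not at hcon
    obtain ⟨k1, k2, k3, k4⟩ := hcon
    have : max (max ((ρ₀ - a) - (Flog L ζ).re) ((Flog L ζ).re - (ρ₀ + b)))
      (max ((θ ρ₀ - c) - (Flog L ζ).im) ((Flog L ζ).im - (θ ρ₀ + d))) < 0 := by
      simp only [max_lt_iff]
      refine ⟨⟨lt_of_le_of_ne g1 fun h => k1 (by linarith), lt_of_le_of_ne g2 fun h => k2 (by linarith)⟩,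
        ⟨lt_of_le_of_ne g3 fun h => k3 (by linarith), lt_of_le_of_ne g4 fun h => k4 (by linarith)⟩⟩
    linarith)
  have h8 : Function.invFunOn f (ball 0 1) (exp (Flog L ζ)) = exp ζ := by
    rw [S.exp_F hζ.1]; exact invFunOn_f S.inj (exp_mem_ball hζ.1)
  rw [h8] at h7
  have h9 := hb ζ hζ.2
  rw [norm_sub_rev] at h7
  calc ‖Function.invFunOn f (ball 0 1) (exp ((ρ₀ - a : ℝ) + θ ρ₀ * I)) - exp (φ * I)‖
      ≤ ‖Function.invFunOn f (ball 0 1) (exp ((ρ₀ - a : ℝ) + θ ρ₀ * I)) - exp ζ‖ +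
        ‖exp ζ - exp (φ * I)‖ := norm_sub_le_norm_sub_add_norm_sub _ _ _
    _ < δ := by linarith

end Setup

end Pool.Agent.Helper45.Slit
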