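import Pool.Agent.Helper45.Slit.Reduce

/-!
# Upper bound for the tip position in the class `S_α`
-/

namespace Pool.Agent.Helper45.Slit

open Set Metric Filter Topology MeasureTheory Complex

open scoped ENNReal Real

theorem tipAngles_le {closed : Prop} {α : ℝ} (hα0 : 0 < α) (hα1 : α ≤ 1) {x : ℝ}
    (hx : x ∈ tipAngles closed α) : x ≤ α * π := by
  have hpi := Real.pi_pos
  obtain ⟨f, γ, F, φ, hS, hFc, hFf, hF1, hφ, hFφ, rfl⟩ := hx
  rcases hα1.eq_or_lt with rfl | hα1
  · rw [one_mul]; exact (abs_lt.2 hφ).le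
  -- limits of `f`
  have hmem1 : (-1 : ℂ) ∈ closedBall (0 : ℂ) 1 := by simp
  have hmemφ : exp (φ * I) ∈ closedBall (0 : ℂ) 1 := by
    rw [mem_closedBall_zero_iff, norm_exp_ofReal_mul_I]
  have hinf : Tendsto f (𝓝[ball 0 1] (-1)) (cocompact ℂ) := by
    have h1 : Tendsto F (𝓝[closedBall 0 1] (-1)) (𝓝 (F (-1))) := hFc _ hmem1
    have h2 : Tendsto F (𝓝[ball 0 1] (-1)) (𝓝 (F (-1))) :=
      h1.mono_left (nhdsWithin_mono _ ball_subset_closedBall)
    rw [hF1] at h2
    have h3 : Tendsto (fun z => (f z : OnePoint ℂ)) (𝓝[ball 0 1] (-1)) (𝓝 OnePoint.infty) := by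
      refine h2.congr' ?_
      filter_upwards [self_mem_nhdsWithin] with z hz using hFf z hz
    have h4 : Tendsto f (𝓝[ball 0 1] (-1))
        (comap ((↑) : ℂ → OnePoint ℂ) (𝓝 OnePoint.infty)) := tendsto_comap_iff.2 h3
    rwa [OnePoint.comap_coe_nhds_infty, coclosedCompact_eq_cocompact] at h4
  have htip : Tendsto f (𝓝[ball 0 1] (exp (φ * I))) (𝓝 (γ 0)) := by
    have h1 : Tendsto F (𝓝[closedBall 0 1] (exp (φ * I))) (𝓝 (F (exp (φ * I)))) := hFc _ hmemφ
    have h2 : Tendsto F (𝓝[ball 0 1] (exp (φ * I))) (𝓝 (F (exp (φ * I)))) :=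
      h1.mono_left (nhdsWithin_mono _ ball_subset_closedBall)
    rw [hFφ] at h2
    have h3 : Tendsto (fun z => (f z : OnePoint ℂ)) (𝓝[ball 0 1] (exp (φ * I)))
        (𝓝 (γ 0 : OnePoint ℂ)) := by
      refine h2.congr' ?_
      filter_upwards [self_mem_nhdsWithin] with z hz using hFf z hz
    exact (OnePoint.isOpenEmbedding_coe.isInducing.tendsto_nhds_iff).2 h3
  have hne : ∀ t, 0 ≤ t → γ t ≠ 0 := by
    intro t ht h0
    have h1 : γ t ∈ (f '' ball 0 1)ᶜ := by rw [hS.compl_image]; exact ⟨t, ht, rfl⟩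
    apply h1
    rw [h0]
    exact ⟨0, mem_ball_self one_pos, hS.map_zero⟩
  have hβ0 : 0 < α * π / 2 := by positivity
  have hβ : α * π / 2 < π / 2 := by nlinarith
  obtain ⟨θ, ρ₀, hlip, hslit, htip0⟩ := exists_graph hβ0 hβ hS.arc hS.analytic hne hS.angle_le
  obtain ⟨L, hLd, hL⟩ := exists_log_of_injOn hS.differentiableOn hS.injOn hS.map_zero
  have S : Setup θ (Real.tan (α * π / 2)) ρ₀ φ f L :=
    { hK := (Real.tan_pos_of_pos_of_lt_pi_div_two hβ0 hβ).le
      lip := hlip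
      diff := hS.differentiableOn
      inj := hS.injOn
      img := by rw [hslit, ← hS.compl_image, compl_compl]
      zero := hS.map_zero
      logd := hLd
      log := hL
      infty := hinf
      tip := by rw [htip0]; exact htip
      hφ := hφ }
  have := S.upper hβ0.le hβ
  linarith

end Pool.Agent.Helper45.Slit
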